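import Pool.Agent.CITNF.Defs

set_option autoImplicit false

/-! P6. Heights: Northcott (`NumberField.finite_setOfPred_logHeight₁_le`), minimal positive height,
torsion, roots, the near inequality, rank one points.
near: δ1 = y/x, δ2 = (1-y)/(1-x), x = (1-δ2)/(δ1-δ2) (δ1 <> δ2 as y <> x), `logHeight₁_mul_le`,
`logHeight₁_inv`, `logHeight₁_sub_le`, totalWeight = finrank.
exists_root_height: u = w^i z^j with i p + j q = 1, then u^(q g) = z^g.
rank_one: let x^a (1-x)^b = 1, c = n log 2. If a = 0 or b = 0 one of x, 1-x has height 0. If a,b have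
opposite signs: x^m = (1-x)^k, m,k > 0; if k >= m put z = (1-x)/x: z^k = x^(m-k), so
k h(z) = (k-m) h(x) = k (h(x) - h(1-x)) <= k c, and x = 1/(1+z); if m > k exchange x and 1-x.
If a, b have the same sign, x^m (1-x)^k = 1 gives (1-x')^(2k) = x'^(2(m+k)) for x' = 1/x. -/

namespace Pool.Agent.CITNF

open NumberField Height Real Module

variable {K : Type} [Field K] [NumberField K]

theorem exists_min_height (K : Type) [Field K] [NumberField K] :
    ∃ c : ℝ, 0 < c ∧ ∀ w : K, logHeight₁ w ≠ 0 → c ≤ logHeight₁ w := by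
  classical
  have hfin := NumberField.finite_setOfPred_logHeight₁_le K 1
  set S : Set K := {w | logHeight₁ w ≤ 1 ∧ logHeight₁ w ≠ 0} with hS
  have hSf : S.Finite := hfin.subset (fun w hw => hw.1)
  rcases S.eq_empty_or_nonempty with he | hne
  · refine ⟨1, one_pos, fun w hw => ?_⟩
    by_contra hcon
    push Not at hcon
    have : w ∈ S := ⟨hcon.le, hw⟩
    rw [he] at this
    exact this
  · obtain ⟨w₀, hw₀, hmin⟩ := hSf.exists_minimalFor (fun w => logHeight₁ w) S hne
    have h0 : 0 < logHeight₁ w₀ := lt_of_le_of_ne (zero_le_logHeight₁ w₀) (Ne.symm hw₀.2)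
    refine ⟨logHeight₁ w₀, h0, fun w hw => ?_⟩
    by_contra hcon
    push Not at hcon
    have hwS : w ∈ S := ⟨hcon.le.trans hw₀.1, hw⟩
    have := hmin hwS hcon.le
    simp only at this
    linarith

theorem torsion_of_height_zero (w : K) (hw : w ≠ 0) (h : logHeight₁ w = 0) :
    ∃ m : ℕ, 0 < m ∧ w ^ m = 1 := by
  have hfin := NumberField.finite_setOfPred_logHeight₁_le K 0
  have hmaps : ∀ n : ℕ, w ^ n ∈ {x : K | logHeight₁ x ≤ 0} := by
    intro n
    change logHeight₁ (w ^ n) ≤ 0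
    rw [logHeight₁_pow, h, mul_zero]
  obtain ⟨a, b, hab, heq⟩ : ∃ a b : ℕ, a < b ∧ w ^ a = w ^ b := by
    by_contra hcon
    push Not at hcon
    have hinj : Function.Injective (fun n : ℕ => w ^ n) := by
      intro a b hab
      rcases lt_trichotomy a b with h1 | h1 | h1
      · exact absurd hab (hcon a b h1)
      · exact h1
      · exact absurd hab.symm (hcon b a h1)
    have := Set.infinite_range_of_injective hinj
    apply this
    apply hfin.subset
    rintro _ ⟨n, rfl⟩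
    exact hmaps n
  refine ⟨b - a, by omega, ?_⟩
  have h1 : w ^ b = w ^ a * w ^ (b - a) := by
    rw [← pow_add]
    congr 1
    omega
  rw [h1] at heq
  have h2 : w ^ a ≠ 0 := pow_ne_zero _ hw
  have h3 : w ^ a * 1 = w ^ a * w ^ (b - a) := by rw [mul_one]; exact heq
  exact (mul_left_cancel₀ h2 h3).symm

theorem cn6_height_zero_of_pow (w : K) (g : ℕ) (hg : 0 < g) (h : w ^ g = 1) :
    logHeight₁ w = 0 := by
  have h1 := logHeight₁_pow w g
  rw [h, logHeight₁_one] at h1
  have h2 : (g : ℝ) ≠ 0 := by exact_mod_cast hg.ne'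
  rcases mul_eq_zero.1 h1.symm with h3 | h3
  · exact absurd h3 h2
  · exact h3

theorem exists_torsion_exponent (K : Type) [Field K] [NumberField K] :
    ∃ ω : ℕ, 0 < ω ∧ ∀ (w : K) (g : ℕ), 0 < g → w ^ g = 1 → w ^ ω = 1 := by
  classical
  have hfin := NumberField.finite_setOfPred_logHeight₁_le K 0
  set T : Set K := {w | ∃ g : ℕ, 0 < g ∧ w ^ g = 1} with hT
  have hTf : T.Finite := by
    apply hfin.subset
    rintro w ⟨g, hg, hw⟩
    change logHeight₁ w ≤ 0
    rw [cn6_height_zero_of_pow w g hg hw]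
  choose! m hm using (fun w (hw : w ∈ T) => hw)
  refine ⟨∏ w ∈ hTf.toFinset, m w, ?_, ?_⟩
  · apply Finset.prod_pos
    intro w hw
    exact (hm w (hTf.mem_toFinset.1 hw)).1
  · intro w g hg hw
    have hwT : w ∈ T := ⟨g, hg, hw⟩
    have hdvd : m w ∣ ∏ w ∈ hTf.toFinset, m w :=
      Finset.dvd_prod_of_mem m (hTf.mem_toFinset.2 hwT)
    obtain ⟨k, hk⟩ := hdvd
    rw [hk, pow_mul, (hm w hwT).2, one_pow]

theorem exists_root_height (z w : K) (hz : z ≠ 0) (hw : w ≠ 0) (p q g : ℕ) (hpq : Nat.Coprime p q)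
    (hg : 0 < g) (h : w ^ (q * g) = z ^ (p * g)) : ∃ u : K, logHeight₁ z = q * logHeight₁ u := by
  have hbez := Nat.gcd_eq_gcd_ab p q
  rw [hpq.gcd_eq_one] at hbez
  set i : ℤ := Nat.gcdA p q with hi
  set j : ℤ := Nat.gcdB p q with hj
  refine ⟨w ^ i * z ^ j, ?_⟩
  have h1 : (w ^ i * z ^ j) ^ (q * g) = z ^ g := by
    have e1 : (w ^ i) ^ (q * g) = z ^ (i * (p * g)) := by
      calc (w ^ i) ^ (q * g) = (w ^ (q * g)) ^ i := by
            rw [← zpow_natCast, ← zpow_natCast, ← zpow_mul, ← zpow_mul, mul_comm]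
        _ = (z ^ (p * g)) ^ i := by rw [h]
        _ = z ^ (i * (p * g)) := by
            rw [← zpow_natCast, ← zpow_mul, mul_comm]
            push_cast
            rfl
    have e2 : (z ^ j) ^ (q * g) = z ^ (j * (q * g)) := by
      rw [← zpow_natCast, ← zpow_mul]
      push_cast
      rfl
    rw [mul_pow, e1, e2, ← zpow_add₀ hz]
    have e3 : i * (p * g) + j * (q * g) = (g : ℤ) := by
      have : ((1 : ℕ) : ℤ) = p * i + q * j := hbez
      push_cast at this
      calc i * (p * g) + j * (q * g) = (p * i + q * j) * g := by ring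
        _ = g := by rw [← this, one_mul]
    rw [e3, zpow_natCast]
  have h2 := congrArg logHeight₁ h1
  rw [logHeight₁_pow, logHeight₁_pow] at h2
  have hg' : (g : ℝ) ≠ 0 := by exact_mod_cast hg.ne'
  push_cast at h2
  have h3 : (g : ℝ) * (q * logHeight₁ (w ^ i * z ^ j)) = g * logHeight₁ z := by
    rw [← h2]
    ring
  exact (mul_left_cancel₀ hg' h3).symm

theorem cn6_sub_le (x y : K) :
    logHeight₁ (x - y) ≤ finrank ℚ K * log 2 + logHeight₁ x + logHeight₁ y := by
  have := logHeight₁_sub_le x y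
  rwa [NumberField.totalWeight_eq_finrank] at this

theorem near (x y : K) (hx : x ≠ 0) (hx1 : x ≠ 1) (hy : y ≠ 0) (hy1 : y ≠ 1) (hne : y ≠ x) :
    logHeight₁ x ≤ logHeight₁ (y / x) + 2 * logHeight₁ ((1 - y) / (1 - x)) +
      2 * (finrank ℚ K * log 2) := by
  set d1 := y / x with hd1
  set d2 := (1 - y) / (1 - x) with hd2
  have h1x : 1 - x ≠ 0 := sub_ne_zero.2 (Ne.symm hx1)
  have e : d1 - d2 = (y - x) / (x * (1 - x)) := by
    rw [hd1, hd2]
    field_simp
    ring
  have hd : d1 - d2 ≠ 0 := by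
    rw [e]
    exact div_ne_zero (sub_ne_zero.2 hne) (mul_ne_zero hx h1x)
  have ex : x = (1 - d2) * (d1 - d2)⁻¹ := by
    rw [e, hd2]
    have hyx : y - x ≠ 0 := sub_ne_zero.2 hne
    field_simp
    ring
  have h1 : logHeight₁ x ≤ logHeight₁ (1 - d2) + logHeight₁ (d1 - d2)⁻¹ := by
    conv_lhs => rw [ex]
    exact logHeight₁_mul_le _ _
  rw [logHeight₁_inv] at h1
  have h2 := cn6_sub_le (1 : K) d2
  rw [logHeight₁_one] at h2
  have h3 := cn6_sub_le d1 d2
  linarith

theorem height_one_sub_le (x : K) : logHeight₁ (1 - x) ≤ logHeight₁ x + finrank ℚ K * log 2 := by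
  have h2 := cn6_sub_le (1 : K) x
  rw [logHeight₁_one] at h2
  linarith

theorem height_le_one_sub (x : K) : logHeight₁ x ≤ logHeight₁ (1 - x) + finrank ℚ K * log 2 := by
  have h := height_one_sub_le (1 - x)
  have : (1 : K) - (1 - x) = x := by ring
  rwa [this] at h

theorem cn6_one_add_le (x : K) : logHeight₁ (1 + x) ≤ finrank ℚ K * log 2 + logHeight₁ x := by
  have h := logHeight₁_add_le (1 : K) x
  rw [NumberField.totalWeight_eq_finrank, logHeight₁_one] at h
  linarith

theorem cn6_case1 (x : K) (hx : x ≠ 0) (m k : ℕ) (hm : 0 < m) (hmk : m ≤ k)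
    (h : x ^ m = (1 - x) ^ k) : logHeight₁ x ≤ 2 * (finrank ℚ K * log 2) := by
  set c : ℝ := finrank ℚ K * log 2 with hc
  have hk : 0 < k := lt_of_lt_of_le hm hmk
  have hkR : (0 : ℝ) < k := by exact_mod_cast hk
  set z : K := (1 - x) / x with hz
  have h1 : z ^ k = (x ^ (k - m))⁻¹ := by
    rw [hz, div_pow, ← h]
    have : x ^ k = x ^ m * x ^ (k - m) := by
      rw [← pow_add]
      congr 1
      omega
    rw [this]
    have h2 : x ^ m ≠ 0 := pow_ne_zero _ hx
    have h3 : x ^ (k - m) ≠ 0 := pow_ne_zero _ hx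
    field_simp
  have h2 : (k : ℝ) * logHeight₁ z = (k - m) * logHeight₁ x := by
    have e := congrArg logHeight₁ h1
    rw [logHeight₁_pow, logHeight₁_inv, logHeight₁_pow, Nat.cast_sub hmk] at e
    exact e
  have h3 : (m : ℝ) * logHeight₁ x = k * logHeight₁ (1 - x) := by
    have e := congrArg logHeight₁ h
    rwa [logHeight₁_pow, logHeight₁_pow] at e
  have h4 := height_le_one_sub x
  have h5 : (k : ℝ) * logHeight₁ z ≤ k * c := by
    have : (k : ℝ) * logHeight₁ z = k * (logHeight₁ x - logHeight₁ (1 - x)) := by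
      rw [h2, mul_sub, ← h3]
      ring
    rw [this]
    apply mul_le_mul_of_nonneg_left _ hkR.le
    linarith
  have h6 : logHeight₁ z ≤ c := le_of_mul_le_mul_left h5 hkR
  have h7 : x = (1 + z)⁻¹ := by
    have : (1 : K) + z = x⁻¹ := by
      rw [hz]
      field_simp
      ring
    rw [this, inv_inv]
  have h8 : logHeight₁ x = logHeight₁ (1 + z) := by
    conv_lhs => rw [h7]
    exact logHeight₁_inv _
  rw [h8]
  have := cn6_one_add_le z
  linarith

theorem cn6_case2 (x : K) (hx : x ≠ 0) (hx1 : x ≠ 1) (m k : ℕ) (hm : 0 < m) (hk : 0 < k)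
    (h : x ^ m = (1 - x) ^ k) : logHeight₁ x ≤ 3 * (finrank ℚ K * log 2) := by
  have hc : 0 ≤ (finrank ℚ K : ℝ) * log 2 :=
    mul_nonneg (Nat.cast_nonneg _) (Real.log_nonneg (by norm_num))
  rcases le_total m k with hmk | hmk
  · have := cn6_case1 x hx m k hm hmk h
    linarith
  · have h1 : (1 - x) ^ k = (1 - (1 - x)) ^ m := by
      rw [← h]
      congr 1
      ring
    have h2 := cn6_case1 (1 - x) (sub_ne_zero.2 (Ne.symm hx1)) k m hk hmk h1
    have h3 := height_le_one_sub x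
    linarith

theorem cn6_case3 (x : K) (hx : x ≠ 0) (hx1 : x ≠ 1) (m k : ℕ) (hk : 0 < k)
    (h : x ^ m * (1 - x) ^ k = 1) : logHeight₁ x ≤ 3 * (finrank ℚ K * log 2) := by
  have hxi : x⁻¹ ≠ 0 := inv_ne_zero hx
  have hxi1 : x⁻¹ ≠ 1 := by
    intro h0
    exact hx1 (inv_eq_one.1 h0)
  have h1 : (x⁻¹) ^ (2 * (m + k)) = (1 - x⁻¹) ^ (2 * k) := by
    have e1 : (1 : K) - x⁻¹ = -((1 - x) / x) := by
      field_simp
      ring
    have e2 : (1 - x⁻¹) ^ (2 * k) = ((1 - x) ^ k) ^ 2 / (x ^ k) ^ 2 := by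
      rw [e1, pow_mul, neg_sq, ← pow_mul, div_pow, mul_comm 2 k, pow_mul, pow_mul]
    have e3 : (1 - x) ^ k = (x ^ m)⁻¹ := eq_inv_of_mul_eq_one_right h
    rw [e2, e3, inv_pow, mul_comm 2 (m + k), pow_mul, pow_add]
    have h2 : x ^ m ≠ 0 := pow_ne_zero _ hx
    have h3 : x ^ k ≠ 0 := pow_ne_zero _ hx
    field_simp
  have h2 := cn6_case2 x⁻¹ hxi hxi1 (2 * (m + k)) (2 * k) (by omega) (by omega) h1
  rwa [logHeight₁_inv] at h2

theorem rank_one (K : Type) [Field K] [NumberField K] :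
    ∃ C : ℝ, ∀ x : K, x ≠ 0 → x ≠ 1 → ¬ MI x → logHeight₁ x ≤ C := by
  refine ⟨3 * (finrank ℚ K * log 2), ?_⟩
  intro x hx hx1 hMI
  have hc : 0 ≤ (finrank ℚ K : ℝ) * log 2 :=
    mul_nonneg (Nat.cast_nonneg _) (Real.log_nonneg (by norm_num))
  have h1x : 1 - x ≠ 0 := sub_ne_zero.2 (Ne.symm hx1)
  unfold MI at hMI
  push Not at hMI
  obtain ⟨a, b, hab, hne⟩ := hMI
  -- we may assume `b ≥ 0`
  have key : ∀ a b : ℤ, x ^ a * (1 - x) ^ b = 1 → (a = 0 → b ≠ 0) → 0 ≤ b →
      logHeight₁ x ≤ 3 * (finrank ℚ K * log 2) := by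
    intro a b hab hne hb
    obtain ⟨k, rfl⟩ := Int.eq_ofNat_of_zero_le hb
    rw [zpow_natCast] at hab
    rcases Nat.eq_zero_or_pos k with hk | hk
    · subst hk
      rw [pow_zero, mul_one] at hab
      have ha : a ≠ 0 := fun h0 => hne h0 rfl
      have e := congrArg logHeight₁ hab
      rw [logHeight₁_zpow, logHeight₁_one] at e
      have h2 : (a.natAbs : ℝ) ≠ 0 := by
        exact_mod_cast Int.natAbs_ne_zero.2 ha
      rcases mul_eq_zero.1 e with h3 | h3
      · exact absurd h3 h2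
      · rw [h3]
        linarith
    · rcases le_or_gt 0 a with ha | ha
      · obtain ⟨m, rfl⟩ := Int.eq_ofNat_of_zero_le ha
        rw [zpow_natCast] at hab
        exact cn6_case3 x hx hx1 m k hk hab
      · obtain ⟨m, hm⟩ : ∃ m : ℕ, a = -(m : ℤ) := ⟨a.natAbs, by omega⟩
        subst hm
        rw [zpow_neg, zpow_natCast] at hab
        have hm : 0 < m := by omega
        refine cn6_case2 x hx hx1 m k hm hk ?_
        have h2 : x ^ m ≠ 0 := pow_ne_zero _ hx
        field_simp at hab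
        exact hab.symm
  rcases le_or_gt 0 b with hb | hb
  · exact key a b hab hne hb
  · apply key (-a) (-b) _ _ (by omega)
    · rw [zpow_neg, zpow_neg, ← mul_inv, hab, inv_one]
    · intro h0
      have := hne (by omega)
      omega

end Pool.Agent.CITNF
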