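import Mathlib

set_option autoImplicit false

/-! Covering `{y : y^a = 1}` by finitely many torsion cosets of subtori. -/

namespace Pool.Agent.CITNF

open Finset

/-- A finite family of proper torsion cosets. -/
def IsFam {n k : ℕ} (L : Fin k → Submodule ℤ (Fin n → ℤ)) (ζ : Fin k → Fin n → ℂ) : Prop :=
  ∀ j, L j ≠ ⊥ ∧ (∀ a : Fin n → ℤ, ∀ m : ℤ, m ≠ 0 → m • a ∈ L j → a ∈ L j) ∧
    ∃ m : ℕ, 0 < m ∧ ∀ i, ζ j i ^ m = 1

theorem prod_zpow_sum {ι : Type} {F : Type} [Field F] (z : F) (hz : z ≠ 0) (s : Finset ι)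
    (f : ι → ℤ) : ∏ i ∈ s, z ^ f i = z ^ ∑ i ∈ s, f i := by
  classical
  induction s using Finset.induction_on with
  | empty => simp
  | insert i s hi ih => rw [Finset.prod_insert hi, Finset.sum_insert hi, zpow_add₀ hz, ih]

theorem cover {n : ℕ} (a : Fin n → ℤ) (ha : a ≠ 0) :
    ∃ (k : ℕ) (L : Fin k → Submodule ℤ (Fin n → ℤ)) (ζ : Fin k → Fin n → ℂ), IsFam L ζ ∧
      ∀ y : Fin n → ℂ, (∀ i, y i ≠ 0) → ∏ i, y i ^ a i = 1 →
        ∃ j, ∀ b ∈ L j, ∏ i, y i ^ b i = ∏ i, ζ j i ^ b i := by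
  classical
  obtain ⟨i₀, hi₀⟩ := Function.ne_iff.mp ha
  obtain ⟨a₀, hg, hg1⟩ := Finset.extract_gcd a (s := univ) ⟨i₀, mem_univ _⟩
  set d := univ.gcd a with hd
  have hd0 : d ≠ 0 := by
    intro h0
    rw [hd, Finset.gcd_eq_zero_iff] at h0
    exact hi₀ (h0 i₀ (mem_univ _))
  obtain ⟨b, hb⟩ := Finset.gcd_eq_sum_mul univ a₀
  rw [hg1] at hb
  have hdn : d.natAbs ≠ 0 := Int.natAbs_ne_zero.mpr hd0
  have hprim := Complex.isPrimitiveRoot_exp d.natAbs hdn
  set ω := Complex.exp (2 * Real.pi * Complex.I / d.natAbs) with hω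
  have hω0 : ω ≠ 0 := Complex.exp_ne_zero _
  refine ⟨d.natAbs, fun _ => Submodule.span ℤ {a₀}, fun j i => (ω ^ (j : ℕ)) ^ (b i), ?_, ?_⟩
  · intro j
    refine ⟨?_, ?_, d.natAbs, Nat.pos_of_ne_zero hdn, ?_⟩
    · intro hbot
      rw [Submodule.span_singleton_eq_bot] at hbot
      rw [hbot] at hb
      simp at hb
    · intro c m hm hc
      rw [Submodule.mem_span_singleton] at hc ⊢
      obtain ⟨t, ht⟩ := hc
      refine ⟨∑ i, b i * c i, ?_⟩
      have h1 : t = m * ∑ i, b i * c i := by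
        have h2 : t * ∑ i, a₀ i * b i = ∑ i, b i * (m * c i) := by
          rw [Finset.mul_sum]
          refine Finset.sum_congr rfl fun i _ => ?_
          have h3 := congrFun ht i
          simp only [Pi.smul_apply, smul_eq_mul] at h3
          rw [← h3]
          ring
        rw [← hb, mul_one] at h2
        rw [h2, Finset.mul_sum]
        refine Finset.sum_congr rfl fun i _ => ?_
        ring
      funext i
      have h3 := congrFun ht i
      simp only [Pi.smul_apply, smul_eq_mul] at h3 ⊢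
      rw [h1, mul_assoc] at h3
      exact mul_left_cancel₀ hm h3
    · intro i
      have h1 : (ω ^ (j : ℕ)) ^ d.natAbs = 1 := by
        rw [← pow_mul, mul_comm, pow_mul, hprim.pow_eq_one, one_pow]
      rw [← zpow_natCast, ← zpow_mul, mul_comm, zpow_mul, zpow_natCast, h1, one_zpow]
  · intro y hy hya
    have h1 : (∏ i, y i ^ a₀ i) ^ d = 1 := by
      rw [← hya, ← Finset.prod_zpow]
      refine Finset.prod_congr rfl fun i _ => ?_
      rw [← zpow_mul, hg i (mem_univ _), mul_comm]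
    have h2 : (∏ i, y i ^ a₀ i) ^ d.natAbs = 1 := by
      rcases Int.natAbs_eq d with h | h
      · rw [h, zpow_natCast] at h1
        exact h1
      · rw [h, zpow_neg, zpow_natCast, inv_eq_one] at h1
        exact h1
    have : NeZero d.natAbs := ⟨hdn⟩
    obtain ⟨j, hj, hj2⟩ := hprim.eq_pow_of_pow_eq_one h2
    refine ⟨⟨j, hj⟩, ?_⟩
    intro c hc
    rw [Submodule.mem_span_singleton] at hc
    obtain ⟨t, rfl⟩ := hc
    have e1 : ∏ i, y i ^ (t • a₀) i = (∏ i, y i ^ a₀ i) ^ t := by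
      rw [← Finset.prod_zpow]
      refine Finset.prod_congr rfl fun i _ => ?_
      rw [← zpow_mul, Pi.smul_apply, smul_eq_mul, mul_comm]
    have e2 : ∏ i, ((ω ^ j) ^ (b i)) ^ (t • a₀) i = (ω ^ j) ^ t := by
      have : ∀ i, ((ω ^ j) ^ (b i)) ^ (t • a₀) i = (ω ^ j) ^ (t * (a₀ i * b i)) := by
        intro i
        rw [← zpow_mul, Pi.smul_apply, smul_eq_mul]
        congr 1
        ring
      simp only [this]
      rw [prod_zpow_sum _ (pow_ne_zero _ hω0), ← Finset.mul_sum, ← hb, mul_one]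
    change _ = ∏ i, ((ω ^ j) ^ (b i)) ^ (t • a₀) i
    rw [e1, e2, hj2]

/-- Finitely many relations are covered by one finite family. -/
theorem cover_finset {n : ℕ} (S : Finset (Fin n → ℤ)) (hS : 0 ∉ S) :
    ∃ (k : ℕ) (L : Fin k → Submodule ℤ (Fin n → ℤ)) (ζ : Fin k → Fin n → ℂ), IsFam L ζ ∧
      ∀ y : Fin n → ℂ, (∀ i, y i ≠ 0) → (∃ a ∈ S, ∏ i, y i ^ a i = 1) →
        ∃ j, ∀ b ∈ L j, ∏ i, y i ^ b i = ∏ i, ζ j i ^ b i := by
  classical
  have h := fun s : S => cover s.1 (fun h0 => hS (h0 ▸ s.2))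
  choose k L ζ hfam hcov using h
  let e := Fintype.equivFin (Σ s : S, Fin (k s))
  refine ⟨Fintype.card (Σ s : S, Fin (k s)), fun j => L (e.symm j).1 (e.symm j).2,
    fun j => ζ (e.symm j).1 (e.symm j).2, fun j => hfam _ _, ?_⟩
  rintro y hy ⟨a, haS, hya⟩
  obtain ⟨j, hj⟩ := hcov ⟨a, haS⟩ y hy hya
  refine ⟨e ⟨⟨a, haS⟩, j⟩, ?_⟩
  have key : ∀ q : (Σ s : S, Fin (k s)), q = ⟨⟨a, haS⟩, j⟩ →
      ∀ b ∈ L q.1 q.2, ∏ i, y i ^ b i = ∏ i, ζ q.1 q.2 i ^ b i := by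
    rintro q rfl
    exact hj
  exact key _ (e.symm_apply_apply _)

end Pool.Agent.CITNF
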