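import Pool.Agent.CITNF.Places

set_option autoImplicit false

/-! P4. Lifting the exponent at a finite place. Proof: (1-w)^m - 1 = sum_{i>=1} C(m,i) (-w)^i.
i * C(m,i) = m * C(m-1,i-1), so v(C(m,i) w^i) <= v(m) v(w) * (v(w)^(i-1) / v(i)), and for i >= 2
v(w)^(i-1) < 2^(-n(i-1)) <= i^(-n) <= v(i) by `neg_log_natCast_le` (i <= 2^(i-1)). So the i = 1 term
dominates strictly (ultrametric inequality). -/

namespace Pool.Agent.CITNF

open NumberField Height Real Module

variable {K : Type} [Field K] [NumberField K]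

private theorem lte_sum_lt (v : FinitePlace K) {ι : Type*} (s : Finset ι) (f : ι → K) {c : ℝ}
    (hc : 0 < c) (h : ∀ i ∈ s, v (f i) < c) : v (∑ i ∈ s, f i) < c := by
  classical
  induction s using Finset.induction_on with
  | empty => simpa using hc
  | insert j s hj ih =>
    rw [Finset.sum_insert hj]
    exact lt_of_le_of_lt (FinitePlace.add_le v _ _)
      (max_lt (h j (Finset.mem_insert_self _ _)) (ih fun i hi => h i (Finset.mem_insert_of_mem hi)))

private theorem lte_add_eq (v : FinitePlace K) (a b : K) (h : v b < v a) : v (a + b) = v a := by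
  have h1 := FinitePlace.add_le v a b
  rw [max_eq_left h.le] at h1
  have h2 := FinitePlace.add_le v (a + b) (-b)
  rw [add_neg_cancel_right, map_neg_eq_map] at h2
  rcases le_max_iff.1 h2 with h3 | h3
  · exact le_antisymm h1 h3
  · linarith

private theorem lte_natCast_ge (v : FinitePlace K) (p : ℕ) (hp : p ≠ 0) :
    1 ≤ v (p : K) * (p : ℝ) ^ (finrank ℚ K) := by
  have hp' : (p : K) ≠ 0 := Nat.cast_ne_zero.2 hp
  have hv : 0 < v (p : K) := FinitePlace.pos_iff.2 hp'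
  have hpp : (0 : ℝ) < p := by exact_mod_cast Nat.pos_of_ne_zero hp
  have h1 := neg_log_natCast_le v p hp
  have h2 : 0 ≤ log (v (p : K) * (p : ℝ) ^ (finrank ℚ K)) := by
    rw [Real.log_mul hv.ne' (pow_pos hpp _).ne', Real.log_pow]
    linarith
  have h3 : 0 < v (p : K) * (p : ℝ) ^ (finrank ℚ K) := mul_pos hv (pow_pos hpp _)
  exact (Real.log_nonneg_iff h3).1 h2

theorem lte (v : FinitePlace K) (w : K) (hw : 2 ^ (finrank ℚ K) * v w < 1) (m : ℕ) :
    v ((1 - w) ^ m - 1) = v (m : K) * v w := by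
  rcases Nat.eq_zero_or_pos m with rfl | hm
  · simp
  obtain ⟨k, rfl⟩ : ∃ k, m = k + 1 := ⟨m - 1, by omega⟩
  rcases eq_or_ne w 0 with rfl | hw0
  · simp
  set V : ℝ := v w with hV
  have hVpos : 0 < V := FinitePlace.pos_iff.2 hw0
  have hk0 : ((k + 1 : ℕ) : K) ≠ 0 := Nat.cast_ne_zero.2 (by omega)
  have hkpos : 0 < v ((k + 1 : ℕ) : K) := FinitePlace.pos_iff.2 hk0
  let f : ℕ → K := fun i => (-w) ^ i * 1 ^ (k + 1 - i) * ((k + 1).choose i : K)
  have hexp : (1 - w) ^ (k + 1) - 1 = -(w * ((k + 1 : ℕ) : K)) +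
      ∑ i ∈ Finset.range k, f (i + 2) := by
    have h1 : (1 - w) ^ (k + 1) = ∑ i ∈ Finset.range (k + 1 + 1), f i := by
      rw [sub_eq_neg_add, add_pow]
    rw [h1, Finset.sum_range_succ', Finset.sum_range_succ']
    have h2 : f 0 = 1 := by simp [f]
    have h3 : f (0 + 1) = -(w * ((k + 1 : ℕ) : K)) := by simp [f]
    rw [h2, h3]
    ring
  have hfirst : v (-(w * ((k + 1 : ℕ) : K))) = v ((k + 1 : ℕ) : K) * V := by
    rw [map_neg_eq_map, map_mul, mul_comm]
  have hrest : v (∑ i ∈ Finset.range k, f (i + 2)) < v ((k + 1 : ℕ) : K) * V := by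
    refine lte_sum_lt v _ _ (mul_pos hkpos hVpos) fun i _ => ?_
    -- the binomial coefficient
    have hch : v ((k + 1).choose (i + 2) : K) * v ((i + 2 : ℕ) : K) ≤ v ((k + 1 : ℕ) : K) := by
      have h1 : (k + 1) * k.choose (i + 1) = (k + 1).choose (i + 2) * (i + 2) :=
        Nat.add_one_mul_choose_eq k (i + 1)
      have h2 : v (((k + 1).choose (i + 2) * (i + 2) : ℕ) : K) =
          v (((k + 1) * k.choose (i + 1) : ℕ) : K) := by rw [h1]
      rw [Nat.cast_mul, map_mul, Nat.cast_mul, map_mul] at h2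
      rw [h2]
      exact mul_le_of_le_one_right hkpos.le (natCast_le_one v _)
    have hi0 := lte_natCast_ge v (i + 2) (by omega)
    have hfv : v (f (i + 2)) = V ^ (i + 2) * v ((k + 1).choose (i + 2) : K) := by
      simp only [f]
      rw [map_mul, map_mul, map_pow, map_neg_eq_map, one_pow, map_one, mul_one]
    rw [hfv]
    set c : ℝ := v ((k + 1).choose (i + 2) : K) with hc
    set a : ℝ := v ((i + 2 : ℕ) : K) with ha
    have hc0 : 0 ≤ c := apply_nonneg v _
    have hi2 : (((i + 2 : ℕ) : ℝ)) ^ (finrank ℚ K) ≤ (2 ^ (finrank ℚ K)) ^ (i + 1) := by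
      rw [← pow_mul, mul_comm, pow_mul]
      refine pow_le_pow_left₀ (Nat.cast_nonneg _) ?_ _
      have h1 : i + 1 < 2 ^ (i + 1) := Nat.lt_two_pow_self
      exact_mod_cast (show i + 2 ≤ 2 ^ (i + 1) by omega)
    have hlt : V ^ (i + 1) * (((i + 2 : ℕ) : ℝ)) ^ (finrank ℚ K) < 1 := by
      calc V ^ (i + 1) * (((i + 2 : ℕ) : ℝ)) ^ (finrank ℚ K)
          ≤ V ^ (i + 1) * (2 ^ (finrank ℚ K)) ^ (i + 1) :=
            mul_le_mul_of_nonneg_left hi2 (pow_nonneg hVpos.le _)
        _ = (2 ^ (finrank ℚ K) * V) ^ (i + 1) := by rw [← mul_pow, mul_comm]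
        _ < 1 := pow_lt_one₀ (by positivity) hw (by omega)
    have hcb : c ≤ v ((k + 1 : ℕ) : K) * (((i + 2 : ℕ) : ℝ)) ^ (finrank ℚ K) := by
      have hN : (0 : ℝ) ≤ (((i + 2 : ℕ) : ℝ)) ^ (finrank ℚ K) := by positivity
      calc c = c * 1 := (mul_one c).symm
        _ ≤ c * (a * (((i + 2 : ℕ) : ℝ)) ^ (finrank ℚ K)) :=
            mul_le_mul_of_nonneg_left hi0 hc0
        _ = (c * a) * (((i + 2 : ℕ) : ℝ)) ^ (finrank ℚ K) := by ring
        _ ≤ _ := mul_le_mul_of_nonneg_right hch hN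
    calc V ^ (i + 2) * c
        ≤ V ^ (i + 2) * (v ((k + 1 : ℕ) : K) * (((i + 2 : ℕ) : ℝ)) ^ (finrank ℚ K)) :=
          mul_le_mul_of_nonneg_left hcb (pow_nonneg hVpos.le _)
      _ = (v ((k + 1 : ℕ) : K) * V) * (V ^ (i + 1) * (((i + 2 : ℕ) : ℝ)) ^ (finrank ℚ K)) := by
          ring
      _ < (v ((k + 1 : ℕ) : K) * V) * 1 :=
          mul_lt_mul_of_pos_left hlt (mul_pos hkpos hVpos)
      _ = v ((k + 1 : ℕ) : K) * V := mul_one _
  rw [hexp, lte_add_eq v _ _ (by rw [hfirst]; exact hrest), hfirst]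

private theorem lte_lt_one (v : FinitePlace K) (x : K) (hx : 2 ^ (finrank ℚ K) * v x < 1) :
    v x < 1 := by
  have h1 : (1 : ℝ) ≤ 2 ^ (finrank ℚ K) := one_le_pow₀ (by norm_num)
  have h2 : 0 ≤ v x := apply_nonneg v x
  nlinarith

/-- version for the relation `(1 - y)^N = (1 - x)^D`, `D` any integer -/
theorem lte_rel (v : FinitePlace K) (x y : K) (hx : 2 ^ (finrank ℚ K) * v x < 1)
    (hy : 2 ^ (finrank ℚ K) * v y < 1) (N : ℕ) (D : ℤ) (h : (1 - y) ^ N = (1 - x) ^ D) :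
    v (N : K) * v y = v (D.natAbs : K) * v x := by
  rw [← lte v y hy N, h, ← lte v x hx D.natAbs]
  have h1 : v (1 - x) = 1 := one_sub_eq_one v x (lte_lt_one v x hx)
  have hne : (1 - x) ≠ 0 := by
    intro h0
    rw [h0, map_zero] at h1
    exact zero_ne_one h1
  rcases Int.natAbs_eq D with h2 | h2
  · conv_lhs => rw [h2, zpow_natCast]
  · conv_lhs => rw [h2, zpow_neg, zpow_natCast]
    set d := D.natAbs
    have h3 : ((1 - x) ^ d)⁻¹ - 1 = -(((1 - x) ^ d)⁻¹ * ((1 - x) ^ d - 1)) := by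
      have := pow_ne_zero d hne
      field_simp
      ring
    rw [h3, map_neg_eq_map, map_mul, map_inv₀, map_pow, h1, one_pow, inv_one, one_mul]

end Pool.Agent.CITNF
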