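import Pool.Agent.CITNF.Basic
import Pool.Agent.CITNF.LTE

set_option autoImplicit false

/-! P13. For x in a finite set the exponent t = A/N is bounded. n = [K:Q], |D|/N = p'/q' reduced, c0 = minimal positive
height, h(1-x) = q' h(u) >= c0 q' (`exists_root_height`); p' = (|D|/N) q' <= C1 (t+1) q'/h(1-x) <= (C1/c0)(t+1).
Take v with v x < 1; v(1-x) = 1, so v(y)^N = v(x)^A and t (-log v x) = -log v y, -log v x >= log 2.
If y is bad (2^n v y >= 1): t log 2 <= n log 2. If y is good: finitely many pairs (x, v) (Northcott and `hf_support`);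
for each choose m0 > 0 with w = 1 - (1-x)^m0 good at v (exists: if l is the residue characteristic then
v((1-x)^(l^j) - 1) -> 0 since v(u^l - 1) <= max(v l, v(u-1)^(l-1)) * v(u-1); or use that 1-x is a unit modulo powers of
the maximal ideal, a finite ring), w <> 0 as 1-x is not torsion. Then (1-y)^(N m0) = (1-x)^(D m0) and `lte`/`lte_rel` for
(1-y, w): v(N m0) v(y) = v(|D|) v(w), so -log v y <= -log v(p') - log v(w) <= n log p' + C. Hence
t log 2 <= n log((C1/c0)(t+1)) + C: t bounded. -/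

namespace Pool.Agent.CITNF

open NumberField Height Real Module

variable {K : Type} [Field K] [NumberField K]

private theorem bdd_geo (v : FinitePlace K) (u : K) (hu : v u ≤ 1) (i : ℕ) :
    v (u ^ i - 1) ≤ v (u - 1) := by
  induction i with
  | zero => simp
  | succ i ih =>
    have e : u ^ (i + 1) - 1 = u * (u ^ i - 1) + (u - 1) := by ring
    rw [e]
    refine (FinitePlace.add_le v _ _).trans (max_le ?_ le_rfl)
    rw [map_mul]
    calc v u * v (u ^ i - 1) ≤ 1 * v (u - 1) := mul_le_mul hu ih (apply_nonneg v _) zero_le_one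
      _ = _ := one_mul _

private theorem bdd_sum (v : FinitePlace K) (u : K) (hu : v u ≤ 1) (L : ℕ) :
    v (∑ i ∈ Finset.range L, u ^ i - (L : K)) ≤ v (u - 1) := by
  induction L with
  | zero => simp
  | succ L ih =>
    rw [Finset.sum_range_succ]
    have e : ∑ i ∈ Finset.range L, u ^ i + u ^ L - ((L + 1 : ℕ) : K) =
        (∑ i ∈ Finset.range L, u ^ i - (L : K)) + (u ^ L - 1) := by push_cast; ring
    rw [e]
    exact (FinitePlace.add_le v _ _).trans (max_le ih (bdd_geo v u hu L))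

private theorem bdd_step (v : FinitePlace K) (u : K) (hu : v u ≤ 1) (L : ℕ) :
    v (u ^ L - 1) ≤ max (v (L : K)) (v (u - 1)) * v (u - 1) := by
  rw [← geom_sum_mul, map_mul]
  refine mul_le_mul_of_nonneg_right ?_ (apply_nonneg v _)
  have e : ∑ i ∈ Finset.range L, u ^ i = (L : K) + (∑ i ∈ Finset.range L, u ^ i - (L : K)) := by ring
  rw [e]
  exact (FinitePlace.add_le v _ _).trans (max_le_max le_rfl (bdd_sum v u hu L))

private theorem bdd_natCast (v : FinitePlace K) : ∃ L : ℕ, 0 < L ∧ v (L : K) < 1 := by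
  refine ⟨Ideal.absNorm v.maximalIdeal.asIdeal, ?_, ?_⟩
  · have h1 := log_two_le_lN v
    have h2 : (0 : ℝ) < log 2 := log_pos (by norm_num)
    rcases Nat.eq_zero_or_pos (Ideal.absNorm v.maximalIdeal.asIdeal) with h | h
    · exfalso
      unfold lN at h1
      rw [h] at h1
      simp only [Nat.cast_zero, Real.log_zero] at h1
      linarith
    · exact h
  · have h := Ideal.absNorm_mem v.maximalIdeal.asIdeal
    have h2 := (FinitePlace.norm_lt_one_iff_mem K v.maximalIdeal _).2 h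
    rw [FinitePlace.norm_embedding_eq] at h2
    simpa using h2

private theorem bdd_pow (v : FinitePlace K) (u : K) (hu : v u ≤ 1) (hu1 : v (u - 1) < 1)
    (ε : ℝ) (hε : 0 < ε) : ∃ m : ℕ, 0 < m ∧ v (u ^ m - 1) < ε := by
  obtain ⟨L, hL0, hL⟩ := bdd_natCast v
  set ρ := max (v (L : K)) (v (u - 1)) with hρ
  have hρ1 : ρ < 1 := max_lt hL hu1
  have hρ0 : 0 ≤ ρ := le_trans (apply_nonneg v _) (le_max_left _ _)
  have key : ∀ j : ℕ, v (u ^ (L ^ j) - 1) ≤ ρ ^ (j + 1) := by
    intro j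
    induction j with
    | zero =>
      rw [pow_zero, pow_one, zero_add, pow_one, hρ]
      exact le_max_right _ _
    | succ j ih =>
      have hu' : v (u ^ (L ^ j)) ≤ 1 := by
        rw [map_pow]; exact pow_le_one₀ (apply_nonneg v _) hu
      have h1 := bdd_step v (u ^ (L ^ j)) hu' L
      rw [← pow_mul, ← pow_succ] at h1
      have h2 : v (u ^ (L ^ j) - 1) ≤ ρ := (bdd_geo v u hu _).trans (le_max_right _ _)
      calc v (u ^ (L ^ (j + 1)) - 1) ≤ max (v (L : K)) (v (u ^ L ^ j - 1)) * v (u ^ L ^ j - 1) := h1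
        _ ≤ ρ * ρ ^ (j + 1) := mul_le_mul (max_le (le_max_left _ _) h2) ih (apply_nonneg v _) hρ0
        _ = ρ ^ (j + 1 + 1) := by ring
  obtain ⟨j, hj⟩ := exists_pow_lt_of_lt_one hε hρ1
  refine ⟨L ^ j, pow_pos hL0 j, lt_of_le_of_lt (key j) (lt_of_le_of_lt ?_ hj)⟩
  exact pow_le_pow_of_le_one hρ0 hρ1.le (Nat.le_succ j)

private theorem bdd_one (c0 : ℝ) (hc0 : 0 < c0)
    (hmin : ∀ w : K, logHeight₁ w ≠ 0 → c0 ≤ logHeight₁ w) (C₁ : ℝ) (x : K) (hx0 : x ≠ 0)
    (hx1 : x ≠ 1) (hv : ∃ v : FinitePlace K, v x < 1) (hnt : ∀ m : ℕ, 0 < m → (1 - x) ^ m ≠ 1) :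
    ∃ C : ℝ, ∀ (y : K) (N A : ℕ) (B D : ℤ), y ≠ 0 → 0 < N → 0 < A → D ≠ 0 →
      y ^ N = x ^ A * (1 - x) ^ B → (1 - y) ^ N = (1 - x) ^ D → y ≠ 1 →
      D.natAbs * logHeight₁ (1 - x) ≤ C₁ * (A + N) → (A : ℝ) ≤ C * N := by
  obtain ⟨v, hv⟩ := hv
  have hl2 : (0 : ℝ) < log 2 := log_pos (by norm_num)
  have hn : 0 < finrank ℚ K := finrank_pos
  have hnr : (0 : ℝ) < (finrank ℚ K : ℝ) := by exact_mod_cast hn
  have hv1 : v (1 - x) = 1 := one_sub_eq_one v x hv
  have hvx0 : 0 < v x := FinitePlace.pos_iff.2 hx0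
  have hz0 : (1 - x) ≠ 0 := sub_ne_zero.2 hx1.symm
  obtain ⟨m0, hm0, hgood'⟩ := bdd_pow v (1 - x) hv1.le (by
    have : (1 - x) - 1 = -x := by ring
    rw [this, map_neg_eq_map]; exact hv) ((2 ^ (finrank ℚ K))⁻¹ : ℝ) (by positivity)
  set w : K := 1 - (1 - x) ^ m0 with hw
  have hw0 : w ≠ 0 := fun h => hnt m0 hm0 (sub_eq_zero.1 h).symm
  have hgood : 2 ^ (finrank ℚ K) * v w < 1 := by
    have : v w = v ((1 - x) ^ m0 - 1) := by
      rw [hw, ← map_neg_eq_map]; congr 1; ring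
    rw [this]
    have := mul_lt_mul_of_pos_left hgood' (show (0 : ℝ) < 2 ^ (finrank ℚ K) by positivity)
    rwa [mul_inv_cancel₀ (by positivity)] at this
  have hvw : 0 < v w := FinitePlace.pos_iff.2 hw0
  set l : ℝ := -log (v x) with hl
  have hlpos : 0 < l := by have := Real.log_neg hvx0 hv; rw [hl]; linarith
  set κ : ℝ := -log (v w) with hκ
  set C1 : ℝ := max C₁ 1 with hC1
  have hC1pos : 0 < C1 := lt_of_lt_of_le one_pos (le_max_right _ _)
  set ε : ℝ := l * c0 / (2 * (finrank ℚ K) * C1) with hε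
  have hεpos : 0 < ε := by positivity
  refine ⟨(finrank ℚ K) * log 2 / l +
    (1 + 2 / l * ((finrank ℚ K) * |log (1 / ε)| + |κ|)), ?_⟩
  intro y N A B D hy0 hN hA hD hy hy1 hyne hDh
  have hNr : (0 : ℝ) < N := by exact_mod_cast hN
  have hAr : (0 : ℝ) < A := by exact_mod_cast hA
  have hvy0 : 0 < v y := FinitePlace.pos_iff.2 hy0
  have hrel : v y ^ N = v x ^ A := by
    rw [← map_pow, hy, map_mul, map_pow, map_zpow₀, hv1, one_zpow, mul_one]
  have hlogpow : (N : ℝ) * log (v y) = A * log (v x) := by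
    rw [← Real.log_pow, ← Real.log_pow, hrel]
  have hAl : (A : ℝ) * l = N * (-log (v y)) := by rw [hl]; linear_combination hlogpow
  have hS1 : 0 ≤ (finrank ℚ K) * log 2 / l := by positivity
  have hS2 : 0 ≤ 1 + 2 / l * ((finrank ℚ K) * |log (1 / ε)| + |κ|) := by positivity
  by_cases hbad : 2 ^ (finrank ℚ K) * v y < 1
  swap
  · -- bad `y`
    have h1 : (1 : ℝ) ≤ 2 ^ (finrank ℚ K) * v y := not_lt.1 hbad
    have h2 := Real.log_le_log one_pos h1
    rw [Real.log_one, Real.log_mul (by positivity) hvy0.ne', Real.log_pow] at h2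
    have h3 : (A : ℝ) * l ≤ N * ((finrank ℚ K) * log 2) := by
      rw [hAl]; apply mul_le_mul_of_nonneg_left _ hNr.le; linarith
    have h4 : (A : ℝ) ≤ (finrank ℚ K) * log 2 / l * N := by
      rw [div_mul_eq_mul_div, le_div_iff₀ hlpos]; linarith
    nlinarith
  · -- good `y`
    have hDn : 0 < D.natAbs := Int.natAbs_pos.2 hD
    have hrel2 := lte_rel v w y hgood hbad (N * m0) D (by
      have e : 1 - w = (1 - x) ^ m0 := by rw [hw]; ring
      rw [e, pow_mul, hy1, ← zpow_natCast, ← zpow_natCast, ← zpow_mul, ← zpow_mul, mul_comm])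
    have hg : 0 < D.natAbs.gcd N := Nat.gcd_pos_of_pos_left _ hDn
    obtain ⟨p, q, hpq, hDp, hNq⟩ := Nat.exists_coprime D.natAbs N
    set g := D.natAbs.gcd N with hgdef
    have hq0 : 0 < q := by
      rcases Nat.eq_zero_or_pos q with h0 | h0
      · rw [h0, zero_mul] at hNq; exact absurd hNq hN.ne'
      · exact h0
    have hp0 : 0 < p := by
      rcases Nat.eq_zero_or_pos p with h0 | h0
      · rw [h0, zero_mul] at hDp; exact absurd hDp hDn.ne'
      · exact h0
    have hpr : (0 : ℝ) < p := by exact_mod_cast hp0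
    have hqr : (0 : ℝ) < q := by exact_mod_cast hq0
    have hvg : 0 < v (g : K) := FinitePlace.pos_iff.2 (by exact_mod_cast hg.ne')
    have hvq : 0 < v (q : K) := FinitePlace.pos_iff.2 (by exact_mod_cast hq0.ne')
    have hvp : 0 < v (p : K) := FinitePlace.pos_iff.2 (by exact_mod_cast hp0.ne')
    have hvm : 0 < v (m0 : K) := FinitePlace.pos_iff.2 (by exact_mod_cast hm0.ne')
    have hrel3 : v (q : K) * v (m0 : K) * v y = v (p : K) * v w := by
      have e1 : ((N * m0 : ℕ) : K) = (q : K) * (g : K) * (m0 : K) := by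
        rw [Nat.cast_mul]
        conv_lhs => rw [hNq]
        rw [Nat.cast_mul]
      have e2 : (D.natAbs : K) = (p : K) * (g : K) := by
        conv_lhs => rw [hDp]
        rw [Nat.cast_mul]
      rw [e1, e2, map_mul, map_mul, map_mul] at hrel2
      apply mul_right_cancel₀ hvg.ne'
      linear_combination hrel2
    have hlog : log (v (q : K)) + log (v (m0 : K)) + log (v y) = log (v (p : K)) + log (v w) := by
      rw [← Real.log_mul hvq.ne' hvm.ne', ← Real.log_mul (mul_pos hvq hvm).ne' hvy0.ne',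
        ← Real.log_mul hvp.ne' hvw.ne', hrel3]
    have hq1 : log (v (q : K)) ≤ 0 := Real.log_nonpos hvq.le (natCast_le_one v q)
    have hm1 : log (v (m0 : K)) ≤ 0 := Real.log_nonpos hvm.le (natCast_le_one v m0)
    have hnp := neg_log_natCast_le v p hp0.ne'
    have hvy : -log (v y) ≤ (finrank ℚ K) * log p + κ := by rw [hκ]; linarith
    -- the height bound
    obtain ⟨u, hu⟩ : ∃ u : K, logHeight₁ (1 - x) = q * logHeight₁ u := by
      have hNq' : q * g = N := hNq.symm
      have hDp' : p * g = D.natAbs := hDp.symm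
      have hwy : (1 - y) ≠ 0 := sub_ne_zero.2 hyne.symm
      rcases le_or_gt 0 D with hDs | hDs
      · refine exists_root_height (1 - x) (1 - y) hz0 hwy p q g hpq hg ?_
        rw [hNq', hDp', hy1, ← zpow_natCast, Int.natAbs_of_nonneg hDs]
      · obtain ⟨u, hu⟩ := exists_root_height (1 - x)⁻¹ (1 - y) (inv_ne_zero hz0) hwy p q g hpq hg (by
          rw [hNq', hDp', hy1, ← zpow_natCast, Int.ofNat_natAbs_of_nonpos hDs.le, inv_zpow,
            zpow_neg, inv_inv])
        exact ⟨u, by rw [← hu, logHeight₁_inv]⟩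
    have hhne : logHeight₁ (1 - x) ≠ 0 := by
      intro h0
      obtain ⟨m, hm, hm'⟩ := torsion_of_height_zero (1 - x) hz0 h0
      exact hnt m hm hm'
    have hune : logHeight₁ u ≠ 0 := by
      intro h0; apply hhne; rw [hu, h0, mul_zero]
    have hh : c0 * q ≤ logHeight₁ (1 - x) := by
      rw [hu, mul_comm]; exact mul_le_mul_of_nonneg_left (hmin u hune) hqr.le
    have hpN : (p : ℝ) * N = D.natAbs * q := by
      have : p * N = D.natAbs * q := by
        conv_lhs => rw [hNq]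
        conv_rhs => rw [hDp]
        ring
      exact_mod_cast this
    have hpc : (p : ℝ) * N * c0 ≤ C1 * (A + N) := by
      have h1 : (p : ℝ) * N * c0 * q ≤ C1 * (A + N) * q := by
        calc (p : ℝ) * N * c0 * q = p * N * (c0 * q) := by ring
          _ ≤ p * N * logHeight₁ (1 - x) := mul_le_mul_of_nonneg_left hh (by positivity)
          _ = (D.natAbs * logHeight₁ (1 - x)) * q := by rw [hpN]; ring
          _ ≤ (C₁ * (A + N)) * q := mul_le_mul_of_nonneg_right hDh hqr.le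
          _ ≤ C1 * (A + N) * q := by
              apply mul_le_mul_of_nonneg_right _ hqr.le
              exact mul_le_mul_of_nonneg_right (le_max_left _ _) (by positivity)
      exact le_of_mul_le_mul_right h1 hqr
    have hlogp : log (p : ℝ) ≤ ε * p + log (1 / ε) := by
      have h1 := Real.log_le_sub_one_of_pos (mul_pos hεpos hpr)
      rw [Real.log_mul hεpos.ne' hpr.ne'] at h1
      rw [one_div, Real.log_inv]; linarith
    have hεp : N * ((finrank ℚ K) * (ε * p)) ≤ l * (A + N) / 2 := by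
      have e : N * ((finrank ℚ K) * (ε * p)) = (l / (2 * C1)) * (p * N * c0) := by
        rw [hε]; field_simp
      rw [e]
      calc (l / (2 * C1)) * (p * N * c0) ≤ (l / (2 * C1)) * (C1 * (A + N)) :=
            mul_le_mul_of_nonneg_left hpc (by positivity)
        _ = l * (A + N) / 2 := by field_simp
    have h5 : (A : ℝ) * l ≤ l * (A + N) / 2 + N * ((finrank ℚ K) * |log (1 / ε)| + |κ|) := by
      rw [hAl]
      calc (N : ℝ) * (-log (v y)) ≤ N * ((finrank ℚ K) * (ε * p + log (1 / ε)) + κ) := by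
            apply mul_le_mul_of_nonneg_left _ hNr.le
            exact hvy.trans (add_le_add (mul_le_mul_of_nonneg_left hlogp hnr.le) le_rfl)
        _ = N * ((finrank ℚ K) * (ε * p)) + N * ((finrank ℚ K) * log (1 / ε) + κ) := by ring
        _ ≤ l * (A + N) / 2 + N * ((finrank ℚ K) * |log (1 / ε)| + |κ|) := by
            refine add_le_add hεp (mul_le_mul_of_nonneg_left ?_ hNr.le)
            exact add_le_add (mul_le_mul_of_nonneg_left (le_abs_self _) hnr.le) (le_abs_self _)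
    have h6 : (A : ℝ) ≤ (1 + 2 / l * ((finrank ℚ K) * |log (1 / ε)| + |κ|)) * N := by
      have h7 : (A : ℝ) * l ≤ (N * l + 2 * (N * ((finrank ℚ K) * |log (1 / ε)| + |κ|))) := by
        linarith
      have h8 : ((1 + 2 / l * ((finrank ℚ K) * |log (1 / ε)| + |κ|)) * N) * l =
          (N * l + 2 * (N * ((finrank ℚ K) * |log (1 / ε)| + |κ|))) := by
        field_simp
      rw [← h8] at h7
      exact le_of_mul_le_mul_right h7 hlpos
    nlinarith

theorem bdd (K : Type) [Field K] [NumberField K] (C₀ C₁ : ℝ) :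
    ∃ C : ℝ, ∀ (x y : K) (N A : ℕ) (B D : ℤ), x ≠ 0 → x ≠ 1 → y ≠ 0 →
    y ≠ 1 → 0 < N → 0 < A → D ≠ 0 → y ^ N = x ^ A * (1 - x) ^ B → (1 - y) ^ N = (1 - x) ^ D →
    (∃ v : FinitePlace K, v x < 1) → (∀ m : ℕ, 0 < m → (1 - x) ^ m ≠ 1) → logHeight₁ x ≤ C₀ →
    D.natAbs * logHeight₁ (1 - x) ≤ C₁ * (A + N) → (A : ℝ) ≤ C * N := by
  classical
  obtain ⟨c0, hc0, hmin⟩ := exists_min_height K
  have hfin : {x : K | logHeight₁ x ≤ C₀}.Finite :=
    NumberField.finite_setOfPred_logHeight₁_le (K := K) (B := C₀)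
  let f : K → ℝ := fun x =>
    if h : x ≠ 0 ∧ x ≠ 1 ∧ (∃ v : FinitePlace K, v x < 1) ∧ (∀ m : ℕ, 0 < m → (1 - x) ^ m ≠ 1) then
      (bdd_one c0 hc0 hmin C₁ x h.1 h.2.1 h.2.2.1 h.2.2.2).choose
    else 0
  obtain ⟨C, hC⟩ := (hfin.image f).bddAbove
  refine ⟨C, ?_⟩
  intro x y N A B D hx0 hx1 hy0 hyne hN hA hD hy hy1 hv hnt hx hDh
  have h : x ≠ 0 ∧ x ≠ 1 ∧ (∃ v : FinitePlace K, v x < 1) ∧ (∀ m : ℕ, 0 < m → (1 - x) ^ m ≠ 1) :=
    ⟨hx0, hx1, hv, hnt⟩
  have hfx : f x = (bdd_one c0 hc0 hmin C₁ x h.1 h.2.1 h.2.2.1 h.2.2.2).choose := dif_pos h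
  have h1 := (bdd_one c0 hc0 hmin C₁ x h.1 h.2.1 h.2.2.1 h.2.2.2).choose_spec y N A B D hy0 hN hA hD
    hy hy1 hyne hDh
  rw [← hfx] at h1
  refine h1.trans (mul_le_mul_of_nonneg_right (hC ⟨x, hx, rfl⟩) (Nat.cast_nonneg N))

end Pool.Agent.CITNF
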