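import Pool.Agent.CITNF.Rel

set_option autoImplicit false

/-! From two independent relations to the commensurability relation. -/

namespace Pool.Agent.CITNF

variable {K : Type} [Field K]

/-- Commensurability of the groups generated by `x, 1 - x` and by `y, 1 - y`. -/
structure Comm (x y : K) (N : ℕ) (A B C D : ℤ) : Prop where
  N0 : 0 < N
  hy : y ^ N = x ^ A * (1 - x) ^ B
  hy1 : (1 - y) ^ N = x ^ C * (1 - x) ^ D

theorem det_zero {a b : Fin 4 → ℤ} (h : a 2 * b 3 - a 3 * b 2 = 0) :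
    ∃ s t : ℤ, (s ≠ 0 ∨ t ≠ 0) ∧ s * a 2 + t * b 2 = 0 ∧ s * a 3 + t * b 3 = 0 := by
  by_cases h1 : a 2 = 0 ∧ b 2 = 0
  · by_cases h2 : a 3 = 0 ∧ b 3 = 0
    · exact ⟨1, 0, Or.inl one_ne_zero, by rw [h1.1]; ring, by rw [h2.1]; ring⟩
    · refine ⟨b 3, -a 3, ?_, by rw [h1.1, h1.2]; ring, by ring⟩
      by_contra hc
      push Not at hc
      exact h2 ⟨by linarith [hc.2], hc.1⟩
  · refine ⟨b 2, -a 2, ?_, by ring, by linarith⟩
    by_contra hc
    push Not at hc
    exact h1 ⟨by linarith [hc.2], hc.1⟩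

theorem exists_comm {x y : K} (hx : x ≠ 0) (hx1 : x ≠ 1) (hy : y ≠ 0) (hy1 : y ≠ 1)
    (h : Rel2 x y) (hmx : MI x) : ∃ (N : ℕ) (A B C D : ℤ), Comm x y N A B C D := by
  obtain ⟨a, b, hind, ha, hb⟩ := h
  have h1 : (1 - x) ≠ 0 := sub_ne_zero.mpr hx1.symm
  have h2 : (1 - y) ≠ 0 := sub_ne_zero.mpr hy1.symm
  by_cases hdet : a 2 * b 3 - a 3 * b 2 = 0
  · exfalso
    obtain ⟨s, t, hst, e1, e2⟩ := det_zero hdet
    have h3 := R_comb hx hx1 hy hy1 a b s t
    rw [ha, hb, one_zpow, one_zpow, mul_one] at h3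
    simp only [R, Pi.add_apply, Pi.smul_apply, smul_eq_mul] at h3
    rw [e1, e2, zpow_zero, zpow_zero, mul_one, mul_one] at h3
    obtain ⟨h4, h5⟩ := hmx _ _ h3
    have h6 : s • a + t • b = 0 := by
      funext i
      fin_cases i
      · simpa using h4
      · simpa using h5
      · simpa using e1
      · simpa using e2
    obtain ⟨h7, h8⟩ := hind s t h6
    rcases hst with h | h
    · exact h h7
    · exact h h8
  · set d := a 2 * b 3 - a 3 * b 2 with hd
    -- relations for `y` and `1 - y`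
    have r1 := R_comb hx hx1 hy hy1 a b (b 3) (-a 3)
    have r2 := R_comb hx hx1 hy hy1 a b (-b 2) (a 2)
    rw [ha, hb, one_zpow, one_zpow, mul_one] at r1 r2
    simp only [R, Pi.add_apply, Pi.smul_apply, smul_eq_mul] at r1 r2
    have e1 : b 3 * a 2 + -a 3 * b 2 = d := by rw [hd]; ring
    have e2 : b 3 * a 3 + -a 3 * b 3 = 0 := by ring
    have e3 : -b 2 * a 2 + a 2 * b 2 = 0 := by ring
    have e4 : -b 2 * a 3 + a 2 * b 3 = d := by rw [hd]; ring
    rw [e1, e2, zpow_zero, mul_one] at r1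
    rw [e3, e4, zpow_zero, one_mul] at r2
    set p := b 3 * a 0 + -a 3 * b 0
    set q := b 3 * a 1 + -a 3 * b 1
    set p' := -b 2 * a 0 + a 2 * b 0
    set q' := -b 2 * a 1 + a 2 * b 1
    have inv1 : ∀ u w : ℤ, ∀ z : K, z ≠ 0 → x ^ u * (1 - x) ^ w * z = 1 →
        z = x ^ (-u) * (1 - x) ^ (-w) := by
      intro u w z _ hh
      rw [zpow_neg, zpow_neg, ← mul_inv]
      exact eq_inv_of_mul_eq_one_right hh
    have inv2 : ∀ u w : ℤ, ∀ z : K, z ≠ 0 → x ^ u * (1 - x) ^ w * z = 1 →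
        z⁻¹ = x ^ u * (1 - x) ^ w := by
      intro u w z _ hh
      exact inv_eq_of_mul_eq_one_left hh
    rcases lt_or_gt_of_ne hdet with hneg | hpos
    · refine ⟨(-d).toNat, p, q, p', q', ⟨by omega, ?_, ?_⟩⟩
      · rw [← inv2 p q _ (zpow_ne_zero _ hy) r1, ← zpow_neg, ← zpow_natCast,
          Int.toNat_of_nonneg (by omega)]
      · rw [← inv2 p' q' _ (zpow_ne_zero _ h2) r2, ← zpow_neg, ← zpow_natCast,
          Int.toNat_of_nonneg (by omega)]
    · refine ⟨d.toNat, -p, -q, -p', -q', ⟨by omega, ?_, ?_⟩⟩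
      · rw [← inv1 p q _ (zpow_ne_zero _ hy) r1, ← zpow_natCast, Int.toNat_of_nonneg hpos.le]
      · rw [← inv1 p' q' _ (zpow_ne_zero _ h2) r2, ← zpow_natCast, Int.toNat_of_nonneg hpos.le]

/-- The exponent matrix of a commensurability relation is invertible. -/
theorem Comm.det_ne {x y : K} (hx : x ≠ 0) (hx1 : x ≠ 1) {N : ℕ} {A B C D : ℤ}
    (h : Comm x y N A B C D) (hmy : MI y) : A * D - B * C ≠ 0 := by
  have h1 : (1 - x) ≠ 0 := sub_ne_zero.mpr hx1.symm
  intro hdet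
  have key : ∀ s t : ℤ, y ^ ((N : ℤ) * s) * (1 - y) ^ ((N : ℤ) * t) =
      x ^ (A * s + C * t) * (1 - x) ^ (B * s + D * t) := by
    intro s t
    rw [zpow_mul, zpow_mul, zpow_natCast, zpow_natCast, h.hy, h.hy1, mul_zpow, mul_zpow,
      zpow_add₀ hx, zpow_add₀ h1, zpow_mul, zpow_mul, zpow_mul, zpow_mul]
    ring
  have hN : (N : ℤ) ≠ 0 := by
    have := h.N0
    omega
  have k1 := key D (-B)
  rw [show A * D + C * -B = 0 by linarith, show B * D + D * -B = 0 by ring, zpow_zero, zpow_zero,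
    mul_one] at k1
  obtain ⟨e1, e2⟩ := hmy _ _ k1
  have k2 := key (-C) A
  rw [show A * -C + C * A = 0 by ring, show B * -C + D * A = 0 by linarith, zpow_zero, zpow_zero,
    mul_one] at k2
  obtain ⟨e3, e4⟩ := hmy _ _ k2
  have hA : A = 0 := (mul_eq_zero.mp e4).resolve_left hN
  have hB : B = 0 := neg_eq_zero.mp ((mul_eq_zero.mp e2).resolve_left hN)
  have k3 := key 1 0
  rw [hA, hB] at k3
  simp only [mul_zero, add_zero, zpow_zero, mul_one] at k3
  have := (hmy (N : ℤ) 0 (by simpa using k3)).1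
  exact hN this

end Pool.Agent.CITNF
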