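import Mathlib

set_option autoImplicit false

/-! Definitions for MP_b7926e_nt: rational points of powers of the line `x + y = 1` over a number
field, in torsion cosets of dimension at most two. -/

namespace Pool.Agent.CITNF

open NumberField Height Real

variable {K : Type} [Field K] [NumberField K]

/-- Finite part of the (relative) logarithmic height. -/
noncomputable def hf (x : K) : ℝ := ∑ᶠ v : FinitePlace K, log⁺ (v x)

/-- Infinite part of the (relative) logarithmic height. -/
noncomputable def hi (x : K) : ℝ := ∑ v : InfinitePlace K, v.mult * log⁺ (v x)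

theorem lh_eq (x : K) : logHeight₁ x = hi x + hf x := NumberField.logHeight₁_eq x

/-- `log` of the norm of the maximal ideal of a finite place. -/
noncomputable def lN (v : FinitePlace K) : ℝ := log (Ideal.absNorm v.maximalIdeal.asIdeal)

/-- Multiplicative independence of `x` and `1 - x`. -/
def MI (x : K) : Prop := ∀ a b : ℤ, x ^ a * (1 - x) ^ b = 1 → a = 0 ∧ b = 0

/-- Normalised pair, at least two types of finite places. -/
structure NP2 (x y : K) (N A D : ℕ) : Prop where
  x0 : x ≠ 0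
  x1 : x ≠ 1
  y0 : y ≠ 0
  y1 : y ≠ 1
  N0 : 0 < N
  A0 : 0 < A
  D0 : 0 < D
  hy : y ^ N = x ^ A
  hy1 : (1 - y) ^ N = (1 - x) ^ D
  t1 : ∃ v : FinitePlace K, v x < 1
  t2 : ∃ v : FinitePlace K, v (1 - x) < 1

/-- Normalised pair, one type of finite places: `x` integral, `1 - x` a unit. -/
structure NP1 (x y : K) (N A : ℕ) (B D : ℤ) : Prop where
  x0 : x ≠ 0
  x1 : x ≠ 1
  y0 : y ≠ 0
  y1 : y ≠ 1
  N0 : 0 < N
  A0 : 0 < A
  D0 : D ≠ 0
  hy : y ^ N = x ^ A * (1 - x) ^ B
  hy1 : (1 - y) ^ N = (1 - x) ^ D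
  f1 : ∀ v : FinitePlace K, v (1 - x) = 1
  fx : ∀ v : FinitePlace K, v x ≤ 1
  t1 : ∃ v : FinitePlace K, v x < 1
  nt : ∀ m : ℕ, 0 < m → (1 - x) ^ m ≠ 1

end Pool.Agent.CITNF
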