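import Pool.Agent.CITNF.Sym

set_option autoImplicit false

/-! A finite list of exponent vectors for all pairs. -/

namespace Pool.Agent.CITNF

open NumberField Height Real Module

theorem exponents (K : Type) [Field K] [NumberField K] :
    ∃ S : Finset (Fin 4 → ℤ), 0 ∉ S ∧ ∀ x y : K, x ≠ 0 → x ≠ 1 → y ≠ 0 → y ≠ 1 → Rel2 x y →
      ∃ a ∈ S, R x y a = 1 := by
  classical
  obtain ⟨C1, hC1⟩ := good K
  obtain ⟨C2, hC2⟩ := rank_one K
  have hfin : {x : K | logHeight₁ x ≤ max C1 C2}.Finite :=
    NumberField.finite_setOfPred_logHeight₁_le K _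
  set F : Finset K := hfin.toFinset with hF
  have memF : ∀ x : K, logHeight₁ x ≤ max C1 C2 → x ∈ F := fun x hx => by
    rw [hF, Set.Finite.mem_toFinset]
    exact hx
  -- choice of relations
  have h1 : ∀ x : K, ∃ p : ℤ × ℤ, ¬ MI x → (p.1 ≠ 0 ∨ p.2 ≠ 0) ∧ x ^ p.1 * (1 - x) ^ p.2 = 1 := by
    intro x
    by_cases hx : MI x
    · exact ⟨(0, 0), fun h => absurd hx h⟩
    · have hx' := hx
      unfold MI at hx'
      push Not at hx'
      obtain ⟨a, b, hab, hne⟩ := hx'
      refine ⟨(a, b), fun _ => ⟨?_, hab⟩⟩
      by_cases ha : a = 0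
      · exact Or.inr (hne ha)
      · exact Or.inl ha
  choose p hp using h1
  have h2 : ∀ q : K × K, ∃ a : Fin 4 → ℤ, Rel2 q.1 q.2 → a ≠ 0 ∧ R q.1 q.2 a = 1 := by
    intro q
    by_cases hq : Rel2 q.1 q.2
    · obtain ⟨a, b, hind, ha, hb⟩ := id hq
      refine ⟨a, fun _ => ⟨?_, ha⟩⟩
      rintro rfl
      have := (hind 1 0 (by simp)).1
      exact one_ne_zero this
    · exact ⟨0, fun h => absurd h hq⟩
  choose r hr using h2
  set six : Finset (Fin 4 → ℤ) := {![1, 0, -1, 0], ![1, 0, 0, -1], ![1, 0, 1, 0], ![0, 1, 1, 0],
    ![2, -2, -2, 0], ![2, -2, 2, 0]} with hsix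
  refine ⟨((six ∪ F.image (fun x => ![(p x).1, (p x).2, 0, 0]) ∪
    F.image (fun x => ![0, 0, (p x).1, (p x).2]) ∪ (F ×ˢ F).image r).filter (· ≠ 0)), ?_, ?_⟩
  · simp
  · intro x y hx hx1 hy hy1 hrel
    have h1x : (1 - x) ≠ 0 := sub_ne_zero.mpr hx1.symm
    have hx1' : (x - 1) ≠ 0 := sub_ne_zero.mpr hx1
    have h1y : (1 - y) ≠ 0 := sub_ne_zero.mpr hy1.symm
    simp only [Finset.mem_filter, Finset.mem_union, Finset.mem_image, Finset.mem_product]
    by_cases mx : MI x
    · by_cases my : MI y
      · by_cases he : Eqv x y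
        · -- equivalent points
          have key : ∀ a ∈ six, a ≠ 0 := by
            intro a ha h0
            rw [hsix] at ha
            simp only [Finset.mem_insert, Finset.mem_singleton] at ha
            rcases ha with h | h | h | h | h | h <;> rw [h0] at h
            · exact absurd (congrFun h 0) (by simp)
            · exact absurd (congrFun h 0) (by simp)
            · exact absurd (congrFun h 0) (by simp)
            · exact absurd (congrFun h 1) (by simp)
            · exact absurd (congrFun h 0) (by simp)
            · exact absurd (congrFun h 0) (by simp)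
          have hex : ∃ a ∈ six, R x y a = 1 := by
            rw [hsix]
            rcases he with h | h | h | h | h | h
            · refine ⟨![1, 0, -1, 0], by simp, ?_⟩
              subst h
              simp [R, hx]
            · refine ⟨![1, 0, 0, -1], by simp, ?_⟩
              subst h
              simp [R, hx]
            · refine ⟨![1, 0, 1, 0], by simp, ?_⟩
              subst h
              simp [R, hx]
            · refine ⟨![0, 1, 1, 0], by simp, ?_⟩
              subst h
              simp [R, h1x]
            · refine ⟨![2, -2, -2, 0], by simp, ?_⟩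
              subst h
              simp only [R, Matrix.cons_val_zero, Matrix.cons_val_one, Matrix.cons_val, zpow_zero,
                mul_one, zpow_neg]
              have e2 : ∀ z : K, z ^ (2 : ℤ) = z ^ 2 := fun z => by norm_cast
              rw [e2, e2, e2]
              have : (1 - x) ^ 2 = (x - 1) ^ 2 := by ring
              rw [this, div_pow]
              field_simp
            · refine ⟨![2, -2, 2, 0], by simp, ?_⟩
              subst h
              simp only [R, Matrix.cons_val_zero, Matrix.cons_val_one, Matrix.cons_val, zpow_zero,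
                mul_one, zpow_neg]
              have e2 : ∀ z : K, z ^ (2 : ℤ) = z ^ 2 := fun z => by norm_cast
              rw [e2, e2, e2]
              have : (1 - x) ^ 2 = (x - 1) ^ 2 := by ring
              rw [this, div_pow]
              field_simp
          obtain ⟨a, ha, hR⟩ := hex
          exact ⟨a, ⟨Or.inl (Or.inl (Or.inl ha)), key a ha⟩, hR⟩
        · -- bounded heights
          obtain ⟨b1, b2⟩ := hC1 x y ⟨hx, hx1, hy, hy1, mx, my, hrel, he⟩
          have m1 := memF x (b1.trans (le_max_left _ _))
          have m2 := memF y (b2.trans (le_max_left _ _))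
          obtain ⟨n0, hR⟩ := hr (x, y) hrel
          exact ⟨r (x, y), ⟨Or.inr ⟨(x, y), ⟨m1, m2⟩, rfl⟩, n0⟩, hR⟩
      · have m2 := memF y ((hC2 y hy hy1 my).trans (le_max_right _ _))
        obtain ⟨n0, hR⟩ := hp y my
        refine ⟨![0, 0, (p y).1, (p y).2], ⟨Or.inl (Or.inr ⟨y, m2, rfl⟩), ?_⟩, ?_⟩
        · intro h0
          rcases n0 with h | h
          · exact h (by simpa using congrFun h0 2)
          · exact h (by simpa using congrFun h0 3)
        · simpa [R] using hR
    · have m1 := memF x ((hC2 x hx hx1 mx).trans (le_max_right _ _))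
      obtain ⟨n0, hR⟩ := hp x mx
      refine ⟨![(p x).1, (p x).2, 0, 0], ⟨Or.inl (Or.inl (Or.inr ⟨x, m1, rfl⟩)), ?_⟩, ?_⟩
      · intro h0
        rcases n0 with h | h
        · exact h (by simpa using congrFun h0 0)
        · exact h (by simpa using congrFun h0 1)
      · simpa [R] using hR

end Pool.Agent.CITNF
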