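import Pool.Agent.CITNF.One
import Pool.Agent.CITNF.LTE

set_option autoImplicit false

/-! P12. t = A/N >= 17/16. Reduce |D|/N = p'/q', c0 = minimal positive height. 1-x is not torsion, so h(1-x) = q' h(u) >= c0 q'
(`exists_root_height`, z = 1-x, w = 1-y or its inverse). At good v (2^n v x < 1; then v y <= v x is good):
`lte_rel`: v(N) v(y) = v(|D|) v(x), so (t-1)(-log v x) <= -log v(p'). Sum over good v:
(t-1) G <= n log p' with G >= hf(1/x) - B0, B0 = #{lN v <= n log 2} n log 2, and hf(1/x) >= h(x)/2 - C (NP1.height_le).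
p' = (|D|/N) q' <= (|D|/N) h(1-x)/c0 = h(1-y)/c0 <= (h(y)+n log 2)/c0 <= (2 hf(1/y) + C)/c0 = (2 t hf(1/x) + C)/c0
<= (2 t h(x) + C)/c0. So (t-1)(h(x)/2 - C) <= n log((2 t h(x) + C)/c0); as t - 1 >= t/17 this bounds h(x)
(divide by t, log t <= t). -/

namespace Pool.Agent.CITNF

open NumberField Height Real Module

/-- the real-variable end of the argument -/
private theorem far1_real (n c0 B0 C2 : ℝ) (hn : 0 ≤ n) (hc0 : 0 < c0) (hB0 : 0 ≤ B0)
    (hC2 : 0 ≤ C2) :
    ∃ C : ℝ, ∀ t H p : ℝ, 17 / 16 ≤ t → 0 ≤ H → 1 ≤ p → p * c0 ≤ 2 * t * H + C2 →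
      (t - 1) * (H - B0) ≤ n * log p → H ≤ C := by
  obtain ⟨lam, hlam⟩ : ∃ lam : ℝ, lam = max 1 (68 * n / c0) := ⟨_, rfl⟩
  have hlam1 : 1 ≤ lam := hlam ▸ le_max_left _ _
  have hlam2 : 68 * n ≤ lam * c0 := by
    have : 68 * n / c0 ≤ lam := hlam ▸ le_max_right _ _
    rwa [div_le_iff₀ hc0] at this
  have hlampos : 0 < lam := by linarith
  have hloglam : 0 ≤ log lam := log_nonneg hlam1
  have hlc : 0 < lam * c0 := mul_pos hlampos hc0
  refine ⟨2 * (B0 + 17 * n * (1 + C2 / (lam * c0) + log lam)), ?_⟩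
  intro t H p ht hH hp hple h
  have hnn : 0 ≤ 17 * n * (1 + C2 / (lam * c0) + log lam) := by
    have : 0 ≤ C2 / (lam * c0) := div_nonneg hC2 hlc.le
    positivity
  rcases le_total H B0 with hHB | hHB
  · linarith
  have htpos : 0 < t := by linarith
  -- z = (2 H + C2) / c0
  obtain ⟨z, hz⟩ : ∃ z : ℝ, z = (2 * H + C2) / c0 := ⟨_, rfl⟩
  have hzc : z * c0 = 2 * H + C2 := by rw [hz]; field_simp
  have hptz : p ≤ t * z := by
    have h1 : p * c0 ≤ t * z * c0 := by
      have : t * z * c0 = t * (2 * H + C2) := by rw [mul_assoc, hzc]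
      rw [this]
      nlinarith
    exact le_of_mul_le_mul_right h1 hc0
  have hzpos : 0 < z := by
    by_contra hneg
    push Not at hneg
    nlinarith
  have hlogp : log p ≤ t + z / lam + log lam := by
    have h1 : log p ≤ log (t * z) := log_le_log (by linarith) hptz
    have h2 : log (t * z) = log t + log z := log_mul htpos.ne' hzpos.ne'
    have h3 : log t ≤ t - 1 := log_le_sub_one_of_pos htpos
    have h4 : log z = log (z / lam) + log lam := by
      rw [log_div hzpos.ne' hlampos.ne']; ring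
    have h5 : log (z / lam) ≤ z / lam - 1 := log_le_sub_one_of_pos (div_pos hzpos hlampos)
    linarith
  have hzl : 0 ≤ z / lam := (div_pos hzpos hlampos).le
  have hmain : t * (H - B0) ≤ 17 * (n * (t * (1 + z / lam + log lam))) := by
    have h1 : t / 17 * (H - B0) ≤ (t - 1) * (H - B0) :=
      mul_le_mul_of_nonneg_right (by linarith) (by linarith)
    have h2 : n * log p ≤ n * (t + z / lam + log lam) := mul_le_mul_of_nonneg_left hlogp hn
    have h3 : t + z / lam + log lam ≤ t * (1 + z / lam + log lam) := by nlinarith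
    have h4 : n * (t + z / lam + log lam) ≤ n * (t * (1 + z / lam + log lam)) :=
      mul_le_mul_of_nonneg_left h3 hn
    linarith
  have hmain2 : H - B0 ≤ 17 * (n * (1 + z / lam + log lam)) := by
    have : t * (H - B0) ≤ t * (17 * (n * (1 + z / lam + log lam))) := by linarith
    exact le_of_mul_le_mul_left this htpos
  have hzl2 : z / lam = 2 * H / (lam * c0) + C2 / (lam * c0) := by
    rw [hz]; field_simp
  have hfin : 17 * n * (2 * H / (lam * c0)) ≤ H / 2 := by
    have : 17 * n * (2 * H / (lam * c0)) = (34 * n * H) / (lam * c0) := by ring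
    rw [this, div_le_iff₀ hlc]
    nlinarith
  rw [hzl2] at hmain2
  linarith

variable {K : Type} [Field K] [NumberField K]

private theorem far1_hf_inv (x : K) (hfx : ∀ v : FinitePlace K, v x ≤ 1) (hx : x ≠ 0)
    (v : FinitePlace K) : log⁺ (v x⁻¹) = -log (v x) := by
  have hvpos : 0 < v x := FinitePlace.pos_iff.2 hx
  rw [map_inv₀, posLog_eq_log, log_inv]
  rw [abs_inv, abs_of_pos hvpos]
  exact (one_le_inv₀ hvpos).2 (hfx v)

/-- the local inequality, summed over all finite places -/
private theorem far1_sum {x y : K} {N A : ℕ} {B D : ℤ} (h : NP1 x y N A B D)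
    (hNA : 17 * N ≤ 16 * A) (p q g : ℕ) (hp : 0 < p) (hq : 0 < q) (hg : 0 < g)
    (hN : N = q * g) (hD : D.natAbs = p * g) :
    ((A : ℝ) / N - 1) * (hf x⁻¹ - ∑ᶠ v : FinitePlace K,
      (if lN v ≤ finrank ℚ K * log 2 then (finrank ℚ K * log 2 : ℝ) else 0)) ≤
      finrank ℚ K * log p := by
  classical
  have hN0 : (0 : ℝ) < N := by exact_mod_cast h.N0
  have hA0 : (0 : ℝ) < A := by exact_mod_cast h.A0
  have hNAr : (17 : ℝ) * N ≤ 16 * A := by exact_mod_cast hNA
  obtain ⟨t, ht⟩ : ∃ t : ℝ, t = (A : ℝ) / N := ⟨_, rfl⟩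
  have htN : t * N = A := by rw [ht]; field_simp
  have ht1 : 1 ≤ t := by
    rw [ht, le_div_iff₀ hN0]; linarith
  rw [← ht]
  have hlog2 : 0 < log 2 := log_pos (by norm_num)
  have hnl : (0 : ℝ) ≤ finrank ℚ K * log 2 := by positivity
  have hp0 : p ≠ 0 := hp.ne'
  -- local inequality
  have hloc : ∀ v : FinitePlace K, (t - 1) * log⁺ (v x⁻¹) ≤
      -log (v (p : K)) + (t - 1) * (if lN v ≤ finrank ℚ K * log 2 then
        (finrank ℚ K * log 2 : ℝ) else 0) := by
    intro v
    rw [far1_hf_inv x h.fx h.x0 v]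
    have hvx : 0 < v x := FinitePlace.pos_iff.2 h.x0
    have hvy : 0 < v y := FinitePlace.pos_iff.2 h.y0
    have hvp : 0 < v (p : K) := FinitePlace.pos_iff.2 (by exact_mod_cast hp0)
    have hvp1 : v (p : K) ≤ 1 := natCast_le_one v p
    have hlp : 0 ≤ -log (v (p : K)) := by
      have := log_nonpos hvp.le hvp1
      linarith
    have hite : (0 : ℝ) ≤ (if lN v ≤ finrank ℚ K * log 2 then
        (finrank ℚ K * log 2 : ℝ) else 0) := by
      split_ifs
      · exact hnl
      · exact le_rfl
    by_cases hgood : 2 ^ (finrank ℚ K) * v x < 1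
    · -- good place
      have hvNA : v y ^ N = v x ^ A := by
        have := congrArg v h.hy
        rw [map_pow, map_mul, map_pow, map_zpow₀, h.f1 v, one_zpow, mul_one] at this
        exact this
      have hlogy : log (v y) = t * log (v x) := by
        have := congrArg log hvNA
        rw [log_pow, log_pow] at this
        have h2 : (N : ℝ) * log (v y) = N * (t * log (v x)) := by
          rw [this, ← htN]; ring
        exact mul_left_cancel₀ hN0.ne' h2
      have hlx : log (v x) ≤ 0 := log_nonpos hvx.le (h.fx v)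
      have hyx : v y ≤ v x := by
        rw [← log_le_log_iff hvy hvx, hlogy]
        nlinarith
      have hgoody : 2 ^ (finrank ℚ K) * v y < 1 :=
        lt_of_le_of_lt (mul_le_mul_of_nonneg_left hyx (by positivity)) hgood
      have hl := lte_rel v x y hgood hgoody N D h.hy1
      have hN' : (N : K) = q * g := by rw [hN]; push_cast; ring
      have hD' : (D.natAbs : K) = p * g := by rw [hD]; push_cast; ring
      rw [hN', hD', map_mul, map_mul] at hl
      have hvg : 0 < v (g : K) := FinitePlace.pos_iff.2 (by exact_mod_cast hg.ne')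
      have hvq : 0 < v (q : K) := FinitePlace.pos_iff.2 (by exact_mod_cast hq.ne')
      have hvq1 : v (q : K) ≤ 1 := natCast_le_one v q
      have hl2 : v (q : K) * v y = v (p : K) * v x := by
        have : v (g : K) * (v (q : K) * v y) = v (g : K) * (v (p : K) * v x) := by
          linarith
        exact mul_left_cancel₀ hvg.ne' this
      have hl3 := congrArg log hl2
      rw [log_mul hvq.ne' hvy.ne', log_mul hvp.ne' hvx.ne', hlogy] at hl3
      have hlq : log (v (q : K)) ≤ 0 := log_nonpos hvq.le hvq1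
      have : 0 ≤ (t - 1) * (if lN v ≤ finrank ℚ K * log 2 then
        (finrank ℚ K * log 2 : ℝ) else 0) := mul_nonneg (by linarith) hite
      nlinarith
    · -- bad place
      push Not at hgood
      have hb : -log (v x) ≤ finrank ℚ K * log 2 := by
        have h1 := log_le_log one_pos hgood
        rw [log_one, log_mul (by positivity) hvx.ne', log_pow] at h1
        linarith
      have hkey : -log (v x) ≤ (if lN v ≤ finrank ℚ K * log 2 then
        (finrank ℚ K * log 2 : ℝ) else 0) := by
        split_ifs with hc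
        · exact hb
        · obtain ⟨k, hk⟩ := exists_ord v x h.x0
          have hlNpos : 0 < lN v := lt_of_lt_of_le hlog2 (log_two_le_lN v)
          have hlx : log (v x) ≤ 0 := log_nonpos hvx.le (h.fx v)
          push Not at hc
          by_contra hcon
          push Not at hcon
          have hkneg : k < 0 := by
            by_contra hk0
            push Not at hk0
            have : (0 : ℝ) ≤ k * lN v := mul_nonneg (by exact_mod_cast hk0) hlNpos.le
            linarith
          have hk1 : (k : ℝ) ≤ -1 := by exact_mod_cast (by omega : k ≤ -1)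
          nlinarith
      have h2 : (t - 1) * -log (v x) ≤ (t - 1) * (if lN v ≤ finrank ℚ K * log 2 then
        (finrank ℚ K * log 2 : ℝ) else 0) := mul_le_mul_of_nonneg_left hkey (by linarith)
      linarith
  -- sum
  have hs1 := hf_support (x⁻¹ : K)
  have hs2 := natCast_support (K := K) p hp0
  have hs3 : (Function.support fun v : FinitePlace K =>
      (if lN v ≤ finrank ℚ K * log 2 then (finrank ℚ K * log 2 : ℝ) else 0)).Finite := by
    refine (finite_lN_le (K := K) (finrank ℚ K * log 2)).subset ?_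
    intro v hv
    simp only [Function.mem_support, ne_eq, ite_eq_right_iff, Classical.not_imp] at hv
    exact hv.1
  let T : Finset (FinitePlace K) := hs1.toFinset ∪ hs2.toFinset ∪ hs3.toFinset
  have e1 : hf x⁻¹ = ∑ v ∈ T, log⁺ (v x⁻¹) := by
    unfold hf
    exact finsum_eq_sum_of_support_subset _ (by
      intro v hv
      simp only [T, Finset.coe_union, Set.Finite.coe_toFinset, Set.mem_union]
      exact Or.inl (Or.inl hv))
  have e2 : (finrank ℚ K : ℝ) * log p = ∑ v ∈ T, -log (v (p : K)) := by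
    rw [← sum_natCast (K := K) p hp0]
    exact finsum_eq_sum_of_support_subset _ (by
      intro v hv
      simp only [T, Finset.coe_union, Set.Finite.coe_toFinset, Set.mem_union]
      exact Or.inl (Or.inr hv))
  have e3 : (∑ᶠ v : FinitePlace K,
      (if lN v ≤ finrank ℚ K * log 2 then (finrank ℚ K * log 2 : ℝ) else 0)) =
      ∑ v ∈ T, (if lN v ≤ finrank ℚ K * log 2 then (finrank ℚ K * log 2 : ℝ) else 0) :=
    finsum_eq_sum_of_support_subset _ (by
      intro v hv
      simp only [T, Finset.coe_union, Set.Finite.coe_toFinset, Set.mem_union]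
      exact Or.inr hv)
  rw [e1, e2, e3]
  have hsum := Finset.sum_le_sum (s := T) fun v _ => hloc v
  rw [Finset.sum_add_distrib, ← Finset.mul_sum, ← Finset.mul_sum] at hsum
  linarith

theorem far1 (K : Type) [Field K] [NumberField K] :
    ∃ C : ℝ, ∀ (x y : K) (N A : ℕ) (B D : ℤ), NP1 x y N A B D → 17 * N ≤ 16 * A →
    logHeight₁ x ≤ C := by
  obtain ⟨C1, hC1⟩ := NP1.height_le K
  obtain ⟨c0, hc0, hmin⟩ := exists_min_height K
  have hlog2 : 0 < log 2 := log_pos (by norm_num)
  have hB0 : 0 ≤ ∑ᶠ v : FinitePlace K,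
      (if lN v ≤ finrank ℚ K * log 2 then (finrank ℚ K * log 2 : ℝ) else 0) := by
    apply finsum_nonneg
    intro v
    split_ifs
    · positivity
    · exact le_rfl
  obtain ⟨C, hC⟩ := far1_real (finrank ℚ K) c0 _ (|C1| + finrank ℚ K * log 2)
    (by positivity) hc0 hB0 (by positivity)
  refine ⟨2 * C + C1, ?_⟩
  intro x y N A B D h hNA
  obtain ⟨hx2, hy2⟩ := hC1 x y N A B D h
  have hN0 : (0 : ℝ) < N := by exact_mod_cast h.N0
  have hD0 : 0 < D.natAbs := Int.natAbs_pos.2 h.D0
  -- gcd
  obtain ⟨g, q, p, hg, hcop, hN, hD⟩ : ∃ g q p : ℕ, 0 < g ∧ Nat.Coprime q p ∧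
      N = q * g ∧ D.natAbs = p * g := by
    obtain ⟨g, q, p, hg, hcop, hN, hD⟩ := Nat.exists_coprime' (m := N) (n := D.natAbs)
      (Nat.gcd_pos_of_pos_left _ h.N0)
    exact ⟨g, q, p, hg, hcop, hN, hD⟩
  have hq : 0 < q := Nat.pos_of_ne_zero (by rintro rfl; simp at hN; exact h.N0.ne' hN)
  have hp : 0 < p := Nat.pos_of_ne_zero (by rintro rfl; simp at hD; exact h.D0 hD)
  have hz : (1 - x : K) ≠ 0 := sub_ne_zero.2 (Ne.symm h.x1)
  have hw : (1 - y : K) ≠ 0 := sub_ne_zero.2 (Ne.symm h.y1)
  obtain ⟨u, hu⟩ : ∃ u : K, logHeight₁ (1 - x) = q * logHeight₁ u := by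
    rcases le_or_gt 0 D with hDs | hDs
    · refine exists_root_height (1 - x) (1 - y) hz hw p q g hcop.symm hg ?_
      rw [← hN, ← hD, h.hy1, ← zpow_natCast, Int.natAbs_of_nonneg hDs]
    · refine exists_root_height (1 - x) (1 - y)⁻¹ hz (inv_ne_zero hw) p q g hcop.symm hg ?_
      rw [← hN, ← hD, inv_pow, h.hy1, ← zpow_natCast (1 - x) D.natAbs, ← zpow_neg]
      congr 1
      omega
  have hhz : logHeight₁ (1 - x) ≠ 0 := by
    intro h0
    obtain ⟨m, hm, hm1⟩ := torsion_of_height_zero (1 - x) hz h0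
    exact h.nt m hm hm1
  have hhu : logHeight₁ u ≠ 0 := by
    intro h0
    rw [h0, mul_zero] at hu
    exact hhz hu
  have hcu : c0 ≤ logHeight₁ u := hmin u hhu
  have hqr : (0 : ℝ) < q := by exact_mod_cast hq
  have hpr : (0 : ℝ) < p := by exact_mod_cast hp
  have hgr : (0 : ℝ) < g := by exact_mod_cast hg
  have hh1y := h.h1y
  have hh1y2 : (q : ℝ) * logHeight₁ (1 - y) = p * logHeight₁ (1 - x) := by
    have e1 : (N : ℝ) = q * g := by exact_mod_cast hN
    have e2 : (D.natAbs : ℝ) = p * g := by exact_mod_cast hD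
    rw [e1, e2] at hh1y
    have : (g : ℝ) * (q * logHeight₁ (1 - y)) = g * (p * logHeight₁ (1 - x)) := by linarith
    exact mul_left_cancel₀ hgr.ne' this
  have hpc : p * c0 ≤ logHeight₁ (1 - y) := by
    have : (q : ℝ) * (p * c0) ≤ q * logHeight₁ (1 - y) := by
      rw [hh1y2, hu]
      have := mul_le_mul_of_nonneg_left hcu (mul_pos hpr hqr).le
      linarith
    exact le_of_mul_le_mul_left this hqr
  have hhfy := h.hfy
  have hfy : hf y⁻¹ = (A : ℝ) / N * hf x⁻¹ := by
    rw [div_mul_eq_mul_div, eq_div_iff hN0.ne']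
    linarith
  have hsumineq := far1_sum h hNA p q g hp hq hg hN hD
  have hHx : hf x⁻¹ ≤ C := by
    refine hC ((A : ℝ) / N) (hf x⁻¹) p ?_ (hf_nonneg _) (by exact_mod_cast hp) ?_ hsumineq
    · rw [le_div_iff₀ hN0]
      have : (17 : ℝ) * N ≤ 16 * A := by exact_mod_cast hNA
      linarith
    · have h1 := height_one_sub_le y
      have h2 : C1 ≤ |C1| := le_abs_self C1
      rw [hfy] at hy2
      linarith
  linarith

end Pool.Agent.CITNF
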