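import Pool.Agent.CITNF.Two
import Pool.Agent.CITNF.LTE

set_option autoImplicit false

/-! P9. Bounded height when the exponents are bounded. t = A/N >= 21/20, D/N = p'/q' reduced, p' <= P, so q' <= P.
h(x) = h(1/x) = hi(1/x) + hf(1/x).
Finite part: let v x < 1. If 2^n v x < 1 then, as in P8, (t-1)(-log v x) = -log v(D) + log v(N) <= -log v(p'), so
-log v x <= 20 (-log v(p')). Otherwise -log v x <= n log 2 and lN v <= n log 2 (finitely many v). Sum:
hf(1/x) <= 20 n log P + #{lN v <= n log 2} n log 2.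
Infinite places: ω = torsion exponent, Q' = q' ω, P' = p' ω: (1-y)^Q' = (1-x)^P' since (1-y)^N = (1-x)^D. With
e = v x small: v(y) = e^t; v((1-x)^P' - 1) >= P' e - 2^P' e^2 >= e/2 for e <= 2^(-P'-1), and
v((1-y)^Q' - 1) <= 2^Q' e^t. So e^(t-1) >= 2^(-Q'-1), e >= 2^(-20(Q'+1)). -/

namespace Pool.Agent.CITNF

open NumberField Height Real Module

private theorem farheight_natCast_le {K : Type} [Field K] (v : AbsoluteValue K ℝ) (m : ℕ) :
    v (m : K) ≤ m := by
  induction m with
  | zero => simp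
  | succ m ih =>
    push_cast
    calc v ((m : K) + 1) ≤ v (m : K) + v 1 := v.add_le _ _
      _ ≤ m + 1 := by rw [map_one]; linarith

private theorem farheight_one_sub {K : Type} [Field K] (v : AbsoluteValue K ℝ) (x : K)
    (hx : v x ≤ 1) : v (1 - x) ≤ 2 := by
  calc v (1 - x) ≤ v 1 + v x := by
        rw [sub_eq_add_neg]
        exact (v.add_le _ _).trans (by rw [v.map_neg])
    _ ≤ 2 := by rw [map_one]; linarith

private theorem farheight_pow1 {K : Type} [Field K] (v : AbsoluteValue K ℝ) (x : K)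
    (hx : v x ≤ 1) (m : ℕ) : v ((1 - x) ^ m - 1) ≤ (2 ^ m - 1) * v x := by
  induction m with
  | zero => simp
  | succ m ih =>
    have h1 : (1 - x) ^ (m + 1) - 1 = ((1 - x) ^ m - 1) * (1 - x) + -x := by ring
    have h0 := v.nonneg x
    have h2 : (1 : ℝ) ≤ 2 ^ m := one_le_pow₀ (by norm_num)
    rw [h1]
    calc v (((1 - x) ^ m - 1) * (1 - x) + -x) ≤ v (((1 - x) ^ m - 1) * (1 - x)) + v (-x) :=
          v.add_le _ _
      _ = v ((1 - x) ^ m - 1) * v (1 - x) + v x := by rw [map_mul, v.map_neg]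
      _ ≤ ((2 ^ m - 1) * v x) * 2 + v x := by
          have h3 : 0 ≤ (2 ^ m - 1) * v x := mul_nonneg (by linarith) h0
          have := mul_le_mul ih (farheight_one_sub v x hx) (v.nonneg _) h3
          linarith
      _ = (2 ^ (m + 1) - 1) * v x := by ring

private theorem farheight_pow2 {K : Type} [Field K] (v : AbsoluteValue K ℝ) (x : K)
    (hx : v x ≤ 1) (m : ℕ) :
    v ((1 - x) ^ m - 1 + m * x) ≤ (2 ^ m - m - 1) * v x ^ 2 := by
  induction m with
  | zero => simp
  | succ m ih =>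
    have h1 : (1 - x) ^ (m + 1) - 1 + ((m + 1 : ℕ) : K) * x =
        ((1 - x) ^ m - 1 + m * x) * (1 - x) + m * x ^ 2 := by push_cast; ring
    have h0 := v.nonneg x
    have h2 : (m : ℝ) + 1 ≤ 2 ^ m := by exact_mod_cast Nat.lt_two_pow_self
    rw [h1]
    calc v (((1 - x) ^ m - 1 + m * x) * (1 - x) + m * x ^ 2)
        ≤ v (((1 - x) ^ m - 1 + m * x) * (1 - x)) + v (m * x ^ 2) := v.add_le _ _
      _ = v ((1 - x) ^ m - 1 + m * x) * v (1 - x) + v (m : K) * v x ^ 2 := by
          rw [map_mul, map_mul, map_pow]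
      _ ≤ ((2 ^ m - m - 1) * v x ^ 2) * 2 + m * v x ^ 2 := by
          have h3 : 0 ≤ (2 ^ m - m - 1) * v x ^ 2 := mul_nonneg (by linarith) (by positivity)
          have h4 := mul_le_mul ih (farheight_one_sub v x hx) (v.nonneg _) h3
          have h5 := mul_le_mul_of_nonneg_right (farheight_natCast_le v m)
            (by positivity : 0 ≤ v x ^ 2)
          linarith
      _ = (2 ^ (m + 1) - ((m + 1 : ℕ) : ℝ) - 1) * v x ^ 2 := by push_cast; ring

private theorem farheight_inf {K : Type} [Field K] (v : InfinitePlace K) (x y : K) (p q M : ℕ)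
    (hp : 0 < p) (hpM : p ≤ M) (hqM : q ≤ M) (hx0 : x ≠ 0)
    (h : (1 - y) ^ q = (1 - x) ^ p) (hxy : v x ≤ 1 → v y ^ 20 ≤ v x ^ 21) :
    (2 : ℝ)⁻¹ ^ (20 * (M + 1)) ≤ v x := by
  by_contra hcon
  push Not at hcon
  have hpos : 0 < v x := InfinitePlace.pos_iff.mpr hx0
  have h2 : (2 : ℝ)⁻¹ ^ (20 * (M + 1)) ≤ (2 : ℝ)⁻¹ ^ (p + 1) :=
    pow_le_pow_of_le_one (by norm_num) (by norm_num) (by omega)
  have h3 : v x < (2 : ℝ)⁻¹ ^ (p + 1) := lt_of_lt_of_le hcon h2
  have h3' : (2 : ℝ) ^ p * v x ≤ 1 / 2 := by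
    have h4 : (2 : ℝ) ^ p * (2 : ℝ)⁻¹ ^ (p + 1) = 1 / 2 := by
      rw [pow_succ, ← mul_assoc, ← mul_pow]
      norm_num
    have h5 := mul_le_mul_of_nonneg_left h3.le (by positivity : (0 : ℝ) ≤ 2 ^ p)
    rw [h4] at h5
    exact h5
  have hx1 : v x ≤ 1 := h3.le.trans (pow_le_one₀ (by norm_num) (by norm_num))
  have hxy' := hxy hx1
  have hy1 : v y ≤ 1 := by
    by_contra hc
    push Not at hc
    have h4 : 1 < v y ^ 20 := one_lt_pow₀ hc (by norm_num)
    have h5 : v x ^ 21 ≤ 1 := pow_le_one₀ hpos.le hx1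
    linarith
  have hA : v ((1 - x) ^ p - 1 + p * x) ≤ (2 ^ p - p - 1) * v x ^ 2 :=
    farheight_pow2 v.1 x hx1 p
  have hB : v ((1 - y) ^ q - 1) ≤ (2 ^ q - 1) * v y := farheight_pow1 v.1 y hy1 q
  have hpx : v ((p : K) * x) = p * v x := by
    rw [map_mul]
    congr 1
    rw [← InfinitePlace.norm_embedding_eq v (p : K), map_natCast, Complex.norm_natCast]
  have hC : v ((p : K) * x) ≤ v ((1 - x) ^ p - 1 + p * x) + v ((1 - x) ^ p - 1) := by
    have h4 : (p : K) * x = ((1 - x) ^ p - 1 + p * x) + -((1 - x) ^ p - 1) := by ring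
    calc v ((p : K) * x) = v.1 (((1 - x) ^ p - 1 + p * x) + -((1 - x) ^ p - 1)) := by
          rw [← h4]; rfl
      _ ≤ v.1 ((1 - x) ^ p - 1 + p * x) + v.1 (-((1 - x) ^ p - 1)) := v.1.add_le _ _
      _ = v ((1 - x) ^ p - 1 + p * x) + v ((1 - x) ^ p - 1) := by rw [v.1.map_neg]; rfl
  rw [hpx] at hC
  rw [h] at hB
  have hp1 : (1 : ℝ) ≤ p := by exact_mod_cast hp
  have hD : v x / 2 ≤ 2 ^ q * v y := by
    have h5 : (2 ^ p - (p : ℝ) - 1) * v x ^ 2 ≤ (2 ^ p * v x) * v x := by
      have : 0 ≤ ((p : ℝ) + 1) * v x ^ 2 := by positivity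
      nlinarith
    have h6 : (2 ^ p * v x) * v x ≤ 1 / 2 * v x := mul_le_mul_of_nonneg_right h3' hpos.le
    have h7 : v x ≤ p * v x := by nlinarith
    have h8 : 0 ≤ v y := apply_nonneg v y
    nlinarith
  have hE : (v x / 2) ^ 20 ≤ (2 ^ q) ^ 20 * v x ^ 21 := by
    calc (v x / 2) ^ 20 ≤ (2 ^ q * v y) ^ 20 := pow_le_pow_left₀ (by positivity) hD 20
      _ = (2 ^ q) ^ 20 * v y ^ 20 := mul_pow _ _ _
      _ ≤ _ := mul_le_mul_of_nonneg_left hxy' (by positivity)
  have hF : (2 : ℝ)⁻¹ ^ (20 * (q + 1)) ≤ v x := by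
    have h9 : (2 : ℝ)⁻¹ ^ 20 * v x ^ 20 ≤ (2 ^ q) ^ 20 * v x * v x ^ 20 := by
      calc (2 : ℝ)⁻¹ ^ 20 * v x ^ 20 = (v x / 2) ^ 20 := by rw [← mul_pow]; congr 1; ring
        _ ≤ (2 ^ q) ^ 20 * v x ^ 21 := hE
        _ = (2 ^ q) ^ 20 * v x * v x ^ 20 := by ring
    have h10 : (2 : ℝ)⁻¹ ^ 20 ≤ (2 ^ q) ^ 20 * v x :=
      le_of_mul_le_mul_right h9 (by positivity)
    have h11 : (2 : ℝ)⁻¹ ^ (20 * (q + 1)) = ((2 : ℝ)⁻¹ ^ q) ^ 20 * (2 : ℝ)⁻¹ ^ 20 := by ring
    have h12 : ((2 : ℝ)⁻¹ ^ q) ^ 20 * (2 ^ q) ^ 20 = 1 := by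
      rw [← mul_pow, ← mul_pow]; norm_num
    rw [h11]
    calc ((2 : ℝ)⁻¹ ^ q) ^ 20 * (2 : ℝ)⁻¹ ^ 20 ≤ ((2 : ℝ)⁻¹ ^ q) ^ 20 * ((2 ^ q) ^ 20 * v x) :=
          mul_le_mul_of_nonneg_left h10 (by positivity)
      _ = v x := by rw [← mul_assoc, h12, one_mul]
  have h13 : (2 : ℝ)⁻¹ ^ (20 * (M + 1)) ≤ (2 : ℝ)⁻¹ ^ (20 * (q + 1)) :=
    pow_le_pow_of_le_one (by norm_num) (by norm_num) (by omega)
  linarith

private theorem farheight_fin {K : Type} [Field K] [NumberField K] {x y : K} {N A D : ℕ}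
    (h : NP2 x y N A D) (hA : 21 * N ≤ 20 * A) (v : FinitePlace K)
    (hv : 2 ^ (finrank ℚ K) * v x < 1) :
    -log (v x) ≤ 20 * -log (v ((D / D.gcd N : ℕ) : K)) := by
  have hx0 : 0 < v x := FinitePlace.pos_iff.mpr h.x0
  have hy0 : 0 < v y := FinitePlace.pos_iff.mpr h.y0
  have h2n : (1 : ℝ) ≤ 2 ^ (finrank ℚ K) := one_le_pow₀ (by norm_num)
  have hx1 : v x < 1 := by nlinarith
  have hpow : v y ^ N = v x ^ A := by rw [← map_pow, ← map_pow, h.hy]
  have hlog : N * log (v y) = A * log (v x) := by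
    rw [← Real.log_pow, ← Real.log_pow, hpow]
  have hlx : log (v x) < 0 := Real.log_neg hx0 hx1
  have hN : (0 : ℝ) < N := by exact_mod_cast h.N0
  have hAN : (21 : ℝ) * N ≤ 20 * A := by exact_mod_cast hA
  have hly : log (v y) ≤ log (v x) := by
    by_contra hc
    push Not at hc
    have h1 := mul_lt_mul_of_pos_left hc hN
    nlinarith
  have hyx : v y ≤ v x := (Real.log_le_log_iff hy0 hx0).mp hly
  have hvy : 2 ^ (finrank ℚ K) * v y < 1 := by nlinarith
  have hrel := lte_rel v x y hv hvy N (D : ℤ) (by rw [zpow_natCast]; exact h.hy1)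
  rw [Int.natAbs_natCast] at hrel
  -- divide by the gcd
  set g := D.gcd N with hg
  have hgpos : 0 < g := Nat.gcd_pos_of_pos_left _ h.D0
  have hD : D = g * (D / g) := (Nat.mul_div_cancel' (Nat.gcd_dvd_left D N)).symm
  have hN' : N = g * (N / g) := (Nat.mul_div_cancel' (Nat.gcd_dvd_right D N)).symm
  have hD0 : D / g ≠ 0 := by
    intro h0
    rw [h0, mul_zero] at hD
    exact h.D0.ne' hD
  have hN0 : N / g ≠ 0 := by
    intro h0
    rw [h0, mul_zero] at hN'
    exact h.N0.ne' hN'
  have e1 : v (N : K) = v (g : K) * v ((N / g : ℕ) : K) := by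
    conv_lhs => rw [hN']
    rw [Nat.cast_mul, map_mul]
  have e2 : v (D : K) = v (g : K) * v ((D / g : ℕ) : K) := by
    conv_lhs => rw [hD]
    rw [Nat.cast_mul, map_mul]
  have hvg : 0 < v (g : K) := FinitePlace.pos_iff.mpr (by exact_mod_cast hgpos.ne')
  have hvN : 0 < v ((N / g : ℕ) : K) := FinitePlace.pos_iff.mpr (by exact_mod_cast hN0)
  have hvD : 0 < v ((D / g : ℕ) : K) := FinitePlace.pos_iff.mpr (by exact_mod_cast hD0)
  rw [e1, e2, mul_assoc, mul_assoc] at hrel
  have hrel2 := mul_left_cancel₀ hvg.ne' hrel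
  have hl := congrArg Real.log hrel2
  rw [Real.log_mul hvN.ne' hy0.ne', Real.log_mul hvD.ne' hx0.ne'] at hl
  have hlN : log (v ((N / g : ℕ) : K)) ≤ 0 := Real.log_nonpos hvN.le (natCast_le_one v _)
  -- `log v y = t log v x` with `t ≥ 21/20`
  have hly2 : log (v y) ≤ 21 / 20 * log (v x) := by
    by_contra hc
    push Not at hc
    have h1 := mul_lt_mul_of_pos_left hc hN
    nlinarith
  linarith

theorem far2_height (K : Type) [Field K] [NumberField K] (P : ℕ) :
    ∃ C : ℝ, ∀ (x y : K) (N A D : ℕ), NP2 x y N A D →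
    21 * N ≤ 20 * A → 21 * N ≤ 20 * D → A / A.gcd N ≤ P → D / D.gcd N ≤ P →
    logHeight₁ x ≤ C := by
  classical
  obtain ⟨ω, hω, hω'⟩ := exists_torsion_exponent K
  set n := finrank ℚ K with hn
  have hfin := finite_lN_le (K := K) (n * log 2)
  set S := hfin.toFinset with hS
  refine ⟨n * (20 * (P * ω + 1) * log 2) + (20 * (n * log P) + S.card * (n * log 2)), ?_⟩
  intro x y N A D h hA hD _ hDP
  have hlog2 : 0 < log 2 := Real.log_pos (by norm_num)
  rw [← logHeight₁_inv, lh_eq]
  refine add_le_add ?_ ?_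
  · -- infinite places
    have hb : ∀ v : InfinitePlace K, log⁺ (v x⁻¹) ≤ 20 * (P * ω + 1) * log 2 := by
      intro v
      set g := D.gcd N with hg
      have hgpos : 0 < g := Nat.gcd_pos_of_pos_left _ h.D0
      have hD' : D = (D / g) * g := (Nat.div_mul_cancel (Nat.gcd_dvd_left D N)).symm
      have hN' : N = (N / g) * g := (Nat.div_mul_cancel (Nat.gcd_dvd_right D N)).symm
      have hD0 : 0 < D / g := Nat.div_pos (Nat.le_of_dvd h.D0 (Nat.gcd_dvd_left D N)) hgpos
      have hx1' : (1 - x) ≠ 0 := sub_ne_zero.mpr h.x1.symm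
      have hqp : N / g ≤ D / g := Nat.div_le_div_right (by omega)
      have hw : ((1 - y) ^ (N / g) / (1 - x) ^ (D / g)) ^ g = 1 := by
        rw [div_pow, ← pow_mul, ← pow_mul, ← hD', ← hN', h.hy1]
        exact div_self (pow_ne_zero _ hx1')
      have hw2 := hω' _ g hgpos hw
      rw [div_pow, div_eq_one_iff_eq (pow_ne_zero _ (pow_ne_zero _ hx1')), ← pow_mul,
        ← pow_mul] at hw2
      have hkey := farheight_inf v x y (D / g * ω) (N / g * ω) (P * ω) (by positivity)
        (Nat.mul_le_mul_right _ hDP) (Nat.mul_le_mul_right _ (hqp.trans hDP)) h.x0 hw2 (by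
          intro hx1
          have h1 : v y ^ N = v x ^ A := by rw [← map_pow, ← map_pow, h.hy]
          have h2 : (v y ^ 20) ^ N ≤ (v x ^ 21) ^ N := by
            calc (v y ^ 20) ^ N = (v y ^ N) ^ 20 := by rw [← pow_mul, ← pow_mul, mul_comm]
              _ = v x ^ (20 * A) := by rw [h1, ← pow_mul, mul_comm]
              _ ≤ v x ^ (21 * N) := pow_le_pow_of_le_one (apply_nonneg v x) hx1 hA
              _ = (v x ^ 21) ^ N := by rw [← pow_mul]
          exact le_of_pow_le_pow_left₀ h.N0.ne' (pow_nonneg (apply_nonneg v x) _) h2)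
      have hpos : 0 < v x := InfinitePlace.pos_iff.mpr h.x0
      have hl : log ((2 : ℝ)⁻¹ ^ (20 * (P * ω + 1))) ≤ log (v x) :=
        Real.log_le_log (by positivity) hkey
      rw [Real.log_pow, Real.log_inv] at hl
      push_cast at hl
      rw [map_inv₀, Real.posLog_apply, Real.log_inv]
      refine max_le (by positivity) ?_
      nlinarith
    calc hi x⁻¹ = ∑ v : InfinitePlace K, v.mult * log⁺ (v x⁻¹) := rfl
      _ ≤ ∑ v : InfinitePlace K, (v.mult : ℝ) * (20 * (P * ω + 1) * log 2) :=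
          Finset.sum_le_sum fun v _ => mul_le_mul_of_nonneg_left (hb v) (Nat.cast_nonneg _)
      _ = n * (20 * (P * ω + 1) * log 2) := by
          rw [← Finset.sum_mul, ← Nat.cast_sum, InfinitePlace.sum_mult_eq]
  · -- finite places
    set p := D / D.gcd N with hp
    have hp0 : p ≠ 0 :=
      (Nat.div_pos (Nat.le_of_dvd h.D0 (Nat.gcd_dvd_left D N))
        (Nat.gcd_pos_of_pos_left _ h.D0)).ne'
    have hb : ∀ v : FinitePlace K, log⁺ (v x⁻¹) ≤
        20 * -log (v (p : K)) + if v ∈ S then n * log 2 else 0 := by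
      intro v
      have hx0 : 0 < v x := FinitePlace.pos_iff.mpr h.x0
      have hnn : 0 ≤ -log (v (p : K)) := by
        have : log (v (p : K)) ≤ 0 := Real.log_nonpos (apply_nonneg v _) (natCast_le_one v p)
        linarith
      have hite : (0 : ℝ) ≤ if v ∈ S then n * log 2 else 0 := by
        split_ifs <;> positivity
      rw [map_inv₀, Real.posLog_apply, Real.log_inv]
      refine max_le (by positivity) ?_
      by_cases hv : 2 ^ (finrank ℚ K) * v x < 1
      · have := farheight_fin h hA v hv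
        linarith
      · push Not at hv
        have hlv : -log (v x) ≤ n * log 2 := by
          have h1 : log (((2 : ℝ) ^ n)⁻¹) ≤ log (v x) := by
            refine Real.log_le_log (by positivity) ?_
            rw [inv_le_iff_one_le_mul₀ (by positivity), mul_comm]
            exact hv
          rw [Real.log_inv, Real.log_pow] at h1
          linarith
        by_cases hx1 : v x < 1
        · obtain ⟨k, hk⟩ := exists_ord v x h.x0
          have hlx : log (v x) < 0 := Real.log_neg hx0 hx1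
          have hlN := log_two_le_lN v
          have hk1 : k ≤ -1 := by
            by_contra hc
            push Not at hc
            have h2 : (0 : ℝ) ≤ k := by exact_mod_cast (by omega : (0 : ℤ) ≤ k)
            have : 0 ≤ (k : ℝ) * lN v := mul_nonneg h2 (by linarith)
            linarith
          have hk1' : (k : ℝ) ≤ -1 := by exact_mod_cast hk1
          have h3 : lN v ≤ -log (v x) := by
            rw [hk]
            nlinarith
          have hmem : v ∈ S := by
            rw [hS, Set.Finite.mem_toFinset]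
            exact h3.trans hlv
          rw [if_pos hmem]
          linarith
        · push Not at hx1
          have := Real.log_nonneg hx1
          linarith
    have hf1 : (Function.support fun v : FinitePlace K => 20 * -log (v (p : K))).Finite := by
      refine (natCast_support (K := K) p hp0).subset ?_
      intro v hv
      rw [Function.mem_support] at hv ⊢
      intro h0
      exact hv (by rw [h0, mul_zero])
    have hf2 : (Function.support fun v : FinitePlace K =>
        if v ∈ S then (n : ℝ) * log 2 else 0).Finite := by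
      refine S.finite_toSet.subset ?_
      intro v hv
      rw [Function.mem_support] at hv
      by_contra hc
      exact hv (if_neg hc)
    have hf3 : (Function.support fun v : FinitePlace K => 20 * -log (v (p : K)) +
        if v ∈ S then (n : ℝ) * log 2 else 0).Finite :=
      (hf1.union hf2).subset (Function.support_add _ _)
    calc hf x⁻¹ = ∑ᶠ v : FinitePlace K, log⁺ (v x⁻¹) := rfl
      _ ≤ ∑ᶠ v : FinitePlace K, (20 * -log (v (p : K)) +
            if v ∈ S then (n : ℝ) * log 2 else 0) := finsum_le_finsum' (hf_support _) hf3 hb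
      _ = ∑ᶠ v : FinitePlace K, 20 * -log (v (p : K)) +
            ∑ᶠ v : FinitePlace K, (if v ∈ S then (n : ℝ) * log 2 else 0) :=
          finsum_add_distrib hf1 hf2
      _ = 20 * (n * log p) + S.card * (n * log 2) := by
          congr 1
          · rw [← mul_finsum, sum_natCast p hp0]
          · rw [finsum_eq_sum_of_support_subset (s := S) _ (by
              intro v hv
              rw [Function.mem_support] at hv
              by_contra hc
              exact hv (if_neg hc))]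
            rw [Finset.sum_congr rfl (fun v hv => if_pos hv), Finset.sum_const, nsmul_eq_mul]
      _ ≤ _ := by
          have h1 : log (p : ℝ) ≤ log P :=
            Real.log_le_log (by exact_mod_cast Nat.pos_of_ne_zero hp0) (by exact_mod_cast hDP)
          have h2 : (n : ℝ) * log p ≤ n * log P := mul_le_mul_of_nonneg_left h1 (Nat.cast_nonneg _)
          linarith

end Pool.Agent.CITNF
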