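import Pool.Agent.SST.SchmidtComplex

set_option autoImplicit false

/-! P1. Lower bound for linear forms with algebraic coefficients at integer points.
Proof: induction on `m` from `Pool.Agent.SST.schmidt_complex` (landed). `m = 0`: vacuous, `m = 1`:
|a 0 * X 0| >= |a 0|. Step (m = k + 2 variables): if all a i = 0 vacuous; else pick j with
a j <> 0 and apply `schmidt_complex` (with m := k+1, δ := 1) to the matrix whose row j is a and whose other rows
are the coordinate rows. If H^m * ‖L‖ < 1 then the product of the forms is <= H^(m-1) ‖L‖ <= H^(-1),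
so X lies on one of finitely many hyperplanes b.X = 0, b <> 0. On such a hyperplane eliminate X k
(b k <> 0): L = sum over i <> k of (a i - a k b i / b k) X i, a form in one variable less with
algebraic coefficients; the induction gives c_b <= H^(m-1) ‖L‖ <= H^m ‖L‖. c = min of 1 and all c_b. -/

namespace Pool.Agent.CITNF

private lemma roth_min {α : Type*} [DecidableEq α] (F : Finset α) (P : α → ℝ → Prop)
    (hP : ∀ b ∈ F, ∃ c : ℝ, 0 < c ∧ P b c)
    (hmono : ∀ b c d, d ≤ c → P b c → P b d) : ∃ c : ℝ, 0 < c ∧ c ≤ 1 ∧ ∀ b ∈ F, P b c := by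
  induction F using Finset.induction_on with
  | empty => exact ⟨1, one_pos, le_rfl, by simp⟩
  | insert x F hx ih =>
    obtain ⟨c, hc, hc1, hcF⟩ := ih (fun b hb => hP b (Finset.mem_insert_of_mem hb))
    obtain ⟨d, hd, hdP⟩ := hP x (Finset.mem_insert_self x F)
    refine ⟨min c d, lt_min hc hd, (min_le_left _ _).trans hc1, ?_⟩
    intro b hb
    rcases Finset.mem_insert.1 hb with rfl | hb
    · exact hmono _ _ _ (min_le_right _ _) hdP
    · exact hmono _ _ _ (min_le_left _ _) (hcF b hb)

private lemma roth_det {n : ℕ} (a : Fin n → ℂ) (j : Fin n) :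
    ((1 : Matrix (Fin n) (Fin n) ℂ).updateRow j a).det = a j := by
  rw [← Matrix.cramer_transpose_apply, Matrix.transpose_one, Matrix.cramer_one]
  rfl

theorem roth_form (m : ℕ) (a : Fin m → ℂ) (ha : ∀ i, IsAlgebraic ℚ (a i)) :
    ∃ c : ℝ, 0 < c ∧ ∀ (X : Fin m → ℤ) (H : ℝ), 1 ≤ H → (∀ i, |(X i : ℝ)| ≤ H) →
      ∑ i, a i * (X i : ℂ) ≠ 0 → c ≤ H ^ m * ‖∑ i, a i * (X i : ℂ)‖ := by
  classical
  induction m with
  | zero => exact ⟨1, one_pos, fun X H _ _ h => absurd (by simp) h⟩
  | succ k ih =>
    rcases Nat.eq_zero_or_pos k with rfl | hk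
    · -- one variable
      by_cases h0 : a 0 = 0
      · refine ⟨1, one_pos, fun X H _ _ h => absurd ?_ h⟩
        simp [h0]
      · refine ⟨‖a 0‖, norm_pos_iff.2 h0, fun X H hH _ h => ?_⟩
        have hs : ∑ i, a i * (X i : ℂ) = a 0 * (X 0 : ℂ) := by
          rw [Fin.sum_univ_succ]
          simp
        rw [hs] at h ⊢
        rw [norm_mul, Complex.norm_intCast]
        have hX : X 0 ≠ 0 := by
          intro hX
          apply h
          simp [hX]
        have h1 : (1 : ℝ) ≤ |(X 0 : ℝ)| := by
          exact_mod_cast Int.one_le_abs hX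
        have h2 : 0 ≤ ‖a 0‖ := norm_nonneg _
        calc ‖a 0‖ = 1 * (‖a 0‖ * 1) := by ring
          _ ≤ H * (‖a 0‖ * |(X 0 : ℝ)|) := by gcongr
          _ = H ^ (0 + 1) * (‖a 0‖ * |(X 0 : ℝ)|) := by simp
    · by_cases hall : ∀ i, a i = 0
      · refine ⟨1, one_pos, fun X H _ _ h => absurd ?_ h⟩
        simp [hall]
      push Not at hall
      obtain ⟨j, hj⟩ := hall
      set L : Matrix (Fin (k + 1)) (Fin (k + 1)) ℂ := (1 : Matrix _ _ ℂ).updateRow j a with hL
      have hLalg : ∀ i l, IsAlgebraic ℚ (L i l) := by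
        intro i l
        rw [hL, Matrix.updateRow_apply]
        split_ifs with h
        · exact ha l
        · rw [Matrix.one_apply]
          split_ifs
          · exact isAlgebraic_one
          · exact isAlgebraic_zero
      have hLdet : L.det ≠ 0 := by
        rw [hL, roth_det]
        exact hj
      obtain ⟨F, hF0, hF⟩ := Pool.Agent.SST.schmidt_complex hk L hLalg hLdet 1 one_pos
      obtain ⟨c, hc, hc1, hcF⟩ := roth_min F (fun b c => ∀ (X : Fin (k + 1) → ℤ) (H : ℝ), 1 ≤ H →
          (∀ i, |(X i : ℝ)| ≤ H) → ∑ i, b i * X i = 0 → ∑ i, a i * (X i : ℂ) ≠ 0 →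
          c ≤ H ^ k * ‖∑ i, a i * (X i : ℂ)‖) (by
        intro b hb
        have hb0 : b ≠ 0 := fun h => hF0 (h ▸ hb)
        obtain ⟨l, hl⟩ : ∃ l, b l ≠ 0 := by
          by_contra hcon
          push Not at hcon
          exact hb0 (funext hcon)
        have hlC : (b l : ℂ) ≠ 0 := by exact_mod_cast hl
        obtain ⟨c, hc, hcP⟩ := ih
          (fun i => a (l.succAbove i) - a l * (b (l.succAbove i) : ℂ) / (b l : ℂ))
          (fun i => (ha _).sub (((ha l).mul (isAlgebraic_intCast _)).mul (isAlgebraic_intCast (b l)).inv))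
        refine ⟨c, hc, fun X H hH hX hbX hne => ?_⟩
        have hbXC : (b l : ℂ) * (X l : ℂ) +
            ∑ i, (b (l.succAbove i) : ℂ) * (X (l.succAbove i) : ℂ) = 0 := by
          have : ((∑ i, b i * X i : ℤ) : ℂ) = 0 := by rw [hbX]; simp
          rw [Fin.sum_univ_succAbove _ l] at this
          push_cast at this
          exact this
        have hXl : (X l : ℂ) =
            - (∑ i, (b (l.succAbove i) : ℂ) * (X (l.succAbove i) : ℂ)) / (b l : ℂ) := by
          rw [eq_div_iff hlC]
          linear_combination hbXC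
        have hsum : ∑ i, a i * (X i : ℂ) =
            ∑ i, (a (l.succAbove i) - a l * (b (l.succAbove i) : ℂ) / (b l : ℂ)) *
              (X (l.succAbove i) : ℂ) := by
          rw [Fin.sum_univ_succAbove _ l, hXl]
          simp only [sub_mul, Finset.sum_sub_distrib]
          rw [neg_div, Finset.sum_div, mul_neg, Finset.mul_sum]
          have : ∀ i, a l * ((b (l.succAbove i) : ℂ) * (X (l.succAbove i) : ℂ) / (b l : ℂ)) =
              a l * (b (l.succAbove i) : ℂ) / (b l : ℂ) * (X (l.succAbove i) : ℂ) := by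
            intro i; ring
          simp only [this]
          ring
        rw [hsum] at hne ⊢
        exact hcP (fun i => X (l.succAbove i)) H hH (fun i => hX _) hne) (by
        intro b c d hdc hP X H h1 h2 h3 h4
        exact hdc.trans (hP X H h1 h2 h3 h4))
      refine ⟨c, hc, fun X H hH hX hne => ?_⟩
      have hH0 : 0 < H := lt_of_lt_of_le one_pos hH
      rcases le_or_gt 1 (H ^ (k + 1) * ‖∑ i, a i * (X i : ℂ)‖) with hbig | hsmall
      · exact hc1.trans hbig
      · have hprod : ∏ i, ‖L.mulVec (fun l => (X l : ℂ)) i‖ ≤ H ^ (-(1 : ℝ)) := by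
          rw [← Finset.mul_prod_erase Finset.univ _ (Finset.mem_univ j)]
          have h1 : L.mulVec (fun l => (X l : ℂ)) j = ∑ i, a i * (X i : ℂ) := by
            simp [hL, Matrix.mulVec, dotProduct, Matrix.updateRow_self]
          have h2 : ∀ i ∈ Finset.univ.erase j, ‖L.mulVec (fun l => (X l : ℂ)) i‖ ≤ H := by
            intro i hi
            have hij : i ≠ j := Finset.ne_of_mem_erase hi
            have : L.mulVec (fun l => (X l : ℂ)) i = (X i : ℂ) := by
              simp [hL, Matrix.mulVec, dotProduct, Matrix.updateRow_ne hij, Matrix.one_apply]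
            rw [this, Complex.norm_intCast]
            exact hX i
          have h3 : ∏ i ∈ Finset.univ.erase j, ‖L.mulVec (fun l => (X l : ℂ)) i‖ ≤ H ^ k := by
            calc ∏ i ∈ Finset.univ.erase j, ‖L.mulVec (fun l => (X l : ℂ)) i‖
                ≤ ∏ i ∈ Finset.univ.erase j, H :=
                  Finset.prod_le_prod (fun i _ => norm_nonneg _) h2
              _ = H ^ k := by simp
          rw [h1, Real.rpow_neg_one, ← one_div, le_div_iff₀ hH0]
          calc ‖∑ i, a i * (X i : ℂ)‖ *
                (∏ i ∈ Finset.univ.erase j, ‖L.mulVec (fun l => (X l : ℂ)) i‖) * H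
              ≤ ‖∑ i, a i * (X i : ℂ)‖ * H ^ k * H := by gcongr
            _ = H ^ (k + 1) * ‖∑ i, a i * (X i : ℂ)‖ := by ring
            _ ≤ 1 := hsmall.le
        obtain ⟨b, hb, hbX⟩ := hF X H hH hX hprod
        calc c ≤ H ^ k * ‖∑ i, a i * (X i : ℂ)‖ := hcF b hb X H hH hX hbX hne
          _ ≤ H ^ (k + 1) * ‖∑ i, a i * (X i : ℂ)‖ := by
            have : H ^ k ≤ H ^ (k + 1) := pow_le_pow_right₀ hH (Nat.le_succ k)
            gcongr

end Pool.Agent.CITNF
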