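import Pool.Agent.CITNF.Defs
import Pool.Agent.CITNF.Roth

set_option autoImplicit false

/-! P2. Units are not very close to `1/θ` (weak form of Roth/Ridout, from `roth_form`).
Proof. n = [K:Q], σ = v.embedding, v z = ‖σ z‖. Choose M : ℕ with M * δ >= n + 1, M >= 1. The group
(𝓞 K)ˣ is finitely generated (Dirichlet, in Mathlib), so finitely many ρ_j with: every unit is
ρ_j * ω^M. Fix j, β = σ(θ ρ_j). C has the M-th roots α_1..α_M of β⁻¹, distinct, separation s > 0, and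
1 - β z^M = -β ∏ (z - α_i) (up to sign), so taking i with |z - α_i| minimal, |z - α_l| >= s/2 for l <> i and
|z - α_i| <= C |1 - β z^M| for all z. Here z = σ(ω), and z <> α_i because θ η <> 1.
`roth_form (n + 1)` with coefficients σ(b_1),..,σ(b_n),-α_i (b = integral basis of K, algebraic numbers) at
X = (coordinates of ω, 1): c <= H^(n+1) |σ(ω) - α_i| where H = C' * exp (logHeight₁ ω) bounds the
coordinates (every embedding of ω has absolute value <= exp (logHeight₁ ω), and the coordinates are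
linear forms in the embeddings). Finally M * logHeight₁ ω <= logHeight₁ η + logHeight₁ ρ_j, so
-log v(1 - θη) <= (n+1)/M * logHeight₁ η + C. -/

namespace Pool.Agent.CITNF

open NumberField Height Real Module

variable {K : Type} [Field K] [NumberField K]

private theorem unitApprox_classes (K : Type) [Field K] [NumberField K] (M : ℕ) (hM : 0 < M) :
    ∃ R : Finset (𝓞 K)ˣ, ∀ η : (𝓞 K)ˣ, ∃ ρ ∈ R, ∃ ω : (𝓞 K)ˣ, η = ρ * ω ^ M := by
  classical
  have : Fintype (NumberField.Units.torsion K) := Fintype.ofFinite _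
  refine ⟨(Finset.univ : Finset (NumberField.Units.torsion K ×
    (Fin (NumberField.Units.rank K) → Fin M))).image
    (fun q => (q.1 : (𝓞 K)ˣ) * ∏ i, NumberField.Units.fundSystem K i ^ ((q.2 i : ℕ) : ℤ)),
    fun η => ?_⟩
  obtain ⟨⟨ζ, f⟩, hη, -⟩ := NumberField.Units.exist_unique_eq_mul_prod K η
  simp only at hη
  have hM' : (0 : ℤ) < M := by exact_mod_cast hM
  have hlt : ∀ i, (f i % (M : ℤ)).toNat < M := by
    intro i
    have h1 := Int.emod_nonneg (f i) hM'.ne'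
    have h2 := Int.emod_lt_of_pos (f i) hM'
    omega
  refine ⟨_, Finset.mem_image.2 ⟨(ζ, fun i => ⟨(f i % (M : ℤ)).toNat, hlt i⟩),
    Finset.mem_univ _, rfl⟩, ∏ i, NumberField.Units.fundSystem K i ^ (f i / (M : ℤ)), ?_⟩
  simp only
  rw [hη, mul_assoc, ← Finset.prod_pow, ← Finset.prod_mul_distrib]
  congr 1
  apply Finset.prod_congr rfl
  intro i _
  rw [← zpow_natCast (NumberField.Units.fundSystem K i ^ (f i / (M : ℤ))) M, ← zpow_mul, ← zpow_add]
  congr 1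
  rw [Int.toNat_of_nonneg (Int.emod_nonneg (f i) hM'.ne')]
  have := Int.emod_add_mul_ediv (f i) M
  linarith [mul_comm (f i / (M : ℤ)) (M : ℤ)]

private theorem unitApprox_hf_nonneg (x : K) : 0 ≤ hf x := by
  unfold hf
  exact finsum_nonneg fun v => Real.posLog_nonneg

private theorem unitApprox_norm_le (x : K) (τ : K →+* ℂ) : ‖τ x‖ ≤ exp (logHeight₁ x) := by
  have h1 : log⁺ ‖τ x‖ ≤ logHeight₁ x := by
    rw [lh_eq]
    have h2 : log⁺ ‖τ x‖ ≤ hi x := by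
      unfold hi
      have h3 : log⁺ ‖τ x‖ ≤ (InfinitePlace.mk τ).mult * log⁺ ((InfinitePlace.mk τ) x) := by
        rw [InfinitePlace.apply]
        have h4 : (1 : ℝ) ≤ (InfinitePlace.mk τ).mult := by
          exact_mod_cast InfinitePlace.mult_pos
        have h5 := Real.posLog_nonneg (x := ‖τ x‖)
        nlinarith
      refine h3.trans ?_
      exact Finset.single_le_sum (f := fun v : InfinitePlace K => (v.mult : ℝ) * log⁺ (v x))
        (fun v _ => mul_nonneg (by positivity) Real.posLog_nonneg) (Finset.mem_univ _)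
    have := unitApprox_hf_nonneg x
    linarith
  rcases eq_or_lt_of_le (norm_nonneg (τ x)) with h | h
  · rw [← h]
    exact (exp_pos _).le
  · calc ‖τ x‖ = exp (log ‖τ x‖) := (exp_log h).symm
      _ ≤ exp (log⁺ ‖τ x‖) := exp_le_exp.2 (le_max_right _ _)
      _ ≤ exp (logHeight₁ x) := exp_le_exp.2 h1

private theorem unitApprox_coord (K : Type) [Field K] [NumberField K] :
    ∃ C : ℝ, 1 ≤ C ∧ ∀ (ω : 𝓞 K) (i : Free.ChooseBasisIndex ℤ (𝓞 K)),
      |(((RingOfIntegers.basis K).repr ω i : ℤ) : ℝ)| ≤ C * exp (logHeight₁ (ω : K)) := by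
  classical
  obtain ⟨c, hc⟩ : ∃ c : ℝ, ∀ (α : 𝓞 K) (i : K →+* ℂ),
      ‖(((integralBasis K).reindex (equivReindex K).symm).repr (algebraMap (𝓞 K) K α) i : ℂ)‖ ≤
        c * house (algebraMap (𝓞 K) K α) :=
    ⟨_, fun α i => NumberField.house.basis_repr_norm_le_const_mul_house K α i⟩
  refine ⟨max 1 c, le_max_left _ _, fun ω i => ?_⟩
  have h1 := hc ω ((equivReindex K).symm i)
  rw [Basis.repr_reindex_apply, Equiv.symm_symm, Equiv.apply_symm_apply,
    integralBasis_repr_apply] at h1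
  have h2 : house (algebraMap (𝓞 K) K ω) ≤ exp (logHeight₁ (ω : K)) := by
    unfold house
    rw [canonicalEmbedding.norm_le_iff]
    intro φ
    exact unitApprox_norm_le _ φ
  have h3 : ‖(((algebraMap ℤ ℚ) (((RingOfIntegers.basis K).repr ω) i) : ℚ) : ℂ)‖ =
      |(((RingOfIntegers.basis K).repr ω i : ℤ) : ℝ)| := by
    rw [eq_intCast, Rat.cast_intCast, Complex.norm_intCast]
  rw [h3] at h1
  refine h1.trans ?_
  have h4 : 0 ≤ house (algebraMap (𝓞 K) K ω) := house_nonneg _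
  calc c * house (algebraMap (𝓞 K) K ω) ≤ max 1 c * house (algebraMap (𝓞 K) K ω) :=
        mul_le_mul_of_nonneg_right (le_max_right _ _) h4
    _ ≤ max 1 c * exp (logHeight₁ (ω : K)) :=
        mul_le_mul_of_nonneg_left h2 (le_trans zero_le_one (le_max_left _ _))

private theorem unitApprox_roth (σ : K →+* ℂ) (α : ℂ) (hα : IsAlgebraic ℚ α) :
    ∃ C : ℝ, ∀ ω : 𝓞 K, σ (ω : K) ≠ α →
      -log ‖σ (ω : K) - α‖ ≤ ((finrank ℚ K : ℝ) + 1) * logHeight₁ (ω : K) + C := by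
  classical
  obtain ⟨C', hC', hcoord⟩ := unitApprox_coord K
  set n := Fintype.card (Free.ChooseBasisIndex ℤ (𝓞 K)) with hn
  have hnK : n = finrank ℚ K := by
    rw [hn, ← Module.finrank_eq_card_chooseBasisIndex, RingOfIntegers.rank]
  let E : Fin n ≃ Free.ChooseBasisIndex ℤ (𝓞 K) := (Fintype.equivFin _).symm
  obtain ⟨c, hc0, hc⟩ := roth_form (n + 1)
    (Fin.snoc (fun j => σ ((RingOfIntegers.basis K (E j) : 𝓞 K) : K)) (-α) : Fin (n + 1) → ℂ)
    (by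
      intro i
      refine Fin.lastCases ?_ (fun j => ?_) i
      · rw [Fin.snoc_last]
        exact hα.neg
      · rw [Fin.snoc_castSucc]
        exact (Algebra.IsAlgebraic.isAlgebraic (R := ℚ) _).algHom (RingHom.toRatAlgHom σ))
  refine ⟨((finrank ℚ K : ℝ) + 1) * log C' - log c, fun ω hω => ?_⟩
  have hh : 0 ≤ logHeight₁ (ω : K) := zero_le_logHeight₁ _
  set H : ℝ := C' * exp (logHeight₁ (ω : K)) with hH
  have hC0 : 0 < C' := by linarith
  have hH1 : 1 ≤ H := by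
    have := Real.one_le_exp hh
    nlinarith
  have hsum : ∑ i, (Fin.snoc (fun j => σ ((RingOfIntegers.basis K (E j) : 𝓞 K) : K)) (-α) :
      Fin (n + 1) → ℂ) i * (((Fin.snoc (fun j => (RingOfIntegers.basis K).repr ω (E j)) 1 :
        Fin (n + 1) → ℤ) i : ℤ) : ℂ) = σ (ω : K) - α := by
    rw [Fin.sum_univ_castSucc]
    simp only [Fin.snoc_castSucc, Fin.snoc_last, Int.cast_one, mul_one]
    rw [sub_eq_add_neg]
    congr 1
    have h1 := (RingOfIntegers.basis K).sum_repr ω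
    have h2 : (ω : K) = ∑ i, ((((RingOfIntegers.basis K).repr ω i : ℤ)) : K) *
        ((RingOfIntegers.basis K i : 𝓞 K) : K) := by
      have h3 : algebraMap (𝓞 K) K ω = ∑ i, ((((RingOfIntegers.basis K).repr ω i : ℤ)) : K) *
          algebraMap (𝓞 K) K (RingOfIntegers.basis K i) := by
        conv_lhs => rw [← h1]
        rw [map_sum]
        refine Finset.sum_congr rfl fun i _ => ?_
        rw [zsmul_eq_mul, map_mul, map_intCast]
      exact h3
    rw [h2, map_sum, ← Equiv.sum_comp E]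
    refine Finset.sum_congr rfl fun j _ => ?_
    rw [map_mul, map_intCast, mul_comm]
  have h1 := hc (Fin.snoc (fun j => (RingOfIntegers.basis K).repr ω (E j)) 1) H hH1 (by
      intro i
      refine Fin.lastCases ?_ (fun j => ?_) i
      · rw [Fin.snoc_last]
        simpa using hH1
      · rw [Fin.snoc_castSucc]
        exact hcoord ω (E j)) (by
      rw [hsum]
      exact sub_ne_zero.2 hω)
  rw [hsum] at h1
  have hpos : 0 < ‖σ (ω : K) - α‖ := norm_pos_iff.2 (sub_ne_zero.2 hω)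
  have h2 := Real.log_le_log hc0 h1
  have hHpos : 0 < H := by linarith
  rw [Real.log_mul (by positivity) hpos.ne', Real.log_pow, hH,
    Real.log_mul hC0.ne' (exp_pos _).ne', Real.log_exp] at h2
  rw [← hnK]
  push_cast at h2
  linarith

private theorem unitApprox_lower {ι : Type*} (D : Finset ι) (f : ι → ℝ)
    (hf : ∀ x ∈ D, 0 < f x) : ∃ s : ℝ, 0 < s ∧ ∀ x ∈ D, s ≤ f x := by
  rcases D.eq_empty_or_nonempty with rfl | hD
  · exact ⟨1, one_pos, by simp⟩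
  · obtain ⟨x, hx, hmin⟩ := D.exists_min_image f hD
    exact ⟨f x, hf x hx, hmin⟩

private theorem unitApprox_root (M : ℕ) (hM : 0 < M) (β : ℂ) (hβ : β ≠ 0) :
    ∃ (S : Finset ℂ) (C : ℝ), (∀ α ∈ S, α ^ M = β⁻¹) ∧ ∀ z : ℂ, 1 - β * z ^ M ≠ 0 →
      ∃ α ∈ S, z ≠ α ∧ -log ‖1 - β * z ^ M‖ ≤ -log ‖z - α‖ + C := by
  classical
  obtain ⟨α₀, hα₀⟩ := IsAlgClosed.exists_pow_nat_eq β⁻¹ hM
  have hα₀0 : α₀ ≠ 0 := by
    rintro rfl
    rw [zero_pow hM.ne'] at hα₀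
    exact inv_ne_zero hβ hα₀.symm
  set T := Polynomial.nthRootsFinset M (1 : ℂ) with hT
  have hprim := Complex.isPrimitiveRoot_exp M hM.ne'
  have hprod : ∀ z : ℂ, z ^ M - α₀ ^ M = ∏ ζ ∈ T, (z - ζ * α₀) := fun z =>
    hprim.pow_sub_pow_eq_prod_sub_mul z α₀ hM
  have hTne : T.Nonempty := ⟨1, by rw [hT, Polynomial.mem_nthRootsFinset hM]; simp⟩
  obtain ⟨s, hs0, hs⟩ := unitApprox_lower ((T ×ˢ T).filter fun q => q.1 ≠ q.2)
    (fun q => ‖q.1 * α₀ - q.2 * α₀‖) (by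
      intro q hq
      rw [Finset.mem_filter] at hq
      rw [← sub_mul]
      exact norm_pos_iff.2 (mul_ne_zero (sub_ne_zero.2 hq.2) hα₀0))
  refine ⟨T.image (fun ζ => ζ * α₀), -log ‖β‖ - ((T.card - 1 : ℕ) : ℝ) * log (s / 2), ?_, ?_⟩
  · intro α hα
    obtain ⟨ζ, hζ, rfl⟩ := Finset.mem_image.1 hα
    rw [hT, Polynomial.mem_nthRootsFinset hM] at hζ
    rw [mul_pow, hζ, one_mul, hα₀]
  · intro z hz
    obtain ⟨ζ, hζ, hmin⟩ := T.exists_min_image (fun ζ => ‖z - ζ * α₀‖) hTne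
    have heq : 1 - β * z ^ M = -β * ∏ ζ ∈ T, (z - ζ * α₀) := by
      rw [← hprod, hα₀]
      field_simp
      ring
    have hprodne : ∏ ζ ∈ T, (z - ζ * α₀) ≠ 0 := by
      intro h0
      rw [heq, h0, mul_zero] at hz
      exact hz rfl
    have hne : ∀ ζ' ∈ T, z - ζ' * α₀ ≠ 0 := fun ζ' hζ' => Finset.prod_ne_zero_iff.1 hprodne ζ' hζ'
    refine ⟨ζ * α₀, Finset.mem_image_of_mem _ hζ, sub_ne_zero.1 (hne ζ hζ), ?_⟩
    have hother : ∀ ζ' ∈ T.erase ζ, s / 2 ≤ ‖z - ζ' * α₀‖ := by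
      intro ζ' hζ'
      rw [Finset.mem_erase] at hζ'
      have h1 := hs (ζ', ζ) (Finset.mem_filter.2 ⟨Finset.mk_mem_product hζ'.2 hζ, hζ'.1⟩)
      simp only at h1
      have h2 := hmin ζ' hζ'.2
      have h3 : ‖ζ' * α₀ - ζ * α₀‖ ≤ ‖z - ζ' * α₀‖ + ‖z - ζ * α₀‖ := by
        calc ‖ζ' * α₀ - ζ * α₀‖ = ‖(z - ζ * α₀) - (z - ζ' * α₀)‖ := by congr 1; ring
          _ ≤ ‖z - ζ * α₀‖ + ‖z - ζ' * α₀‖ := norm_sub_le _ _
          _ = _ := add_comm _ _
      linarith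
    have hlow : ‖z - ζ * α₀‖ * (s / 2) ^ (T.card - 1) ≤ ∏ ζ ∈ T, ‖z - ζ * α₀‖ := by
      rw [← Finset.mul_prod_erase T _ hζ, ← Finset.card_erase_of_mem hζ]
      apply mul_le_mul_of_nonneg_left _ (norm_nonneg _)
      calc (s / 2) ^ (T.erase ζ).card = ∏ _ζ' ∈ T.erase ζ, (s / 2) := by
            rw [Finset.prod_const]
        _ ≤ _ := Finset.prod_le_prod (fun _ _ => by positivity) hother
    have hzpos : 0 < ‖z - ζ * α₀‖ := norm_pos_iff.2 (hne ζ hζ)
    rw [heq, norm_mul, norm_neg, norm_prod, Real.log_mul (norm_ne_zero_iff.2 hβ)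
      (Finset.prod_ne_zero_iff.2 fun ζ' hζ' => norm_ne_zero_iff.2 (hne ζ' hζ'))]
    have h4 := Real.log_le_log (by positivity) hlow
    rw [Real.log_mul hzpos.ne' (by positivity), Real.log_pow] at h4
    linarith

theorem unit_approx (θ : K) (hθ : θ ≠ 0) (δ : ℝ) (hδ : 0 < δ) :
    ∃ C : ℝ, ∀ (η : (𝓞 K)ˣ) (v : InfinitePlace K), θ * ((η : 𝓞 K) : K) ≠ 1 →
      -log (v (1 - θ * ((η : 𝓞 K) : K))) ≤ δ * logHeight₁ ((η : 𝓞 K) : K) + C := by
  classical
  set n : ℝ := (finrank ℚ K : ℝ) + 1 with hn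
  have hn0 : 0 < n := by positivity
  set M : ℕ := ⌈n / δ⌉₊ + 1 with hMdef
  have hM : 0 < M := Nat.succ_pos _
  have hMR : (0 : ℝ) < M := by exact_mod_cast hM
  have hMδ : n ≤ M * δ := by
    have h1 : n / δ ≤ M := by
      refine (Nat.le_ceil _).trans ?_
      rw [hMdef]
      push_cast
      linarith
    rwa [div_le_iff₀ hδ] at h1
  obtain ⟨R, hR⟩ := unitApprox_classes K M hM
  have hkey : ∀ (v : InfinitePlace K) (ρ : (𝓞 K)ˣ), ∃ C : ℝ, ∀ ω : (𝓞 K)ˣ,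
      θ * (((ρ : 𝓞 K) : K) * ((ω : 𝓞 K) : K) ^ M) ≠ 1 →
      -log (v (1 - θ * (((ρ : 𝓞 K) : K) * ((ω : 𝓞 K) : K) ^ M))) ≤
        n * logHeight₁ ((ω : 𝓞 K) : K) + C := by
    intro v ρ
    have hρ0 : ((ρ : 𝓞 K) : K) ≠ 0 := by
      intro h0
      exact ρ.ne_zero (by exact_mod_cast h0)
    have hβ : v.embedding (θ * ((ρ : 𝓞 K) : K)) ≠ 0 := (map_ne_zero _).2 (mul_ne_zero hθ hρ0)
    obtain ⟨S, C1, hS, hroot⟩ := unitApprox_root M hM _ hβ
    have hSalg : ∀ α ∈ S, IsAlgebraic ℚ α := by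
      intro α hα
      apply IsAlgebraic.of_pow hM
      rw [hS α hα]
      apply IsAlgebraic.inv
      exact (Algebra.IsAlgebraic.isAlgebraic (R := ℚ) _).algHom (RingHom.toRatAlgHom v.embedding)
    have hex : ∀ α : ℂ, ∃ C : ℝ, α ∈ S → ∀ ω : 𝓞 K, v.embedding (ω : K) ≠ α →
        -log ‖v.embedding (ω : K) - α‖ ≤ n * logHeight₁ (ω : K) + C := by
      intro α
      by_cases hα : α ∈ S
      · obtain ⟨C, hC⟩ := unitApprox_roth v.embedding α (hSalg α hα)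
        exact ⟨C, fun _ => hC⟩
      · exact ⟨0, fun h => absurd h hα⟩
    choose C2 hC2 using hex
    refine ⟨C1 + ∑ α ∈ S, |C2 α|, fun ω hω => ?_⟩
    have hne : 1 - v.embedding (θ * ((ρ : 𝓞 K) : K)) * v.embedding ((ω : 𝓞 K) : K) ^ M ≠ 0 := by
      rw [← map_pow, ← map_mul, mul_assoc]
      intro h0
      apply hω
      have h1 : v.embedding (1 - θ * (((ρ : 𝓞 K) : K) * ((ω : 𝓞 K) : K) ^ M)) = 0 := by
        rw [map_sub, map_one]
        exact h0
      rw [map_eq_zero] at h1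
      exact (sub_eq_zero.1 h1).symm
    obtain ⟨α, hαS, hzα, hle⟩ := hroot _ hne
    have h1 := hC2 α hαS (ω : 𝓞 K) hzα
    have h2 : C2 α ≤ ∑ α ∈ S, |C2 α| :=
      (le_abs_self _).trans (Finset.single_le_sum (f := fun α => |C2 α|)
        (fun _ _ => abs_nonneg _) hαS)
    have h3 : v (1 - θ * (((ρ : 𝓞 K) : K) * ((ω : 𝓞 K) : K) ^ M)) =
        ‖1 - v.embedding (θ * ((ρ : 𝓞 K) : K)) * v.embedding ((ω : 𝓞 K) : K) ^ M‖ := by
      rw [← InfinitePlace.norm_embedding_eq, map_sub, map_one, map_mul, map_mul, map_mul, map_pow,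
        mul_assoc]
    rw [h3]
    linarith
  choose Cv hCv using hkey
  refine ⟨∑ v : InfinitePlace K, ∑ ρ ∈ R, |Cv v ρ| +
    δ * ∑ ρ ∈ R, logHeight₁ ((ρ : 𝓞 K) : K), fun η v hη => ?_⟩
  obtain ⟨ρ, hρR, ω, rfl⟩ := hR η
  have hcast : (((ρ * ω ^ M : (𝓞 K)ˣ) : 𝓞 K) : K) = ((ρ : 𝓞 K) : K) * ((ω : 𝓞 K) : K) ^ M := by
    push_cast
    rfl
  rw [hcast] at hη ⊢
  have h1 := hCv v ρ ω hη
  have h2 : Cv v ρ ≤ ∑ v : InfinitePlace K, ∑ ρ ∈ R, |Cv v ρ| := by
    calc Cv v ρ ≤ |Cv v ρ| := le_abs_self _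
      _ ≤ ∑ ρ ∈ R, |Cv v ρ| := Finset.single_le_sum (f := fun ρ => |Cv v ρ|)
          (fun _ _ => abs_nonneg _) hρR
      _ ≤ _ := Finset.single_le_sum (f := fun v : InfinitePlace K => ∑ ρ ∈ R, |Cv v ρ|)
          (fun _ _ => Finset.sum_nonneg fun _ _ => abs_nonneg _) (Finset.mem_univ v)
  have h3 : logHeight₁ ((ρ : 𝓞 K) : K) ≤ ∑ ρ ∈ R, logHeight₁ ((ρ : 𝓞 K) : K) :=
    Finset.single_le_sum (f := fun ρ : (𝓞 K)ˣ => logHeight₁ ((ρ : 𝓞 K) : K))
      (fun _ _ => zero_le_logHeight₁ _) hρR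
  have hρ0 : ((ρ : 𝓞 K) : K) ≠ 0 := by
    intro h0
    exact ρ.ne_zero (by exact_mod_cast h0)
  have h4 : M * logHeight₁ ((ω : 𝓞 K) : K) ≤
      logHeight₁ (((ρ : 𝓞 K) : K) * ((ω : 𝓞 K) : K) ^ M) + logHeight₁ ((ρ : 𝓞 K) : K) := by
    rw [← logHeight₁_pow]
    have h5 : ((ω : 𝓞 K) : K) ^ M = (((ρ : 𝓞 K) : K) * ((ω : 𝓞 K) : K) ^ M) *
        (((ρ : 𝓞 K) : K))⁻¹ := by
      field_simp
    conv_lhs => rw [h5]
    refine (logHeight₁_mul_le _ _).trans ?_
    rw [logHeight₁_inv]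
  have h0 : 0 ≤ logHeight₁ ((ω : 𝓞 K) : K) := zero_le_logHeight₁ _
  have h6 : n * logHeight₁ ((ω : 𝓞 K) : K) ≤ δ * (M * logHeight₁ ((ω : 𝓞 K) : K)) := by
    have := mul_le_mul_of_nonneg_right hMδ h0
    linarith
  have h7 := mul_le_mul_of_nonneg_left h4 hδ.le
  have h8 := mul_le_mul_of_nonneg_left h3 hδ.le
  linarith

end Pool.Agent.CITNF
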