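import Pool.Agent.CITNF.Places
import Pool.Agent.CITNF.Basic
import Pool.Agent.CITNF.UnitApprox

set_option autoImplicit false

/-! P5. From units to elements with bounded finite weights.
sunit_approx: z = 1 - x has hf z, hf z⁻¹ <= B. Only the finitely many places with lN v <= B can have
v z <> 1 (`exists_ord`, `finite_lN_le`), with exponents bounded by B / log 2: finitely many exponent
patterns; choose one representative θ for each realised pattern; then z/θ has v = 1 at all finite places,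
so z = θ η with a unit η (`exists_unit`). Apply `unit_approx θ (δ/n)`; logHeight₁ η <= logHeight₁ z +
logHeight₁ θ <= logHeight₁ x + C; v x = v (1 - θ η); sum over the infinite places (total multiplicity n).
sunit_finite: δ = 1/2, logHeight₁ x = logHeight₁ x⁻¹ = hi x⁻¹ + hf x⁻¹, hf (1-x) <= hf x. -/

namespace Pool.Agent.CITNF

open NumberField Height Real Module

/-- Bounds for the values at finite places. -/
private theorem sunit_abs_log_le {K : Type} [Field K] [NumberField K] {B : ℝ} {z : K}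
    (h1 : hf z ≤ B) (h2 : hf z⁻¹ ≤ B) (v : FinitePlace K) : |log (v z)| ≤ B := by
  have h3 : log⁺ (v z) ≤ hf z :=
    single_le_finsum v (hf_support z) fun _ => posLog_nonneg
  have h4 : log⁺ (v z⁻¹) ≤ hf z⁻¹ :=
    single_le_finsum v (hf_support z⁻¹) fun _ => posLog_nonneg
  have h5 : log (v z) ≤ log⁺ (v z) := le_max_right _ _
  have h6 : -log (v z) ≤ log⁺ (v z⁻¹) := by
    rw [map_inv₀, ← Real.log_inv]
    exact le_max_right _ _
  rw [abs_le]
  constructor <;> linarith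

theorem sunit_approx (K : Type) [Field K] [NumberField K] (B δ : ℝ) (hδ : 0 < δ) :
    ∃ C : ℝ, ∀ x : K, x ≠ 0 → x ≠ 1 → hf (1 - x) ≤ B → hf (1 - x)⁻¹ ≤ B →
      hi x⁻¹ ≤ δ * logHeight₁ x + C := by
  classical
  have hn : (0 : ℝ) < finrank ℚ K := by exact_mod_cast finrank_pos
  set n : ℝ := (finrank ℚ K : ℝ) with hndef
  have hlog2 : 0 < log 2 := Real.log_pos (by norm_num)
  -- the exponents
  have hk0 : ∀ (z : K) (v : FinitePlace K), ∃ k : ℤ, z ≠ 0 → log (v z) = k * lN v := by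
    intro z v
    by_cases hz : z = 0
    · exact ⟨0, fun h => absurd hz h⟩
    · obtain ⟨k, hk⟩ := exists_ord v z hz
      exact ⟨k, fun _ => hk⟩
  choose k hk using hk0
  have hSfin := finite_lN_le (K := K) B
  let S : Type := {v : FinitePlace K // lN v ≤ B}
  haveI : Finite S := hSfin
  let T : Set K := {z | z ≠ 0 ∧ hf z ≤ B ∧ hf z⁻¹ ≤ B}
  let P : K → S → ℤ := fun z v => k z v.1
  set M : ℤ := ⌈B / log 2⌉ with hM
  have hPfin : (P '' T).Finite := by
    have h1 : (Set.pi Set.univ fun _ : S => Set.Icc (-M) M).Finite :=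
      Set.Finite.pi fun _ => Set.finite_Icc _ _
    refine h1.subset ?_
    rintro _ ⟨z, ⟨hz0, hz1, hz2⟩, rfl⟩ v _
    have h2 := sunit_abs_log_le hz1 hz2 v.1
    rw [hk z v.1 hz0, abs_mul] at h2
    have h3 : log 2 ≤ |lN v.1| := (log_two_le_lN v.1).trans (le_abs_self _)
    have h4 : |((k z v.1 : ℤ) : ℝ)| ≤ B / log 2 := by
      rw [le_div_iff₀ hlog2]
      exact (mul_le_mul_of_nonneg_left h3 (abs_nonneg _)).trans h2
    have h5 : |((k z v.1 : ℤ) : ℝ)| ≤ (M : ℝ) := h4.trans (Int.le_ceil _)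
    have h6 : |k z v.1| ≤ M := by exact_mod_cast h5
    exact Set.mem_Icc.2 (abs_le.1 h6)
  -- representatives
  have hrep : ∀ p : S → ℤ, ∃ θ : K, θ ≠ 0 ∧ (p ∈ P '' T → θ ∈ T ∧ P θ = p) := by
    intro p
    by_cases hp : p ∈ P '' T
    · obtain ⟨z, hz, hzp⟩ := hp
      exact ⟨z, hz.1, fun _ => ⟨hz, hzp⟩⟩
    · exact ⟨1, one_ne_zero, fun h => absurd h hp⟩
  choose θ hθ0 hθ using hrep
  have hδ' : 0 < δ / n := div_pos hδ hn
  have hC0 : ∀ p : S → ℤ, ∃ C : ℝ, ∀ (η : (𝓞 K)ˣ) (v : InfinitePlace K),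
      θ p * ((η : 𝓞 K) : K) ≠ 1 → -log (v (1 - θ p * ((η : 𝓞 K) : K))) ≤
        δ / n * logHeight₁ ((η : 𝓞 K) : K) + C := fun p => unit_approx (θ p) (hθ0 p) (δ / n) hδ'
  choose C₁ hC₁ using hC0
  obtain ⟨C, hC⟩ := (hPfin.image fun p =>
    δ * (n * log 2 + logHeight₁ (θ p)) + n * |C₁ p|).bddAbove
  refine ⟨C, fun x hx0 hx1 hz1 hz2 => ?_⟩
  have hz0 : (1 : K) - x ≠ 0 := sub_ne_zero.2 (Ne.symm hx1)
  set z : K := 1 - x with hz
  have hzT : z ∈ T := ⟨hz0, hz1, hz2⟩
  set p : S → ℤ := P z with hp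
  have hpT : p ∈ P '' T := ⟨z, hzT, rfl⟩
  obtain ⟨hθT, hPθ⟩ := hθ p hpT
  have hval : ∀ v : FinitePlace K, v z = v (θ p) := by
    intro v
    have hvz : 0 < v z := FinitePlace.pos_iff.2 hz0
    have hvθ : 0 < v (θ p) := FinitePlace.pos_iff.2 (hθ0 p)
    have hkz : k z v * lN v = k (θ p) v * lN v := by
      by_cases hv : lN v ≤ B
      · have h1 := congrFun hPθ ⟨v, hv⟩
        have h2 : k (θ p) v = k z v := h1
        rw [h2]
      · push Not at hv
        have hzero : ∀ w : K, w ∈ T → k w v = 0 := by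
          intro w hw
          have h2 := sunit_abs_log_le hw.2.1 hw.2.2 v
          rw [hk w v hw.1, abs_mul] at h2
          by_contra hkw
          have h3 : (1 : ℝ) ≤ |((k w v : ℤ) : ℝ)| := by
            have h4 : 1 ≤ |k w v| := Int.one_le_abs hkw
            exact_mod_cast h4
          have h5 : B < |lN v| := lt_of_lt_of_le hv (le_abs_self _)
          have h6 : |lN v| ≤ |((k w v : ℤ) : ℝ)| * |lN v| :=
            le_mul_of_one_le_left (abs_nonneg _) h3
          linarith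
        rw [hzero z hzT, hzero (θ p) hθT]
    have h3 : log (v z) = log (v (θ p)) := by
      rw [hk z v hz0, hk (θ p) v (hθ0 p), hkz]
    exact Real.log_injOn_pos hvz hvθ h3
  obtain ⟨η, hη⟩ := exists_unit (z / θ p) fun v => by
    rw [map_div₀, hval v, div_self (FinitePlace.pos_iff.2 (hθ0 p)).ne']
  have hzη : θ p * ((η : 𝓞 K) : K) = z := by
    rw [hη, mul_div_cancel₀ _ (hθ0 p)]
  have hx : x = 1 - θ p * ((η : 𝓞 K) : K) := by rw [hzη, hz, sub_sub_cancel]
  have hne : θ p * ((η : 𝓞 K) : K) ≠ 1 := by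
    rw [hzη, hz]
    intro h1
    apply hx0
    rw [sub_eq_self] at h1
    exact h1
  have hηh : logHeight₁ ((η : 𝓞 K) : K) ≤ logHeight₁ x + n * log 2 + logHeight₁ (θ p) := by
    rw [hη, div_eq_mul_inv]
    refine (logHeight₁_mul_le _ _).trans ?_
    rw [logHeight₁_inv]
    have h1 := height_one_sub_le x
    linarith
  have hh0 : ∀ w : K, 0 ≤ logHeight₁ w := fun w => by
    rw [lh_eq]
    exact add_nonneg (hi_nonneg w) (hf_nonneg w)
  set R : ℝ := δ / n * (logHeight₁ x + n * log 2 + logHeight₁ (θ p)) + |C₁ p| with hR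
  have hR0 : 0 ≤ R := by
    have h1 := hh0 x
    have h2 := hh0 (θ p)
    have h3 := mul_nonneg hn.le hlog2.le
    exact add_nonneg (mul_nonneg hδ'.le (by linarith)) (abs_nonneg _)
  have hpl : ∀ v : InfinitePlace K, log⁺ (v x⁻¹) ≤ R := by
    intro v
    rw [posLog_apply, map_inv₀, Real.log_inv]
    refine max_le hR0 ?_
    have h1 := hC₁ p η v hne
    rw [← hx] at h1
    have h2 := mul_le_mul_of_nonneg_left hηh hδ'.le
    have h3 := le_abs_self (C₁ p)
    linarith
  have hmult : ∑ v : InfinitePlace K, (v.mult : ℝ) = n := by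
    rw [hndef]
    exact_mod_cast InfinitePlace.sum_mult_eq (K := K)
  have h1 : hi x⁻¹ ≤ n * R := by
    calc hi x⁻¹ ≤ ∑ v : InfinitePlace K, (v.mult : ℝ) * R :=
          Finset.sum_le_sum fun v _ => mul_le_mul_of_nonneg_left (hpl v) (Nat.cast_nonneg _)
      _ = n * R := by rw [← Finset.sum_mul, hmult]
  have h2 : n * R = δ * logHeight₁ x + (δ * (n * log 2 + logHeight₁ (θ p)) + n * |C₁ p|) := by
    rw [hR]
    field_simp
    ring
  have h3 : δ * (n * log 2 + logHeight₁ (θ p)) + n * |C₁ p| ≤ C := hC ⟨p, hpT, rfl⟩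
  linarith

theorem sunit_finite (K : Type) [Field K] [NumberField K] (B : ℝ) :
    ∃ C : ℝ, ∀ x : K, x ≠ 0 → x ≠ 1 → hf x ≤ B → hf x⁻¹ ≤ B → hf (1 - x)⁻¹ ≤ B →
      logHeight₁ x ≤ C := by
  obtain ⟨C, hC⟩ := sunit_approx K B (1 / 2) (by norm_num)
  refine ⟨2 * (C + B), fun x hx0 hx1 h1 h2 h3 => ?_⟩
  have h4 := hC x hx0 hx1 ((hf_one_sub_le x).trans h1) h3
  have h5 : logHeight₁ x = hi x⁻¹ + hf x⁻¹ := by rw [← lh_eq, logHeight₁_inv]
  linarith

end Pool.Agent.CITNF
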