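import Pool.Agent.CITNF.FarExp
import Pool.Agent.CITNF.FarHeight
import Pool.Agent.CITNF.SUnit

set_option autoImplicit false

/-! P10. If h(x) >= C then `ratio2` gives 200|A-D| <= N+D, so 21N <= 20D, 10D <= 11A, 10A <= 11D.
Cases: a good place for x (2^n v x < 1): far2_exp + far2_height. A good place for 1-x: the same for
NP2.flip. A place with v x > 2^n: the same for NP2.inv (A = D). None: every finite v with v x <> 1 or
v(1-x) <> 1 has lN v <= n log 2 and |log v| <= n log 2, so hf x, hf x⁻¹, hf (1-x)⁻¹ <= B and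
`sunit_finite`. -/

namespace Pool.Agent.CITNF

open NumberField Height Real Module

/-- elements with bounded values at the finite places have bounded finite height -/
private theorem far2_hf_le (K : Type) [Field K] [NumberField K] (z : K) (hz : z ≠ 0)
    (h : ∀ v : FinitePlace K, v z ≤ 2 ^ (finrank ℚ K)) :
    hf z ≤ (finite_lN_le (K := K) (finrank ℚ K * log 2)).toFinset.card *
      (finrank ℚ K * log 2) := by
  classical
  have hlog : ∀ v : FinitePlace K, log⁺ (v z) ≤ finrank ℚ K * log 2 := by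
    intro v
    rw [posLog_def]
    refine max_le (by positivity) ?_
    have h0 : 0 < v z := by
      have := (v.1).pos hz
      exact this
    calc log (v z) ≤ log (2 ^ (finrank ℚ K)) := log_le_log h0 (h v)
      _ = finrank ℚ K * log 2 := by rw [log_pow]
  have hsupp : (Function.support fun v : FinitePlace K => log⁺ (v z)) ⊆
      ((finite_lN_le (K := K) (finrank ℚ K * log 2)).toFinset : Set (FinitePlace K)) := by
    intro v hv
    rw [Function.mem_support] at hv
    rw [Set.Finite.coe_toFinset]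
    show lN v ≤ finrank ℚ K * log 2
    have h1 : 0 < log⁺ (v z) := lt_of_le_of_ne posLog_nonneg (Ne.symm hv)
    have h2 : 0 < log (v z) := by
      by_contra hcon
      push Not at hcon
      have h1' : 0 < max 0 (log (v z)) := h1
      rw [max_eq_left hcon] at h1'
      exact lt_irrefl _ h1'
    obtain ⟨k, hk⟩ := exists_ord v z hz
    have hl2 : 0 < log 2 := log_pos one_lt_two
    have hlN : 0 < lN v := hl2.trans_le (log_two_le_lN v)
    have hk0 : 0 < k := by
      rw [hk] at h2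
      by_contra hcon
      push Not at hcon
      have : (k : ℝ) ≤ 0 := by exact_mod_cast hcon
      nlinarith
    have hk1 : (1 : ℝ) ≤ k := by exact_mod_cast hk0
    have h3 : lN v ≤ log (v z) := by
      rw [hk]
      nlinarith
    have h4 : log (v z) ≤ log⁺ (v z) := by
      rw [posLog_def]
      exact le_max_right _ _
    exact h3.trans (h4.trans (hlog v))
  unfold hf
  rw [finsum_eq_sum_of_support_subset _ hsupp]
  refine (Finset.sum_le_card_nsmul _ _ _ fun v _ => hlog v).trans ?_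
  rw [nsmul_eq_mul]

theorem far2 (K : Type) [Field K] [NumberField K] :
    ∃ C : ℝ, ∀ (x y : K) (N A D : ℕ), NP2 x y N A D → 17 * N ≤ 16 * A →
    logHeight₁ x ≤ C := by
  obtain ⟨C₁, hC₁⟩ := ratio2 K
  obtain ⟨P, hP⟩ := far2_exp K
  obtain ⟨C₂, hC₂⟩ := far2_height K P
  obtain ⟨C₃, hC₃⟩ := sunit_finite K
    ((finite_lN_le (K := K) (finrank ℚ K * log 2)).toFinset.card * (finrank ℚ K * log 2))
  refine ⟨max C₁ (max (C₂ + finrank ℚ K * log 2) C₃), ?_⟩
  intro x y N A D h hNA
  have hlog2 : (0 : ℝ) ≤ finrank ℚ K * log 2 := by positivity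
  by_cases hx : logHeight₁ x ≤ C₁
  · exact hx.trans (le_max_left _ _)
  push Not at hx
  refine le_trans ?_ (le_max_right _ _)
  have hA0 := h.A0
  have hr := hC₁ x y N A D h (by omega) hx.le
  -- the ratios
  have hr1 : 200 * ((A : ℤ) - D) ≤ N + D := by
    have h1 : 200 * ((A : ℝ) - D) ≤ N + D :=
      (mul_le_mul_of_nonneg_left (le_abs_self _) (by norm_num)).trans hr
    exact_mod_cast h1
  have hr2 : 200 * ((D : ℤ) - A) ≤ N + D := by
    have h1 : 200 * ((D : ℝ) - A) ≤ N + D := by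
      have := (mul_le_mul_of_nonneg_left (neg_abs_le ((A : ℝ) - D)) (by norm_num : (0 : ℝ) ≤ 200))
      linarith
    exact_mod_cast h1
  have e1 : 21 * N ≤ 20 * A := by omega
  have e2 : 21 * N ≤ 20 * D := by omega
  have e3 : 10 * D ≤ 11 * A := by omega
  have e4 : 10 * A ≤ 11 * D := by omega
  by_cases c1 : ∃ v : FinitePlace K, 2 ^ (finrank ℚ K) * v x < 1
  · obtain ⟨h1, h2⟩ := hP x y N A D h c1 e1 e2 e3
    have := hC₂ x y N A D h e1 e2 h1 h2
    exact le_trans (by linarith) (le_max_left _ _)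
  by_cases c2 : ∃ v : FinitePlace K, 2 ^ (finrank ℚ K) * v (1 - x) < 1
  · obtain ⟨h1, h2⟩ := hP (1 - x) (1 - y) N D A h.flip c2 e2 e1 e4
    have h3 := hC₂ (1 - x) (1 - y) N D A h.flip e2 e1 h1 h2
    have h4 := height_le_one_sub x
    exact le_trans (by linarith) (le_max_left _ _)
  by_cases c3 : ∃ v : FinitePlace K, 2 ^ (finrank ℚ K) < v x
  · obtain ⟨v, hv⟩ := c3
    have hv1 : 1 < v x := lt_of_le_of_lt (one_le_pow₀ (by norm_num)) hv
    obtain ⟨_, h'⟩ := h.inv ⟨v, hv1⟩
    have hpos : (0 : ℝ) < 2 ^ (finrank ℚ K) := by positivity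
    have c3' : ∃ v : FinitePlace K, 2 ^ (finrank ℚ K) * v x⁻¹ < 1 := by
      refine ⟨v, ?_⟩
      rw [map_inv₀, ← div_eq_mul_inv, div_lt_one (by linarith)]
      exact hv
    obtain ⟨h1, h2⟩ := hP x⁻¹ y⁻¹ (2 * N) (2 * A) (2 * D) h' c3' (by omega) (by omega) (by omega)
    have h3 := hC₂ x⁻¹ y⁻¹ (2 * N) (2 * A) (2 * D) h' (by omega) (by omega) h1 h2
    rw [logHeight₁_inv] at h3
    exact le_trans (by linarith) (le_max_left _ _)
  push Not at c1 c2 c3
  have hpos : (0 : ℝ) < 2 ^ (finrank ℚ K) := by positivity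
  have hx1 : 1 - x ≠ 0 := sub_ne_zero.mpr (Ne.symm h.x1)
  have hvpos : ∀ (v : FinitePlace K) (z : K), z ≠ 0 → 0 < v z := fun v z hz => (v.1).pos hz
  refine le_trans ?_ (le_max_right _ _)
  refine hC₃ x h.x0 h.x1 ?_ ?_ ?_
  · exact far2_hf_le K x h.x0 c3
  · refine far2_hf_le K x⁻¹ (inv_ne_zero h.x0) fun v => ?_
    rw [map_inv₀, inv_le_comm₀ (hvpos v x h.x0) hpos, inv_le_iff_one_le_mul₀ hpos, mul_comm]
    exact c1 v
  · refine far2_hf_le K (1 - x)⁻¹ (inv_ne_zero hx1) fun v => ?_
    rw [map_inv₀, inv_le_comm₀ (hvpos v _ hx1) hpos, inv_le_iff_one_le_mul₀ hpos, mul_comm]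
    exact c2 v

end Pool.Agent.CITNF
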