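import Pool.Agent.CITNF.Two
import Pool.Agent.CITNF.LTE

set_option autoImplicit false

/-! P8. Bounded exponents. Reduce A/N = p/q, D/N = p'/q' (p = A / A.gcd N etc.), t = p/q, n = [K:Q].
Good place v for x (2^n v x < 1): v(y)^N = v(x)^A, A >= N, so v y <= v x is good too; `lte_rel` (or `lte` on both sides):
v(N) v(y) = v(D) v(x), so (t-1)(-log v x) = -log v(p') + log v(q') <= n log p'. And N ord(y) = A ord(x)
(`exists_ord`) gives q | ord(x), so -log v x >= q log 2. Hence (p - q) log 2 <= n log p', and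
21 q <= 20 p gives (p/21) log 2 <= n log p'.                                                    (1)
Some v' has v'(1-x) < 1 (t2). If 2^n v'(1-x) < 1: the same for the flipped pair (NP2.flip):
(p'/21) log 2 <= n log p. Otherwise q' log 2 <= -log v'(1-x) <= n log 2, so q' <= n and
p' = (D/N) q' <= (11/10)(A/N) n <= 2 n p.                                                       (2)
(1) and (2) bound p and p' in terms of n. -/

namespace Pool.Agent.CITNF

open NumberField Height Real Module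

private theorem farExp_ord {K : Type} [Field K] [NumberField K] (v : FinitePlace K) (x y : K)
    (hx0 : x ≠ 0) (hy0 : y ≠ 0) (N A : ℕ) (hN : 0 < N) (hA : 0 < A) (h : y ^ N = x ^ A)
    (hv : v x < 1) : ((N / A.gcd N : ℕ) : ℝ) * log 2 ≤ -log (v x) := by
  obtain ⟨k, hk⟩ := exists_ord v x hx0
  obtain ⟨k', hk'⟩ := exists_ord v y hy0
  have hl := log_two_le_lN v
  have hl2 : (0 : ℝ) < log 2 := log_pos (by norm_num)
  have hlpos : 0 < lN v := lt_of_lt_of_le hl2 hl
  have hvx : 0 < v x := FinitePlace.pos_iff.2 hx0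
  have h1 : (N : ℝ) * log (v y) = A * log (v x) := by
    have := congrArg (fun z => log (v z)) h
    simpa [map_pow, Real.log_pow] using this
  have hneg : log (v x) < 0 := Real.log_neg hvx hv
  have h2 : (N : ℝ) * k' = A * k := by
    rw [hk, hk'] at h1
    have : ((N : ℝ) * k' - A * k) * lN v = 0 := by linear_combination h1
    rcases mul_eq_zero.1 this with h | h
    · linarith
    · exact absurd h hlpos.ne'
  have h3 : (N : ℤ) * k' = A * k := by exact_mod_cast h2
  have hg : 0 < A.gcd N := Nat.gcd_pos_of_pos_left _ hA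
  obtain ⟨p, q, hpq, hAp, hNq⟩ := Nat.exists_coprime A N
  have hq : N / A.gcd N = q := Nat.div_eq_of_eq_mul_left hg hNq
  rw [hq]
  have h4 : (q : ℤ) * k' = p * k := by
    have hgz : ((A.gcd N : ℕ) : ℤ) ≠ 0 := by exact_mod_cast hg.ne'
    apply mul_right_cancel₀ hgz
    have e1 : (N : ℤ) = q * (A.gcd N : ℕ) := by exact_mod_cast hNq
    have e2 : (A : ℤ) = p * (A.gcd N : ℕ) := by exact_mod_cast hAp
    calc (q : ℤ) * k' * (A.gcd N : ℕ) = (q * (A.gcd N : ℕ)) * k' := by ring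
      _ = N * k' := by rw [← e1]
      _ = A * k := h3
      _ = (p * (A.gcd N : ℕ)) * k := by rw [← e2]
      _ = (p : ℤ) * k * (A.gcd N : ℕ) := by ring
  have h5 : (q : ℤ) ∣ k := by
    have hcop : IsCoprime (q : ℤ) (p : ℤ) := (Nat.isCoprime_iff_coprime.2 hpq).symm
    exact hcop.dvd_of_dvd_mul_left ⟨k', h4.symm⟩
  have hkneg : k < 0 := by
    rw [hk] at hneg
    by_contra hcon
    have : (0 : ℝ) ≤ k := by exact_mod_cast not_lt.1 hcon
    nlinarith
  have h6 : (q : ℤ) ≤ -k := Int.le_of_dvd (by omega) (h5.trans (dvd_neg.2 dvd_rfl))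
  have h7 : (q : ℝ) ≤ -k := by exact_mod_cast h6
  rw [hk]
  calc (q : ℝ) * log 2 ≤ (-k) * lN v :=
        mul_le_mul h7 hl hl2.le (le_trans (Nat.cast_nonneg q) h7)
    _ = -(k * lN v) := by ring

private theorem farExp_core {K : Type} [Field K] [NumberField K] (v : FinitePlace K) (x y : K)
    (N A D : ℕ) (h : NP2 x y N A D) (hv : 2 ^ (finrank ℚ K) * v x < 1) (hA : 21 * N ≤ 20 * A) :
    ((A / A.gcd N : ℕ) : ℝ) * log 2 ≤
      21 * ((finrank ℚ K : ℝ) * log ((D / D.gcd N : ℕ) : ℝ)) := by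
  have hl2 : (0 : ℝ) < log 2 := log_pos (by norm_num)
  have hvx0 : 0 < v x := FinitePlace.pos_iff.2 h.x0
  have hvy0 : 0 < v y := FinitePlace.pos_iff.2 h.y0
  have h2n : (1 : ℝ) ≤ 2 ^ (finrank ℚ K) := one_le_pow₀ (by norm_num)
  have hvx1 : v x < 1 := lt_of_le_of_lt (by nlinarith) hv
  have hNA : N ≤ A := by omega
  have hpow : v y ^ N = v x ^ A := by rw [← map_pow, ← map_pow, h.hy]
  have hvyx : v y ≤ v x := by
    have : v y ^ N ≤ v x ^ N := by
      rw [hpow]; exact pow_le_pow_of_le_one hvx0.le hvx1.le hNA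
    exact (pow_le_pow_iff_left₀ hvy0.le hvx0.le h.N0.ne').1 this
  have hvy : 2 ^ (finrank ℚ K) * v y < 1 :=
    lt_of_le_of_lt (mul_le_mul_of_nonneg_left hvyx (by positivity)) hv
  have hrel := lte_rel v x y hv hvy N (D : ℤ) (by rw [zpow_natCast]; exact h.hy1)
  rw [Int.natAbs_natCast] at hrel
  have hg : 0 < A.gcd N := Nat.gcd_pos_of_pos_left _ h.A0
  have hg' : 0 < D.gcd N := Nat.gcd_pos_of_pos_left _ h.D0
  have hord := farExp_ord v x y h.x0 h.y0 N A h.N0 h.A0 h.hy hvx1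
  obtain ⟨p, q, hpq, hAp, hNq⟩ := Nat.exists_coprime A N
  obtain ⟨p', q', hpq', hDp', hNq'⟩ := Nat.exists_coprime D N
  have hp : A / A.gcd N = p := Nat.div_eq_of_eq_mul_left hg hAp
  have hq : N / A.gcd N = q := Nat.div_eq_of_eq_mul_left hg hNq
  have hp' : D / D.gcd N = p' := Nat.div_eq_of_eq_mul_left hg' hDp'
  rw [hp, hp']
  rw [hq] at hord
  have hq0 : 0 < q := by
    rcases Nat.eq_zero_or_pos q with h0 | h0
    · rw [h0, zero_mul] at hNq; exact absurd hNq h.N0.ne'
    · exact h0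
  have hq'0 : 0 < q' := by
    rcases Nat.eq_zero_or_pos q' with h0 | h0
    · rw [h0, zero_mul] at hNq'; exact absurd hNq' h.N0.ne'
    · exact h0
  have hp'0 : 0 < p' := by
    rcases Nat.eq_zero_or_pos p' with h0 | h0
    · rw [h0, zero_mul] at hDp'; exact absurd hDp' h.D0.ne'
    · exact h0
  have hvg : 0 < v ((D.gcd N : ℕ) : K) := FinitePlace.pos_iff.2 (by exact_mod_cast hg'.ne')
  have hvq : 0 < v (q' : K) := FinitePlace.pos_iff.2 (by exact_mod_cast hq'0.ne')
  have hvp : 0 < v (p' : K) := FinitePlace.pos_iff.2 (by exact_mod_cast hp'0.ne')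
  have hrel2 : v (q' : K) * v y = v (p' : K) * v x := by
    have e1 : (N : K) = (q' : K) * ((D.gcd N : ℕ) : K) := by exact_mod_cast congrArg (Nat.cast (R := K)) hNq'
    have e2 : (D : K) = (p' : K) * ((D.gcd N : ℕ) : K) := by exact_mod_cast congrArg (Nat.cast (R := K)) hDp'
    rw [e1, e2, map_mul, map_mul] at hrel
    apply mul_right_cancel₀ hvg.ne'
    linear_combination hrel
  have hlog : log (v (q' : K)) + log (v y) = log (v (p' : K)) + log (v x) := by
    rw [← Real.log_mul hvq.ne' hvy0.ne', ← Real.log_mul hvp.ne' hvx0.ne', hrel2]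
  have hlogpow : (N : ℝ) * log (v y) = A * log (v x) := by
    rw [← Real.log_pow, ← Real.log_pow, hpow]
  have hq1 : log (v (q' : K)) ≤ 0 := Real.log_nonpos hvq.le (natCast_le_one v q')
  have hnp := neg_log_natCast_le v p' hp'0.ne'
  have hNr : (0 : ℝ) < N := by exact_mod_cast h.N0
  have hAr : (21 : ℝ) * N ≤ 20 * A := by exact_mod_cast hA
  -- (A - N) * (-log v x) ≤ N * n * log p'
  have key : ((A : ℝ) - N) * (-log (v x)) ≤ N * ((finrank ℚ K : ℝ) * log p') := by
    have e : ((A : ℝ) - N) * (-log (v x)) = N * (-log (v (p' : K)) + log (v (q' : K))) := by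
      linear_combination (-(N : ℝ)) * hlog + hlogpow
    rw [e]
    apply mul_le_mul_of_nonneg_left _ hNr.le
    linarith
  have key2 : ((A : ℝ) - N) * (q * log 2) ≤ N * ((finrank ℚ K : ℝ) * log p') := by
    refine le_trans (mul_le_mul_of_nonneg_left hord ?_) key
    linarith
  have eA : (A : ℝ) = p * (A.gcd N : ℕ) := by exact_mod_cast hAp
  have eN : (N : ℝ) = q * (A.gcd N : ℕ) := by exact_mod_cast hNq
  have hgr : (0 : ℝ) < (A.gcd N : ℕ) := by exact_mod_cast hg
  have hqr : (0 : ℝ) < q := by exact_mod_cast hq0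
  have key3 : ((p : ℝ) - q) * log 2 ≤ (finrank ℚ K : ℝ) * log p' := by
    have hpos : (0 : ℝ) < q * (A.gcd N : ℕ) := mul_pos hqr hgr
    have : (((p : ℝ) - q) * log 2) * (q * (A.gcd N : ℕ)) ≤
        ((finrank ℚ K : ℝ) * log p') * (q * (A.gcd N : ℕ)) := by
      calc (((p : ℝ) - q) * log 2) * (q * (A.gcd N : ℕ))
          = (p * (A.gcd N : ℕ) - q * (A.gcd N : ℕ)) * (q * log 2) := by ring
        _ = ((A : ℝ) - N) * (q * log 2) := by rw [← eA, ← eN]
        _ ≤ N * ((finrank ℚ K : ℝ) * log p') := key2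
        _ = ((finrank ℚ K : ℝ) * log p') * (q * (A.gcd N : ℕ)) := by
            rw [mul_comm ((finrank ℚ K : ℝ) * log p'), ← eN]
    exact le_of_mul_le_mul_right this hpos
  have hpq20 : (21 : ℝ) * q ≤ 20 * p := by
    have : (21 * (q : ℝ)) * (A.gcd N : ℕ) ≤ (20 * p) * (A.gcd N : ℕ) := by
      calc (21 * (q : ℝ)) * (A.gcd N : ℕ) = 21 * (q * (A.gcd N : ℕ)) := by ring
        _ = 21 * N := by rw [← eN]
        _ ≤ 20 * A := hAr
        _ = 20 * (p * (A.gcd N : ℕ)) := by rw [← eA]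
        _ = (20 * p) * (A.gcd N : ℕ) := by ring
    exact le_of_mul_le_mul_right this hgr
  nlinarith

/-- `log z ≤ z / (2 c) + log (2 c)` -/
private theorem farExp_log (c z : ℝ) (hc : 0 < c) (hz : 0 < z) :
    c * log z ≤ z / 2 + c * log (2 * c) := by
  have h1 : log z = log (z / (2 * c)) + log (2 * c) := by
    rw [Real.log_div hz.ne' (by positivity)]; ring
  have h2 : log (z / (2 * c)) ≤ z / (2 * c) := by
    have := Real.log_le_sub_one_of_pos (show 0 < z / (2 * c) by positivity)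
    linarith
  calc c * log z = c * log (z / (2 * c)) + c * log (2 * c) := by rw [h1]; ring
    _ ≤ c * (z / (2 * c)) + c * log (2 * c) := by gcongr
    _ = z / 2 + c * log (2 * c) := by field_simp

theorem far2_exp (K : Type) [Field K] [NumberField K] :
    ∃ P : ℕ, ∀ (x y : K) (N A D : ℕ), NP2 x y N A D →
    (∃ v : FinitePlace K, 2 ^ (finrank ℚ K) * v x < 1) → 21 * N ≤ 20 * A → 21 * N ≤ 20 * D →
    10 * D ≤ 11 * A → A / A.gcd N ≤ P ∧ D / D.gcd N ≤ P := by
  have hl2 : (0 : ℝ) < log 2 := log_pos (by norm_num)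
  have hn : 0 < finrank ℚ K := finrank_pos
  set n := finrank ℚ K with hn_def
  have hnr : (0 : ℝ) < n := by exact_mod_cast hn
  set c : ℝ := 21 * n / log 2 with hc_def
  have hc : 0 < c := by positivity
  set B1 : ℝ := 4 * (c * log (2 * c)) with hB1
  set B2 : ℝ := 2 * (c * log (2 * n) + c * log (2 * c)) with hB2
  refine ⟨⌈B1⌉₊ + (2 * n + 1) * ⌈B2⌉₊, ?_⟩
  intro x y N A D h hv hA hD hDA
  obtain ⟨v, hv⟩ := hv
  have h1 := farExp_core v x y N A D h hv hA
  have hg : 0 < A.gcd N := Nat.gcd_pos_of_pos_left _ h.A0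
  have hg' : 0 < D.gcd N := Nat.gcd_pos_of_pos_left _ h.D0
  have hpN : 0 < A / A.gcd N := Nat.div_pos (Nat.le_of_dvd h.A0 (Nat.gcd_dvd_left _ _)) hg
  have hpN' : 0 < D / D.gcd N := Nat.div_pos (Nat.le_of_dvd h.D0 (Nat.gcd_dvd_left _ _)) hg'
  have hpA : A / A.gcd N * A.gcd N = A := Nat.div_mul_cancel (Nat.gcd_dvd_left _ _)
  have hpD : D / D.gcd N * D.gcd N = D := Nat.div_mul_cancel (Nat.gcd_dvd_left _ _)
  have hqN : N / D.gcd N * D.gcd N = N := Nat.div_mul_cancel (Nat.gcd_dvd_right _ _)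
  have hgN : A.gcd N ≤ N := Nat.le_of_dvd h.N0 (Nat.gcd_dvd_right _ _)
  obtain ⟨v', hv'⟩ := h.t2
  have hord' := farExp_ord v' (1 - x) (1 - y) (sub_ne_zero.2 h.x1.symm) (sub_ne_zero.2 h.y1.symm)
    N D h.N0 h.D0 h.hy1 hv'
  set p := A / A.gcd N with hp_def
  set p' := D / D.gcd N with hp'_def
  set q' := N / D.gcd N with hq'_def
  have hp0 : (0 : ℝ) < p := by exact_mod_cast hpN
  have hp'0 : (0 : ℝ) < p' := by exact_mod_cast hpN'
  have e1 : (p : ℝ) ≤ c * log p' := by
    rw [hc_def]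
    rw [div_mul_eq_mul_div, le_div_iff₀ hl2]
    linarith
  have e1' := farExp_log c p' hc hp'0
  have e2' := farExp_log c p hc hp0
  have hcases : ((p' : ℝ) ≤ c * log p) ∨ p' ≤ 2 * n * p := by
    by_cases hgood : 2 ^ (finrank ℚ K) * v' (1 - x) < 1
    · left
      have h2 := farExp_core v' (1 - x) (1 - y) N D A h.flip hgood hD
      rw [hc_def, div_mul_eq_mul_div, le_div_iff₀ hl2]
      have : ((D / D.gcd N : ℕ) : ℝ) * log 2 ≤
        21 * ((finrank ℚ K : ℝ) * log ((A / A.gcd N : ℕ) : ℝ)) := h2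
      linarith
    · right
      have hpos : 0 < v' (1 - x) := FinitePlace.pos_iff.2 (sub_ne_zero.2 h.x1.symm)
      have h3 : -log (v' (1 - x)) ≤ n * log 2 := by
        have : (1 : ℝ) ≤ 2 ^ n * v' (1 - x) := not_lt.1 hgood
        have h4 := Real.log_le_log (by norm_num) this
        rw [Real.log_one, Real.log_mul (by positivity) hpos.ne', Real.log_pow] at h4
        linarith
      have h5 : (q' : ℝ) ≤ n := le_of_mul_le_mul_right (hord'.trans h3) hl2
      have h6 : q' ≤ n := by exact_mod_cast h5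
      have h7 : p' * N = D * q' := by
        calc p' * N = p' * (q' * D.gcd N) := by rw [hqN]
          _ = (p' * D.gcd N) * q' := by ring
          _ = D * q' := by rw [hpD]
      have h8 : A ≤ p * N := by
        calc A = p * A.gcd N := hpA.symm
          _ ≤ p * N := Nat.mul_le_mul_left _ hgN
      have h9 : (2 * n * p) * N ≥ p' * N := by
        have : 10 * (p' * N) ≤ 11 * (n * (p * N)) := by
          calc 10 * (p' * N) = (10 * D) * q' := by rw [h7]; ring
            _ ≤ (11 * A) * n := Nat.mul_le_mul hDA h6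
            _ ≤ (11 * (p * N)) * n := Nat.mul_le_mul_right _ (Nat.mul_le_mul_left _ h8)
            _ = 11 * (n * (p * N)) := by ring
        nlinarith
      exact Nat.le_of_mul_le_mul_right h9 h.N0
  have hB1c : B1 ≤ (⌈B1⌉₊ : ℝ) := Nat.le_ceil _
  have hB2c : B2 ≤ (⌈B2⌉₊ : ℝ) := Nat.le_ceil _
  rcases hcases with hc1 | hc2
  · -- both logarithmic
    have s1 : (p : ℝ) ≤ ⌈B1⌉₊ := by linarith
    have s2 : (p' : ℝ) ≤ ⌈B1⌉₊ := by linarith
    have s1' : p ≤ ⌈B1⌉₊ := by exact_mod_cast s1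
    have s2' : p' ≤ ⌈B1⌉₊ := by exact_mod_cast s2
    exact ⟨s1'.trans (Nat.le_add_right _ _), s2'.trans (Nat.le_add_right _ _)⟩
  · have hc2r : (p' : ℝ) ≤ 2 * n * p := by exact_mod_cast hc2
    have hlog : log (p' : ℝ) ≤ log (2 * n) + log p := by
      rw [← Real.log_mul (by positivity) hp0.ne']
      exact Real.log_le_log hp'0 hc2r
    have s1 : (p : ℝ) ≤ ⌈B2⌉₊ := by
      have : c * log (p' : ℝ) ≤ c * (log (2 * n) + log p) := mul_le_mul_of_nonneg_left hlog hc.le
      linarith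
    have s1' : p ≤ ⌈B2⌉₊ := by exact_mod_cast s1
    refine ⟨?_, ?_⟩
    · calc p ≤ ⌈B2⌉₊ := s1'
        _ ≤ (2 * n + 1) * ⌈B2⌉₊ := Nat.le_mul_of_pos_left _ (by omega)
        _ ≤ _ := Nat.le_add_left _ _
    · calc p' ≤ 2 * n * p := hc2
        _ ≤ 2 * n * ⌈B2⌉₊ := Nat.mul_le_mul_left _ s1'
        _ ≤ (2 * n + 1) * ⌈B2⌉₊ := Nat.mul_le_mul_right _ (by omega)
        _ ≤ _ := Nat.le_add_left _ _

end Pool.Agent.CITNF
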