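import Pool.Agent.CITLines.Final
import Pool.Agent.CITNF.Exponents
import Pool.Agent.CITNF.Cover

set_option autoImplicit false

/-! Points of powers of the line over a number field in torsion cosets of dimension at most two. -/

namespace Pool.Agent.CITNF

open Module Pool.Agent.CITTrans Pool.Agent.CITLines

section LinearAlgebra

/-- A subspace of large dimension contains two independent vectors supported on four given
coordinates. -/
theorem exists_two {n : ℕ} (U : Submodule ℚ (Fin n → ℚ)) (hU : n ≤ finrank ℚ U + 2)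
    (e : Fin 4 → Fin n) (he : Function.Injective e) :
    ∃ u w : Fin n → ℚ, u ∈ U ∧ w ∈ U ∧ (∀ i, i ∉ Set.range e → u i = 0) ∧
      (∀ i, i ∉ Set.range e → w i = 0) ∧ ∀ s t : ℚ, s • u + t • w = 0 → s = 0 ∧ t = 0 := by
  classical
  -- the coordinate subspace
  let f : (Fin 4 → ℚ) →ₗ[ℚ] (Fin n → ℚ) := LinearMap.funLeft ℚ ℚ (Function.invFun e)
  let W : Submodule ℚ (Fin n → ℚ) :=
    { carrier := {v | ∀ i, i ∉ Set.range e → v i = 0}
      add_mem' := fun {a b} ha hb i hi => by
        simp only [Set.mem_ofPred_eq] at ha hb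
        simp [ha i hi, hb i hi]
      zero_mem' := fun i _ => rfl
      smul_mem' := fun c a ha i hi => by
        simp only [Set.mem_ofPred_eq] at ha
        simp [ha i hi] }
  let g : (Fin 4 → ℚ) →ₗ[ℚ] W :=
    { toFun := fun v => ⟨Function.extend e v 0, fun i hi => by
        rw [Function.extend_apply' _ _ _ (by simpa using hi)]
        rfl⟩
      map_add' := fun v w => by
        apply Subtype.ext
        funext i
        by_cases hi : ∃ j, e j = i
        · obtain ⟨j, rfl⟩ := hi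
          simp [he.extend_apply]
        · simp [Function.extend_apply' _ _ _ hi]
      map_smul' := fun c v => by
        apply Subtype.ext
        funext i
        by_cases hi : ∃ j, e j = i
        · obtain ⟨j, rfl⟩ := hi
          simp [he.extend_apply]
        · simp [Function.extend_apply' _ _ _ hi] }
  have hg : Function.Injective g := by
    intro v w hvw
    funext j
    have := congrFun (congrArg Subtype.val hvw) (e j)
    simpa [g, he.extend_apply] using this
  have hW : 4 ≤ finrank ℚ W := by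
    have := LinearMap.finrank_le_finrank_of_injective hg
    simpa using this
  have h1 := Submodule.finrank_sup_add_finrank_inf_eq U W
  have h2 : finrank ℚ (U ⊔ W : Submodule ℚ (Fin n → ℚ)) ≤ n := by
    have := Submodule.finrank_le (U ⊔ W)
    simpa using this
  have h3 : 2 ≤ finrank ℚ (U ⊓ W : Submodule ℚ (Fin n → ℚ)) := by omega
  let b := Module.finBasis ℚ (U ⊓ W : Submodule ℚ (Fin n → ℚ))
  let i0 : Fin (finrank ℚ (U ⊓ W : Submodule ℚ (Fin n → ℚ))) := ⟨0, by omega⟩
  let i1 : Fin (finrank ℚ (U ⊓ W : Submodule ℚ (Fin n → ℚ))) := ⟨1, by omega⟩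
  have h01 : i0 ≠ i1 := by
    intro h
    have := congrArg Fin.val h
    simp [i0, i1] at this
  refine ⟨(b i0).1, (b i1).1, (b i0).2.1, (b i1).2.1, (b i0).2.2, (b i1).2.2, ?_⟩
  intro s t hst
  have hli := b.linearIndependent
  have h4 : s • b i0 + t • b i1 = 0 := Subtype.ext hst
  have hinj : Function.Injective ![i0, i1] := by
    intro a c hac
    fin_cases a <;> fin_cases c
    · rfl
    · exact absurd hac h01
    · exact absurd hac.symm h01
    · rfl
  have h6 := hli.comp ![i0, i1] hinj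
  have h7 : (b ∘ ![i0, i1]) = ![b i0, b i1] := by
    funext a
    fin_cases a <;> rfl
  rw [h7] at h6
  exact LinearIndependent.pair_iff.mp h6 s t h4

end LinearAlgebra

section Points

/-- The four coordinates belonging to the first two factors. -/
def e4 {r : ℕ} (hr : 2 ≤ r) : Fin 4 → Fin (r + r) :=
  ![Fin.castAdd r ⟨0, by omega⟩, Fin.natAdd r ⟨0, by omega⟩, Fin.castAdd r ⟨1, by omega⟩,
    Fin.natAdd r ⟨1, by omega⟩]

theorem e4_injective {r : ℕ} (hr : 2 ≤ r) : Function.Injective (e4 hr) := by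
  intro a c hac
  fin_cases a <;> fin_cases c <;> simp [e4, Fin.ext_iff] at hac ⊢ <;> omega

theorem prod_support {n : ℕ} (P : Fin n → ℂ) (e : Fin 4 → Fin n) (he : Function.Injective e)
    (a : Fin n → ℤ) (ha : ∀ i, i ∉ Set.range e → a i = 0) :
    ∏ i, P i ^ a i = ∏ j, P (e j) ^ a (e j) := by
  classical
  rw [← Finset.prod_image (s := Finset.univ) (g := e) (f := fun i => P i ^ a i) (fun x _ y _ h => he h)]
  symm
  refine Finset.prod_subset (Finset.subset_univ _) fun i _ hi => ?_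
  rw [ha i (by simpa using hi), zpow_zero]

theorem relations {r : ℕ} (hr : 2 ≤ r) (T : Set (Fin (r + r) → ℂ)) (hT : IsTorsionCoset T)
    (hdim : ringKrullDim (MvPolynomial (Fin (r + r)) ℂ ⧸ vanI T) ≤ 2)
    (P : Fin (r + r) → ℂ) (hP : P ∈ linePower r ∩ T) :
    Rel2 (P (e4 hr 0)) (P (e4 hr 2)) := by
  obtain ⟨M, η, hsat, hη, rfl⟩ := hT
  obtain ⟨k, hk, hkd⟩ := dim_cos M η hη
  change ringKrullDim (MvPolynomial (Fin (r + r)) ℂ ⧸ vanI (cos M η)) ≤ 2 at hdim
  rw [hkd] at hdim
  have hk2 : k ≤ 2 := by exact_mod_cast hdim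
  obtain ⟨u, w, huM, hwM, hu0, hw0, hind⟩ := exists_two (QS M) (by omega) (e4 hr) (e4_injective hr)
  obtain ⟨k1, hk1, a, haM, ha⟩ := exists_mult_mem huM
  obtain ⟨k2, hk2', b, hbM, hb⟩ := exists_mult_mem hwM
  obtain ⟨m, hm, hηm⟩ := hη
  have ha0 : ∀ i, i ∉ Set.range (e4 hr) → a i = 0 := by
    intro i hi
    have := ha i
    rw [hu0 i hi, mul_zero] at this
    exact_mod_cast this
  have hb0 : ∀ i, i ∉ Set.range (e4 hr) → b i = 0 := by
    intro i hi
    have := hb i
    rw [hw0 i hi, mul_zero] at this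
    exact_mod_cast this
  have hL := hP.1
  have hL0 : P (e4 hr 1) = 1 - P (e4 hr 0) := by
    have := hL.2 ⟨0, by omega⟩
    simp only [e4, Matrix.cons_val_zero, Matrix.cons_val_one]
    rw [← this]
    ring
  have hL1 : P (e4 hr 3) = 1 - P (e4 hr 2) := by
    have := hL.2 ⟨1, by omega⟩
    simp only [e4, Matrix.cons_val]
    rw [← this]
    ring
  have key : ∀ c ∈ M, (∀ i, i ∉ Set.range (e4 hr) → c i = 0) →
      R (P (e4 hr 0)) (P (e4 hr 2)) ((m : ℤ) • fun j => c (e4 hr j)) = 1 := by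
    intro c hcM hc0
    rw [R_smul]
    have h1 : R (P (e4 hr 0)) (P (e4 hr 2)) (fun j => c (e4 hr j)) = ∏ i, P i ^ c i := by
      rw [prod_support P (e4 hr) (e4_injective hr) c hc0, Fin.prod_univ_four, hL0, hL1]
      simp only [R]
      ring
    rw [h1, hP.2.2 c hcM, zpow_natCast, ← Finset.prod_pow]
    refine Finset.prod_eq_one fun i _ => ?_
    rw [← zpow_natCast, ← zpow_mul, mul_comm, zpow_mul, zpow_natCast, hηm, one_zpow]
  refine ⟨(m : ℤ) • fun j => a (e4 hr j), (m : ℤ) • fun j => b (e4 hr j), ?_, key a haM ha0,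
    key b hbM hb0⟩
  intro s t hst
  have h1 : ∀ i, (s : ℚ) * a i + t * b i = 0 := by
    intro i
    by_cases hi : i ∈ Set.range (e4 hr)
    · obtain ⟨j, rfl⟩ := hi
      have h2 := congrFun hst j
      simp only [Pi.add_apply, Pi.smul_apply, smul_eq_mul, Pi.zero_apply] at h2
      have h3 : (m : ℤ) * (s * a (e4 hr j) + t * b (e4 hr j)) = 0 := by linarith
      have h4 := (mul_eq_zero.mp h3).resolve_left (by exact_mod_cast hm.ne')
      exact_mod_cast h4
    · rw [ha0 i hi, hb0 i hi]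
      simp
  have h2 := hind (s * k1) (t * k2) (by
    funext i
    have := h1 i
    rw [ha i, hb i] at this
    simp only [Pi.add_apply, Pi.smul_apply, smul_eq_mul, Pi.zero_apply]
    linarith)
  have hk1' : (k1 : ℚ) ≠ 0 := by exact_mod_cast hk1
  have hk2'' : (k2 : ℚ) ≠ 0 := by exact_mod_cast hk2'
  constructor
  · have := (mul_eq_zero.mp h2.1).resolve_right hk1'
    exact_mod_cast this
  · have := (mul_eq_zero.mp h2.2).resolve_right hk2''
    exact_mod_cast this

end Points

section Main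

theorem R_map {K : Type} [Field K] (φ : K →+* ℂ) (x y : K) (a : Fin 4 → ℤ) :
    R (φ x) (φ y) a = φ (R x y a) := by
  simp only [R, map_mul, map_zpow₀, map_sub, map_one]

theorem main (K : Type) [Field K] [NumberField K] (φ : K →+* ℂ) (r : ℕ) (hr : 2 ≤ r) :
    ∃ (k : ℕ) (L : Fin k → Submodule ℤ (Fin (r + r) → ℤ)) (ζ : Fin k → Fin (r + r) → ℂ),
      IsFam L ζ ∧ ∀ T : Set (Fin (r + r) → ℂ), IsTorsionCoset T →
        ringKrullDim (MvPolynomial (Fin (r + r)) ℂ ⧸ vanI T) ≤ 2 →
        ∀ P ∈ linePower r ∩ T, (∀ i, P i ∈ Set.range φ) →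
          ∃ j, P ∈ {y : Fin (r + r) → ℂ | (∀ i, y i ≠ 0) ∧
            ∀ a ∈ L j, ∏ i, y i ^ a i = ∏ i, ζ j i ^ a i} := by
  classical
  obtain ⟨S, hS0, hS⟩ := exponents K
  set E : (Fin 4 → ℤ) → (Fin (r + r) → ℤ) := fun a => Function.extend (e4 hr) a 0 with hE
  have hEe : ∀ a j, E a (e4 hr j) = a j := fun a j => (e4_injective hr).extend_apply _ _ _
  have hE0 : ∀ a i, i ∉ Set.range (e4 hr) → E a i = 0 := by
    intro a i hi
    rw [hE]
    simp only
    rw [Function.extend_apply' _ _ _ (by simpa using hi)]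
    rfl
  obtain ⟨k, L, ζ, hfam, hcov⟩ := cover_finset (S.image E) (by
    intro h0
    obtain ⟨a, haS, ha⟩ := Finset.mem_image.mp h0
    apply hS0
    have : a = 0 := by
      funext j
      rw [← hEe a j, ha]
      rfl
    rwa [← this])
  refine ⟨k, L, ζ, hfam, ?_⟩
  intro T hT hdim P hP hK
  have hrel := relations hr T hT hdim P hP
  obtain ⟨x, hx⟩ := hK (e4 hr 0)
  obtain ⟨y, hy⟩ := hK (e4 hr 2)
  have hL0 : P (e4 hr 1) = 1 - P (e4 hr 0) := by
    have := hP.1.2 ⟨0, by omega⟩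
    simp only [e4, Matrix.cons_val_zero, Matrix.cons_val_one]
    rw [← this]
    ring
  have hL1 : P (e4 hr 3) = 1 - P (e4 hr 2) := by
    have := hP.1.2 ⟨1, by omega⟩
    simp only [e4, Matrix.cons_val]
    rw [← this]
    ring
  have x0 : x ≠ 0 := by
    rintro rfl
    rw [map_zero] at hx
    exact hP.1.1 _ hx.symm
  have y0 : y ≠ 0 := by
    rintro rfl
    rw [map_zero] at hy
    exact hP.1.1 _ hy.symm
  have x1 : x ≠ 1 := by
    rintro rfl
    rw [map_one] at hx
    rw [← hx, sub_self] at hL0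
    exact hP.1.1 _ hL0
  have y1 : y ≠ 1 := by
    rintro rfl
    rw [map_one] at hy
    rw [← hy, sub_self] at hL1
    exact hP.1.1 _ hL1
  have hrelK : Rel2 x y := by
    obtain ⟨a, b, hind, ha, hb⟩ := hrel
    rw [← hx, ← hy, R_map] at ha hb
    refine ⟨a, b, hind, φ.injective (by rw [ha, map_one]), φ.injective (by rw [hb, map_one])⟩
  obtain ⟨a, haS, ha⟩ := hS x y x0 x1 y0 y1 hrelK
  obtain ⟨j, hj⟩ := hcov P hP.1.1 ⟨E a, Finset.mem_image_of_mem _ haS, by
    rw [prod_support P (e4 hr) (e4_injective hr) (E a) (hE0 a), Fin.prod_univ_four]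
    simp only [hEe]
    rw [hL0, hL1, ← hx, ← hy]
    have h1 := R_map φ x y a
    rw [ha, map_one] at h1
    refine Eq.trans ?_ h1
    simp only [R]
    ring⟩
  exact ⟨j, hP.1.1, hj⟩

/-- The atypical points of the third power of the line with coordinates in a number field. -/
theorem main3 (K : Type) [Field K] [NumberField K] (φ : K →+* ℂ) :
    ∃ (k : ℕ) (L : Fin k → Submodule ℤ (Fin (3 + 3) → ℤ)) (ζ : Fin k → Fin (3 + 3) → ℂ),
      IsFam L ζ ∧ ∀ P : Fin (3 + 3) → ℂ, IsAtypical (linePower 3) {P} →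
        (∀ i, P i ∈ Set.range φ) →
          ∃ j, P ∈ {y : Fin (3 + 3) → ℂ | (∀ i, y i ≠ 0) ∧
            ∀ a ∈ L j, ∏ i, y i ^ a i = ∏ i, ζ j i ^ a i} := by
  obtain ⟨k, L, ζ, hfam, h⟩ := main K φ 3 (by norm_num)
  refine ⟨k, L, ζ, hfam, ?_⟩
  rintro P ⟨T, hT, hcomp, hdim⟩ hK
  have hP : P ∈ linePower 3 ∩ T := hcomp.1 rfl
  refine h T hT ?_ P hP hK
  have hV : ringKrullDim (MvPolynomial (Fin (3 + 3)) ℂ ⧸ vanI (linePower 3)) = (3 : ℕ) := by
    have hprime : (vanI (linePower 3)).IsPrime := (isVariety_linePower 3).2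
    rw [ringKrullDim_eq_dm, vanI_linePower, dm_linePower]
  have hX : ringKrullDim (MvPolynomial (Fin (3 + 3)) ℂ ⧸ vanI {P}) = 0 := by
    have h1 : vanI ({P} : Set (Fin (3 + 3) → ℂ)) =
        RingHom.ker (MvPolynomial.eval P : MvPolynomial (Fin (3 + 3)) ℂ →+* ℂ) := by
      simp [vanI]
    rw [h1]
    have hs : Function.Surjective (MvPolynomial.eval P : MvPolynomial (Fin (3 + 3)) ℂ →+* ℂ) :=
      fun c => ⟨MvPolynomial.C c, MvPolynomial.eval_C c⟩
    rw [ringKrullDim_eq_of_ringEquiv (RingHom.quotientKerEquivOfSurjective hs)]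
    exact ringKrullDim_eq_zero_of_field ℂ
  obtain ⟨M, η, hsat, hη, rfl⟩ := hT
  obtain ⟨d, hd, hdd⟩ := dim_cos M η hη
  change ringKrullDim (MvPolynomial (Fin (3 + 3)) ℂ ⧸ vanI (cos M η)) ≤ 2
  change ringKrullDim (MvPolynomial (Fin (3 + 3)) ℂ ⧸ vanI (linePower 3)) +
    ringKrullDim (MvPolynomial (Fin (3 + 3)) ℂ ⧸ vanI (cos M η)) <
    ringKrullDim (MvPolynomial (Fin (3 + 3)) ℂ ⧸ vanI {P}) + _ at hdim
  rw [hV, hX, hdd] at hdim
  rw [hdd]
  have h2 : ((3 + d : ℕ) : WithBot ℕ∞) < ((3 + 3 : ℕ) : WithBot ℕ∞) := by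
    have := hdim
    rw [zero_add] at this
    exact_mod_cast this
  have h3 : 3 + d < 3 + 3 := by exact_mod_cast h2
  have h4 : d ≤ 2 := by omega
  exact_mod_cast h4

end Main

end Pool.Agent.CITNF
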