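import Pool.Agent.CITNF.Far2
import Pool.Agent.CITNF.Far1
import Pool.Agent.CITNF.Bdd

set_option autoImplicit false

/-! P14. Both heights are bounded for normalised pairs.
norm2: t = A/N. 16 A >= 17 N: far2 bounds h(x); then `bdd` (B = 0; D h(1-x) = N h(1-y) <= N h(y) + N c = A h(x) + N c) bounds t,
and N h(y) = A h(x). 15 N <= 16 A <= 17 N: near2. 16 A < 15 N: the same for NP2.swap.
norm1: the same with far1, near1 (if D < 0 use y' = y/(y-1): NP1 x y' (2N) (2A) (2(B-D)) (-2D), y' <> x), NP1.swap,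
`bdd` with |D| h(1-x) = N h(1-y) <= N (h(y) + c) <= N (2 hf(1/y) + C) = 2 A hf(1/x) + C N, and h(y) <= 2 hf(1/y) + C = 2 (A/N) hf(1/x) + C. -/

namespace Pool.Agent.CITNF

open NumberField Height Real Module

private theorem norm_nt {K : Type} [Field K] [NumberField K] {x : K} (h : MI x) :
    ∀ m : ℕ, 0 < m → (1 - x) ^ m ≠ 1 := by
  intro m hm e
  have := h 0 (m : ℤ) (by rw [zpow_zero, one_mul, zpow_natCast, e])
  have h2 : (m : ℤ) = 0 := this.2
  omega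

private theorem norm_lh_nonneg {K : Type} [Field K] [NumberField K] (x : K) :
    0 ≤ logHeight₁ x := by
  rw [lh_eq]
  exact add_nonneg (hi_nonneg x) (hf_nonneg x)

private theorem norm_hf_inv_le {K : Type} [Field K] [NumberField K] (x : K) :
    hf x⁻¹ ≤ logHeight₁ x := by
  have h1 : logHeight₁ x⁻¹ = logHeight₁ x := logHeight₁_inv x
  rw [← h1, lh_eq]
  have := hi_nonneg x⁻¹
  linarith

private theorem norm2_far (K : Type) [Field K] [NumberField K] :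
    ∃ C : ℝ, ∀ (x y : K) (N A D : ℕ), NP2 x y N A D → 17 * N ≤ 16 * A → MI x →
    logHeight₁ x ≤ C ∧ logHeight₁ y ≤ C := by
  obtain ⟨Cf, hCf⟩ := far2 K
  set c : ℝ := finrank ℚ K * log 2 with hc
  have hc0 : 0 ≤ c := by
    rw [hc]; exact mul_nonneg (Nat.cast_nonneg _) (log_nonneg (by norm_num))
  obtain ⟨Cb, hCb⟩ := bdd K Cf (|Cf| + c)
  refine ⟨|Cf| + |Cb| * |Cf|, ?_⟩
  intro x y N A D h hNA hx
  have hN : (0:ℝ) < N := by exact_mod_cast h.N0
  have hA : (0:ℝ) < A := by exact_mod_cast h.A0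
  have h1 := hCf x y N A D h hNA
  have hh := h.height
  have h1y := height_one_sub_le y
  have hA_le : (A : ℝ) ≤ Cb * N := by
    refine hCb x y N A 0 (D : ℤ) h.x0 h.x1 h.y0 h.y1 h.N0 h.A0 ?_ ?_ ?_ h.t1 (norm_nt hx) h1 ?_
    · have := h.D0; omega
    · rw [zpow_zero, mul_one]; exact h.hy
    · rw [zpow_natCast]; exact h.hy1
    · rw [Int.natAbs_natCast, ← hh.2]
      have e1 : (N:ℝ) * logHeight₁ (1 - y) ≤ N * (logHeight₁ y + c) :=
        mul_le_mul_of_nonneg_left h1y hN.le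
      have e2 : (A:ℝ) * logHeight₁ x ≤ A * |Cf| :=
        mul_le_mul_of_nonneg_left (h1.trans (le_abs_self _)) hA.le
      have e3 : 0 ≤ (A:ℝ) * c := mul_nonneg hA.le hc0
      have e4 : 0 ≤ (N:ℝ) * |Cf| := mul_nonneg hN.le (abs_nonneg _)
      nlinarith [hh.1]
  have hx0 := norm_lh_nonneg x
  have hxC : logHeight₁ x ≤ |Cf| := h1.trans (le_abs_self _)
  have hb : 0 ≤ |Cb| * |Cf| := mul_nonneg (abs_nonneg _) (abs_nonneg _)
  refine ⟨by linarith, ?_⟩
  have e5 : (N:ℝ) * logHeight₁ y ≤ N * (|Cb| * |Cf|) := by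
    rw [hh.1]
    have e6 : (A:ℝ) ≤ |Cb| * N := hA_le.trans (mul_le_mul_of_nonneg_right (le_abs_self _) hN.le)
    calc (A:ℝ) * logHeight₁ x ≤ (|Cb| * N) * |Cf| :=
          mul_le_mul e6 hxC hx0 (mul_nonneg (abs_nonneg _) hN.le)
      _ = N * (|Cb| * |Cf|) := by ring
  have e7 : logHeight₁ y ≤ |Cb| * |Cf| := le_of_mul_le_mul_left e5 hN
  have := abs_nonneg Cf
  linarith

theorem norm2 (K : Type) [Field K] [NumberField K] :
    ∃ C : ℝ, ∀ (x y : K) (N A D : ℕ), NP2 x y N A D → MI x → MI y → y ≠ x →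
    logHeight₁ x ≤ C ∧ logHeight₁ y ≤ C := by
  obtain ⟨C1, hC1⟩ := norm2_far K
  obtain ⟨C2, hC2⟩ := near2 K
  refine ⟨|C1| + 2 * |C2|, ?_⟩
  intro x y N A D h hx hy hne
  have a1 := abs_nonneg C1
  have a2 := abs_nonneg C2
  have b1 := le_abs_self C1
  have b2 := le_abs_self C2
  have hN : (0:ℝ) < N := by exact_mod_cast h.N0
  have hA : (0:ℝ) < A := by exact_mod_cast h.A0
  by_cases c1 : 17 * N ≤ 16 * A
  · obtain ⟨u, v⟩ := hC1 x y N A D h c1 hx
    exact ⟨by linarith, by linarith⟩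
  by_cases c2 : 15 * N ≤ 16 * A
  · have c3 : 16 * A ≤ 17 * N := by omega
    have u := hC2 x y N A D h hne c2 c3
    refine ⟨by linarith, ?_⟩
    have c4 : (16:ℝ) * A ≤ 17 * N := by exact_mod_cast c3
    have hx0 := norm_lh_nonneg x
    have hh := h.height.1
    have e5 : (N:ℝ) * logHeight₁ y ≤ N * (2 * |C2|) := by
      rw [hh]
      have e6 : (A:ℝ) ≤ 2 * N := by linarith
      calc (A:ℝ) * logHeight₁ x ≤ (2 * N) * |C2| :=
            mul_le_mul e6 (u.trans b2) hx0 (by linarith)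
        _ = N * (2 * |C2|) := by ring
    have e7 : logHeight₁ y ≤ 2 * |C2| := le_of_mul_le_mul_left e5 hN
    linarith
  · have c3 : 17 * (A * D) ≤ 16 * (N * D) := by
      have : 17 * A ≤ 16 * N := by omega
      calc 17 * (A * D) = (17 * A) * D := by ring
        _ ≤ (16 * N) * D := Nat.mul_le_mul_right _ this
        _ = 16 * (N * D) := by ring
    obtain ⟨u, v⟩ := hC1 y x (A * D) (N * D) (N * A) h.swap c3 hy
    exact ⟨by linarith, by linarith⟩

private theorem norm1_far (K : Type) [Field K] [NumberField K] :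
    ∃ C : ℝ, ∀ (x y : K) (N A : ℕ) (B D : ℤ), NP1 x y N A B D → 17 * N ≤ 16 * A →
    logHeight₁ x ≤ C ∧ logHeight₁ y ≤ C := by
  obtain ⟨Cf, hCf⟩ := far1 K
  obtain ⟨Ch, hCh⟩ := NP1.height_le K
  set c : ℝ := finrank ℚ K * log 2 with hc
  have hc0 : 0 ≤ c := by
    rw [hc]; exact mul_nonneg (Nat.cast_nonneg _) (log_nonneg (by norm_num))
  obtain ⟨Cb, hCb⟩ := bdd K Cf (2 * |Cf| + |Ch| + c)
  refine ⟨|Cf| + 2 * (|Cb| * |Cf|) + |Ch|, ?_⟩
  intro x y N A B D h hNA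
  have hN : (0:ℝ) < N := by exact_mod_cast h.N0
  have hA : (0:ℝ) < A := by exact_mod_cast h.A0
  have h1 := hCf x y N A B D h hNA
  have h1y := height_one_sub_le y
  have hxC : logHeight₁ x ≤ |Cf| := h1.trans (le_abs_self _)
  have hfx : hf x⁻¹ ≤ |Cf| := (norm_hf_inv_le x).trans hxC
  have hfx0 := hf_nonneg x⁻¹
  have hyle := (hCh x y N A B D h).2
  have hfy := h.hfy
  have hChle := le_abs_self Ch
  have hCh0 := abs_nonneg Ch
  have hCf0 := abs_nonneg Cf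
  have hA_le : (A : ℝ) ≤ Cb * N := by
    refine hCb x y N A B D h.x0 h.x1 h.y0 h.y1 h.N0 h.A0 h.D0 h.hy h.hy1 h.t1 h.nt h1 ?_
    rw [← h.h1y]
    have e1 : (N:ℝ) * logHeight₁ (1 - y) ≤ N * (2 * hf y⁻¹ + |Ch| + c) :=
      mul_le_mul_of_nonneg_left (by linarith) hN.le
    have e2 : (A:ℝ) * hf x⁻¹ ≤ A * |Cf| := mul_le_mul_of_nonneg_left hfx hA.le
    have e3 : 0 ≤ (A:ℝ) * c := mul_nonneg hA.le hc0
    have e4 : 0 ≤ (N:ℝ) * |Cf| := mul_nonneg hN.le (abs_nonneg _)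
    have e5 : 0 ≤ (A:ℝ) * |Ch| := mul_nonneg hA.le (abs_nonneg _)
    nlinarith [hfy]
  have hb : 0 ≤ |Cb| * |Cf| := mul_nonneg (abs_nonneg _) (abs_nonneg _)
  refine ⟨by linarith, ?_⟩
  have e5 : (N:ℝ) * hf y⁻¹ ≤ N * (|Cb| * |Cf|) := by
    rw [hfy]
    have e6 : (A:ℝ) ≤ |Cb| * N := hA_le.trans (mul_le_mul_of_nonneg_right (le_abs_self _) hN.le)
    calc (A:ℝ) * hf x⁻¹ ≤ (|Cb| * N) * |Cf| :=
          mul_le_mul e6 hfx hfx0 (mul_nonneg (abs_nonneg _) hN.le)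
      _ = N * (|Cb| * |Cf|) := by ring
  have e7 : hf y⁻¹ ≤ |Cb| * |Cf| := le_of_mul_le_mul_left e5 hN
  linarith

private theorem norm1_flip {K : Type} [Field K] [NumberField K] {x y : K} {N A : ℕ} {B D : ℤ}
    (h : NP1 x y N A B D) : NP1 x (y / (y - 1)) (2 * N) (2 * A) (2 * (B - D)) (-(2 * D)) := by
  have hy1 : y - 1 ≠ 0 := sub_ne_zero.2 h.y1
  have hy1' : 1 - y ≠ 0 := sub_ne_zero.2 (Ne.symm h.y1)
  have hx1' : 1 - x ≠ 0 := sub_ne_zero.2 (Ne.symm h.x1)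
  have e : 1 - y / (y - 1) = (1 - y)⁻¹ := by
    field_simp
    ring
  refine ⟨h.x0, h.x1, div_ne_zero h.y0 hy1, ?_, by have := h.N0; omega, by have := h.A0; omega,
    by have := h.D0; omega, ?_, ?_, h.f1, h.fx, h.t1, h.nt⟩
  · intro e2
    have : (1 - y)⁻¹ = 0 := by rw [← e, e2, sub_self]
    exact inv_ne_zero hy1' this
  · have e3 : (y - 1) ^ (2 * N) = (1 - y) ^ (2 * N) := by
      rw [pow_mul, pow_mul]
      congr 1
      ring
    rw [div_pow, e3, mul_comm 2 N, pow_mul, pow_mul, h.hy, h.hy1]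
    have e4 : (1 - x) ^ (2 * (B - D)) = ((1 - x) ^ B) ^ 2 / ((1 - x) ^ D) ^ 2 := by
      rw [mul_comm 2, zpow_mul, zpow_sub₀ hx1', ← div_pow]
      norm_cast
    rw [e4]
    field_simp
    rw [← pow_mul, mul_comm]
  · rw [e, inv_pow, mul_comm 2 N, pow_mul, h.hy1, zpow_neg, mul_comm 2 D, zpow_mul]
    norm_cast

theorem norm1 (K : Type) [Field K] [NumberField K] :
    ∃ C : ℝ, ∀ (x y : K) (N A : ℕ) (B D : ℤ), NP1 x y N A B D → MI x → MI y → y ≠ x →
    y ≠ x / (x - 1) → logHeight₁ x ≤ C ∧ logHeight₁ y ≤ C := by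
  obtain ⟨C1, hC1⟩ := norm1_far K
  obtain ⟨C2, hC2⟩ := near1 K
  obtain ⟨Ch, hCh⟩ := NP1.height_le K
  refine ⟨|C1| + 4 * |C2| + |Ch|, ?_⟩
  intro x y N A B D h hx hy hne hne2
  have a1 := abs_nonneg C1
  have a2 := abs_nonneg C2
  have a3 := abs_nonneg Ch
  have b1 := le_abs_self C1
  have b2 := le_abs_self C2
  have b3 := le_abs_self Ch
  have hN : (0:ℝ) < N := by exact_mod_cast h.N0
  have hA : (0:ℝ) < A := by exact_mod_cast h.A0
  by_cases c1 : 17 * N ≤ 16 * A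
  · obtain ⟨u, v⟩ := hC1 x y N A B D h c1
    exact ⟨by linarith, by linarith⟩
  by_cases c2 : 15 * N ≤ 16 * A
  · have c3 : 16 * A ≤ 17 * N := by omega
    have u : logHeight₁ x ≤ C2 := by
      rcases lt_or_gt_of_ne h.D0 with hD | hD
      · refine hC2 x (y / (y - 1)) (2 * N) (2 * A) (2 * (B - D)) (-(2 * D)) (norm1_flip h)
          (by omega) ?_ (by omega) (by omega)
        intro e
        apply hne2
        have hy1 : y - 1 ≠ 0 := sub_ne_zero.2 h.y1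
        have hx1 : x - 1 ≠ 0 := sub_ne_zero.2 h.x1
        rw [eq_div_iff hx1]
        rw [div_eq_iff hy1] at e
        linear_combination (-1 : K) * e
      · exact hC2 x y N A B D h hD hne c2 c3
    refine ⟨by linarith, ?_⟩
    have c4 : (16:ℝ) * A ≤ 17 * N := by exact_mod_cast c3
    have hfx : hf x⁻¹ ≤ |C2| := (norm_hf_inv_le x).trans (u.trans b2)
    have hfx0 := hf_nonneg x⁻¹
    have e5 : (N:ℝ) * hf y⁻¹ ≤ N * (2 * |C2|) := by
      rw [h.hfy]
      have e6 : (A:ℝ) ≤ 2 * N := by linarith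
      calc (A:ℝ) * hf x⁻¹ ≤ (2 * N) * |C2| :=
            mul_le_mul e6 hfx hfx0 (by linarith)
        _ = N * (2 * |C2|) := by ring
    have e7 : hf y⁻¹ ≤ 2 * |C2| := le_of_mul_le_mul_left e5 hN
    have e8 := (hCh x y N A B D h).2
    linarith
  · obtain ⟨N', A', B', D', hs, hAA⟩ := h.swap
    have c3 : 17 * N' ≤ 16 * A' := by
      have c4 : 17 * A ≤ 16 * N := by omega
      have c5 : A * (17 * N') ≤ A * (16 * A') := by
        calc A * (17 * N') = (17 * A) * N' := by ring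
          _ ≤ (16 * N) * N' := Nat.mul_le_mul_right _ c4
          _ = 16 * (N * N') := by ring
          _ = A * (16 * A') := by rw [← hAA]; ring
      exact Nat.le_of_mul_le_mul_left c5 h.A0
    obtain ⟨u, v⟩ := hC1 y x N' A' B' D' hs c3
    exact ⟨by linarith, by linarith⟩

end Pool.Agent.CITNF
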