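import Pool.Agent.CITNF.SUnit

set_option autoImplicit false

/-! P11. Normalised pairs of the second kind (x integral, 1-x a unit; the same for y). n = [K:Q], c = n log 2,
t = A/N, d = D/N.
swap: N' = A |D|, A' = N |D|, signs according to the sign of D.
hfy: at each finite v: v(y)^N = v(x)^A (v(1-x) = 1).  h1y: logHeight₁_zpow.
height_le: `sunit_approx` with B = 0, δ = 1/2 applied to y.
near1 (D > 0): δ = 1/200 in `sunit_approx` (B = 0) for x and y: hi(1/x) <= δ h(x) + C, the same for y. Then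
t((1-δ)h(x) - C) <= hf(1/y) <= h(y) <= (t h(x) + C)/(1-δ) and |h(1-y) - h(y)| <= c, h(1-y) = d h(1-x), so for
h(x) large |d - 1| <= 1/8. b = B/N: 1-x is a unit, so some infinite v has L = -log v(1-x) >= h(1-x)/n
(`exists_inf_large` for (1-x)⁻¹); L large: |log v(x)| <= log 2, v(1-y) = exp(-dL) small, |log v(y)| <= log 2;
from N log v(y) = A log v(x) + B log v(1-x): |B| L <= (N+A) log 2 <= 3 N log 2, so |b| h(1-x) <= 3c.
`near`: h(x) <= |t-1| h(x) + |b| h(1-x) + 2 |d-1| h(1-x) + 2c <= (1/16 + 1/4) h(x) + C. -/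

namespace Pool.Agent.CITNF

open NumberField Height Real Module

variable {K : Type} [Field K] [NumberField K]

/-- all finite places of the relations -/
private theorem one_fin_pow {x y : K} {N A : ℕ} {B D : ℤ} (h : NP1 x y N A B D)
    (v : FinitePlace K) : v y ^ N = v x ^ A := by
  have := congrArg v h.hy
  rw [map_pow, map_mul, map_pow, map_zpow₀, h.f1 v, one_zpow, mul_one] at this
  exact this

private theorem one_fin_y1 {x y : K} {N A : ℕ} {B D : ℤ} (h : NP1 x y N A B D)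
    (v : FinitePlace K) : v (1 - y) = 1 := by
  have := congrArg v h.hy1
  rw [map_pow, map_zpow₀, h.f1 v, one_zpow] at this
  exact (pow_eq_one_iff_of_nonneg (apply_nonneg v _) h.N0.ne').1 this

private theorem one_fin_y {x y : K} {N A : ℕ} {B D : ℤ} (h : NP1 x y N A B D)
    (v : FinitePlace K) : v y ≤ 1 := by
  have h1 := one_fin_pow h v
  have h2 : v x ^ A ≤ 1 := pow_le_one₀ (apply_nonneg v _) (h.fx v)
  rw [← h1] at h2
  exact (pow_le_one_iff_of_nonneg (apply_nonneg v _) h.N0.ne').1 h2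

theorem NP1.swap {x y : K} {N A : ℕ} {B D : ℤ} (h : NP1 x y N A B D) :
    ∃ (N' A' : ℕ) (B' D' : ℤ), NP1 y x N' A' B' D' ∧ A * A' = N * N' := by
  have hz : (1 - x : K) ≠ 0 := sub_ne_zero.2 (Ne.symm h.x1)
  have hw : (1 - y : K) ≠ 0 := sub_ne_zero.2 (Ne.symm h.y1)
  have hD0 : 0 < D.natAbs := Int.natAbs_pos.2 h.D0
  -- sign
  obtain ⟨s, hs, hs2⟩ : ∃ s : ℤ, (D.natAbs : ℤ) = s * D ∧ s ≠ 0 := by
    refine ⟨D.sign, ?_, ?_⟩
    · rw [Int.sign_mul_self]
    · intro h0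
      exact h.D0 (Int.sign_eq_zero_iff_zero.1 h0)
  have hxp : (1 - x : K) ^ (D.natAbs : ℤ) = (1 - y) ^ ((N : ℤ) * s) := by
    rw [hs, mul_comm s D, zpow_mul, ← h.hy1, ← zpow_natCast, ← zpow_mul]
  refine ⟨A * D.natAbs, N * D.natAbs, -((N : ℤ) * s * B), (N : ℤ) * s * A, ?_, by ring⟩
  refine ⟨h.y0, h.y1, h.x0, h.x1, Nat.mul_pos h.A0 hD0, Nat.mul_pos h.N0 hD0, ?_, ?_, ?_, ?_, ?_,
    ?_, ?_⟩
  · have : (N : ℤ) ≠ 0 := by exact_mod_cast h.N0.ne'
    have hA : (A : ℤ) ≠ 0 := by exact_mod_cast h.A0.ne'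
    exact mul_ne_zero (mul_ne_zero this hs2) hA
  · -- x ^ (A |D|) = y ^ (N |D|) (1-y)^(-(N s B))
    rw [pow_mul, pow_mul, h.hy, mul_pow, ← zpow_natCast ((1 - x) ^ B) D.natAbs, ← zpow_mul,
      mul_comm B (D.natAbs : ℤ), zpow_mul, hxp, ← zpow_mul, zpow_neg, mul_assoc,
      mul_inv_cancel₀ (zpow_ne_zero _ hw), mul_one]
  · rw [← zpow_natCast, Nat.cast_mul, mul_comm (A : ℤ) (D.natAbs : ℤ), zpow_mul, hxp, ← zpow_mul]
  · exact one_fin_y1 h
  · exact one_fin_y h
  · obtain ⟨v, hv⟩ := h.t1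
    refine ⟨v, ?_⟩
    have h1 := one_fin_pow h v
    have h2 : v x ^ A < 1 := pow_lt_one₀ (apply_nonneg v _) hv h.A0.ne'
    rw [← h1] at h2
    exact (pow_lt_one_iff_of_nonneg (apply_nonneg v _) h.N0.ne').1 h2
  · intro m hm h0
    apply h.nt (D.natAbs * m) (Nat.mul_pos hD0 hm)
    rw [pow_mul, ← zpow_natCast (1 - x) D.natAbs, hxp, ← zpow_natCast _ m, ← zpow_mul,
      mul_comm, zpow_mul, zpow_natCast, h0, one_zpow]

private theorem one_posLog (x : K) (hfx : ∀ v : FinitePlace K, v x ≤ 1) (hx : x ≠ 0)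
    (v : FinitePlace K) : log⁺ (v x⁻¹) = -log (v x) := by
  have hvpos : 0 < v x := FinitePlace.pos_iff.2 hx
  rw [map_inv₀, posLog_eq_log, log_inv]
  rw [abs_inv, abs_of_pos hvpos]
  exact (one_le_inv₀ hvpos).2 (hfx v)

theorem NP1.hfy {x y : K} {N A : ℕ} {B D : ℤ} (h : NP1 x y N A B D) :
    N * hf y⁻¹ = A * hf x⁻¹ := by
  unfold hf
  rw [mul_finsum, mul_finsum]
  congr 1
  funext v
  rw [one_posLog x h.fx h.x0 v, one_posLog y (one_fin_y h) h.y0 v]
  have := congrArg log (one_fin_pow h v)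
  rw [log_pow, log_pow] at this
  linarith

theorem NP1.h1y {x y : K} {N A : ℕ} {B D : ℤ} (h : NP1 x y N A B D) :
    N * logHeight₁ (1 - y) = D.natAbs * logHeight₁ (1 - x) := by
  rw [← logHeight₁_pow, h.hy1, logHeight₁_zpow]

private theorem one_hf_unit (z : K) (hz : ∀ v : FinitePlace K, v z = 1) :
    hf z = 0 ∧ hf z⁻¹ = 0 := by
  constructor
  · unfold hf
    rw [show (fun v : FinitePlace K => log⁺ (v z)) = fun _ => (0 : ℝ) from ?_, finsum_zero]
    funext v
    rw [hz v, posLog_eq_zero_iff]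
    simp
  · unfold hf
    rw [show (fun v : FinitePlace K => log⁺ (v z⁻¹)) = fun _ => (0 : ℝ) from ?_, finsum_zero]
    funext v
    rw [map_inv₀, hz v, inv_one, posLog_eq_zero_iff]
    simp

/-- the infinite part of the height of `x⁻¹` is small, for `1 - x` a unit -/
private theorem one_hi (K : Type) [Field K] [NumberField K] (δ : ℝ) (hδ : 0 < δ) :
    ∃ C : ℝ, 0 ≤ C ∧ ∀ (x y : K) (N A : ℕ) (B D : ℤ), NP1 x y N A B D →
      hi x⁻¹ ≤ δ * logHeight₁ x + C ∧ hi y⁻¹ ≤ δ * logHeight₁ y + C := by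
  obtain ⟨C, hC⟩ := sunit_approx K 0 δ hδ
  refine ⟨|C|, abs_nonneg C, ?_⟩
  have key : ∀ (x y : K) (N A : ℕ) (B D : ℤ), NP1 x y N A B D →
      hi x⁻¹ ≤ δ * logHeight₁ x + |C| := by
    intro x y N A B D h
    obtain ⟨h1, h2⟩ := one_hf_unit (1 - x) h.f1
    have := hC x h.x0 h.x1 h1.le h2.le
    have := le_abs_self C
    linarith
  intro x y N A B D h
  obtain ⟨N', A', B', D', h', -⟩ := h.swap
  exact ⟨key x y N A B D h, key y x N' A' B' D' h'⟩

private theorem one_lh (x : K) : logHeight₁ x = hi x⁻¹ + hf x⁻¹ := by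
  rw [← lh_eq, logHeight₁_inv]

/-- upper bound for the height of `y` -/
theorem NP1.height_le (K : Type) [Field K] [NumberField K] :
    ∃ C : ℝ, ∀ (x y : K) (N A : ℕ) (B D : ℤ), NP1 x y N A B D →
    logHeight₁ x ≤ 2 * hf x⁻¹ + C ∧ logHeight₁ y ≤ 2 * hf y⁻¹ + C := by
  obtain ⟨C, -, hC⟩ := one_hi K (1 / 2) (by norm_num)
  refine ⟨2 * C, ?_⟩
  intro x y N A B D h
  obtain ⟨h1, h2⟩ := hC x y N A B D h
  have e1 := one_lh x
  have e2 := one_lh y
  constructor <;> linarith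

private theorem one_inf_sub_le (v : InfinitePlace K) (a b : K) : v (a - b) ≤ v a + v b := by
  rw [← v.norm_embedding_eq, ← v.norm_embedding_eq, ← v.norm_embedding_eq, map_sub]
  exact norm_sub_le _ _

private theorem one_inf_add_le (v : InfinitePlace K) (a b : K) : v (a + b) ≤ v a + v b := by
  rw [← v.norm_embedding_eq, ← v.norm_embedding_eq, ← v.norm_embedding_eq, map_add]
  exact norm_add_le _ _

private theorem one_abs_log (v : InfinitePlace K) (x : K) (h : v (1 - x) ≤ 1 / 2) :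
    |log (v x)| ≤ log 2 := by
  have h1 : v x ≤ 3 / 2 := by
    have := one_inf_sub_le v 1 (1 - x)
    rw [sub_sub_cancel, map_one] at this
    linarith
  have h2 : 1 / 2 ≤ v x := by
    have := one_inf_add_le v x (1 - x)
    rw [add_sub_cancel, map_one] at this
    linarith
  have hpos : 0 < v x := by linarith
  rw [abs_le]
  constructor
  · rw [neg_le, ← log_inv]
    apply log_le_log (inv_pos.2 hpos)
    rw [inv_le_comm₀ hpos (by norm_num)]
    linarith
  · exact log_le_log hpos (by linarith)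

theorem near1 (K : Type) [Field K] [NumberField K] :
    ∃ C : ℝ, ∀ (x y : K) (N A : ℕ) (B D : ℤ), NP1 x y N A B D → 0 < D → y ≠ x →
    15 * N ≤ 16 * A → 16 * A ≤ 17 * N → logHeight₁ x ≤ C := by
  obtain ⟨C1, hC10, hC1⟩ := one_hi K (1 / 200) (by norm_num)
  have hlog2 : 0 < log 2 := log_pos (by norm_num)
  have hn0 : (0 : ℝ) < finrank ℚ K := by
    exact_mod_cast (finrank_pos : 0 < finrank ℚ K)
  obtain ⟨c, hc⟩ : ∃ c : ℝ, c = finrank ℚ K * log 2 := ⟨_, rfl⟩
  have hcpos : 0 < c := hc ▸ mul_pos hn0 hlog2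
  refine ⟨20 * C1 + 40 * c, ?_⟩
  intro x y N A B D h hDpos hne hA1 hA2
  by_contra hcon
  push Not at hcon
  obtain ⟨hix, hiy⟩ := hC1 x y N A B D h
  have ex := one_lh x
  have ey := one_lh y
  have hN0 : (0 : ℝ) < N := by exact_mod_cast h.N0
  obtain ⟨t, ht⟩ : ∃ t : ℝ, t = (A : ℝ) / N := ⟨_, rfl⟩
  have htN : (A : ℝ) = t * N := by rw [ht]; field_simp
  have hA1r : (15 : ℝ) * N ≤ 16 * A := by exact_mod_cast hA1
  have hA2r : (16 : ℝ) * A ≤ 17 * N := by exact_mod_cast hA2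
  have ht1 : 15 / 16 ≤ t := by rw [ht, le_div_iff₀ hN0]; linarith
  have ht2 : t ≤ 17 / 16 := by rw [ht, div_le_iff₀ hN0]; linarith
  have hfy : hf y⁻¹ = t * hf x⁻¹ := by
    have := h.hfy
    rw [htN] at this
    have h2 : (N : ℝ) * hf y⁻¹ = N * (t * hf x⁻¹) := by linarith
    exact mul_left_cancel₀ hN0.ne' h2
  obtain ⟨d, hd⟩ : ∃ d : ℝ, d = (D : ℝ) / N := ⟨_, rfl⟩
  have hdN : (D : ℝ) = d * N := by rw [hd]; field_simp
  have hDr : (0 : ℝ) < D := by exact_mod_cast hDpos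
  have hdpos : 0 < d := hd ▸ div_pos hDr hN0
  have h1y : logHeight₁ (1 - y) = d * logHeight₁ (1 - x) := by
    have := h.h1y
    have e : ((D.natAbs : ℕ) : ℝ) = D := by
      rw [Nat.cast_natAbs, abs_of_pos hDpos]
    rw [e, hdN] at this
    have h2 : (N : ℝ) * logHeight₁ (1 - y) = N * (d * logHeight₁ (1 - x)) := by linarith
    exact mul_left_cancel₀ hN0.ne' h2
  have c1 := height_one_sub_le x
  have c2 := height_le_one_sub x
  have c3 := height_one_sub_le y
  have c4 := height_le_one_sub y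
  rw [← hc] at c1 c2 c3 c4
  obtain ⟨H, hH⟩ : ∃ H : ℝ, H = logHeight₁ x := ⟨_, rfl⟩
  obtain ⟨H1, hH1⟩ : ∃ H1 : ℝ, H1 = logHeight₁ (1 - x) := ⟨_, rfl⟩
  obtain ⟨Hy, hHy⟩ : ∃ Hy : ℝ, Hy = logHeight₁ y := ⟨_, rfl⟩
  obtain ⟨F, hF⟩ : ∃ F : ℝ, F = hf x⁻¹ := ⟨_, rfl⟩
  rw [← hH] at hcon hix ex c1 c2
  rw [← hH1] at h1y c1 c2
  rw [← hHy] at hiy ey c3 c4
  rw [← hF] at hfy ex
  rw [hfy] at ey
  rw [h1y] at c3 c4
  have hix0 := hi_nonneg (x⁻¹ : K)
  have hiy0 := hi_nonneg (y⁻¹ : K)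
  have hF1 : 199 / 200 * H - C1 ≤ F := by linarith
  have hF2 : F ≤ H := by linarith
  have hF0 : 0 ≤ F := by linarith
  have hHy1 : t * F ≤ Hy := by linarith
  have hHy2 : 199 / 200 * Hy - C1 ≤ t * F := by linarith
  have hH0 : 0 < H := by linarith
  -- bounds for d
  have hd1 : d ≤ 9 / 8 := by
    by_contra hcd
    push Not at hcd
    have h1 : t * F ≤ 17 / 16 * H := by nlinarith
    have h2 : 9 / 8 * (H - c) ≤ d * H1 := by
      have : 9 / 8 * (H - c) ≤ 9 / 8 * H1 := by linarith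
      have h3 : 9 / 8 * H1 ≤ d * H1 := mul_le_mul_of_nonneg_right hcd.le (by linarith)
      linarith
    linarith
  have hd2 : 7 / 8 ≤ d := by
    by_contra hcd
    push Not at hcd
    have h1 : 15 / 16 * F ≤ t * F := mul_le_mul_of_nonneg_right ht1 hF0
    have h2 : d * H1 ≤ 7 / 8 * (H + c) := by
      have h3 : d * H1 ≤ 7 / 8 * H1 := mul_le_mul_of_nonneg_right hcd.le (by linarith)
      linarith
    linarith
  -- bound for b
  have hz : (1 - x : K) ≠ 0 := sub_ne_zero.2 (Ne.symm h.x1)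
  have hw : (1 - y : K) ≠ 0 := sub_ne_zero.2 (Ne.symm h.y1)
  obtain ⟨v, hv⟩ := exists_inf_large ((1 - x)⁻¹ : K) (inv_ne_zero hz)
    (fun v => by rw [map_inv₀, h.f1 v, inv_one])
  rw [logHeight₁_inv, ← hH1, map_inv₀, log_inv] at hv
  obtain ⟨L, hL⟩ : ∃ L : ℝ, L = -log (v (1 - x)) := ⟨_, rfl⟩
  rw [← hL, div_le_iff₀ hn0] at hv
  have hL2 : 2 * log 2 ≤ L := by
    have : finrank ℚ K * (2 * log 2) ≤ finrank ℚ K * L := by
      have : (finrank ℚ K : ℝ) * (2 * log 2) = 2 * c := by rw [hc]; ring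
      rw [this]
      linarith
    exact le_of_mul_le_mul_left this hn0
  have hvz : 0 < v (1 - x) := InfinitePlace.pos_iff.2 hz
  have hvw : 0 < v (1 - y) := InfinitePlace.pos_iff.2 hw
  have hvx : 0 < v x := InfinitePlace.pos_iff.2 h.x0
  have hvy : 0 < v y := InfinitePlace.pos_iff.2 h.y0
  have hlogw : log (v (1 - y)) = d * log (v (1 - x)) := by
    have := congrArg v h.hy1
    rw [map_pow, map_zpow₀] at this
    have := congrArg log this
    rw [log_pow, log_zpow, hdN] at this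
    have h2 : (N : ℝ) * log (v (1 - y)) = N * (d * log (v (1 - x))) := by linarith
    exact mul_left_cancel₀ hN0.ne' h2
  have hhalf : ∀ z : ℝ, 0 < z → log z ≤ -log 2 → z ≤ 1 / 2 := by
    intro z hz hz2
    rw [← log_le_log_iff hz (by norm_num), one_div, log_inv]
    exact hz2
  have hx2 : |log (v x)| ≤ log 2 := one_abs_log v x (hhalf _ hvz (by linarith))
  have hy2 : |log (v y)| ≤ log 2 := one_abs_log v y (hhalf _ hvw (by rw [hlogw]; nlinarith))
  have hrel : (N : ℝ) * log (v y) = A * log (v x) + B * log (v (1 - x)) := by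
    have := congrArg v h.hy
    rw [map_pow, map_mul, map_pow, map_zpow₀] at this
    have := congrArg log this
    rw [log_pow, log_mul (pow_pos hvx _).ne' (zpow_pos hvz _).ne', log_pow, log_zpow] at this
    exact this
  have hLpos : 0 < L := by linarith
  have hbL : |(B : ℝ)| * L ≤ 3 * N * log 2 := by
    have e : (B : ℝ) * L = A * log (v x) - N * log (v y) := by rw [hL]; linarith
    have e2 : |(B : ℝ)| * L = |A * log (v x) - N * log (v y)| := by
      rw [← e, abs_mul, abs_of_pos hLpos]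
    rw [e2]
    have h1 : |A * log (v x) - N * log (v y)| ≤ |A * log (v x)| + |N * log (v y)| := abs_sub _ _
    rw [abs_mul, abs_mul, Nat.abs_cast, Nat.abs_cast] at h1
    have hAr : (0 : ℝ) ≤ A := Nat.cast_nonneg A
    have h2 : (A : ℝ) * |log (v x)| ≤ A * log 2 := mul_le_mul_of_nonneg_left hx2 hAr
    have h3 : (N : ℝ) * |log (v y)| ≤ N * log 2 := mul_le_mul_of_nonneg_left hy2 hN0.le
    have h4 : (A : ℝ) * log 2 ≤ 2 * N * log 2 :=
      mul_le_mul_of_nonneg_right (by linarith) hlog2.le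
    linarith
  have hbH : |(B : ℝ)| * H1 ≤ 3 * N * c := by
    have h1 : |(B : ℝ)| * H1 ≤ |(B : ℝ)| * (L * finrank ℚ K) :=
      mul_le_mul_of_nonneg_left hv (abs_nonneg _)
    have h2 : |(B : ℝ)| * L * finrank ℚ K ≤ 3 * N * log 2 * finrank ℚ K :=
      mul_le_mul_of_nonneg_right hbL hn0.le
    have e : 3 * N * c = 3 * N * log 2 * finrank ℚ K := by rw [hc]; ring
    rw [e]
    linarith
  -- heights of the quotients
  have hq1 : N * logHeight₁ (y / x) ≤ |t - 1| * N * H + 3 * N * c := by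
    have e : (y / x) ^ N = x ^ ((A : ℤ) - N) * (1 - x) ^ B := by
      rw [div_pow, h.hy, zpow_sub₀ h.x0, zpow_natCast, zpow_natCast]
      ring
    rw [← logHeight₁_pow, e]
    have h1 := logHeight₁_mul_le (x ^ ((A : ℤ) - N)) ((1 - x) ^ B)
    rw [logHeight₁_zpow, logHeight₁_zpow, ← hH, ← hH1] at h1
    have e1 : ((((A : ℤ) - N).natAbs : ℕ) : ℝ) = |t - 1| * N := by
      rw [Nat.cast_natAbs]
      push_cast
      rw [htN, show t * N - (N : ℝ) = (t - 1) * N by ring, abs_mul, Nat.abs_cast]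
    have e2 : ((B.natAbs : ℕ) : ℝ) = |(B : ℝ)| := by
      rw [Nat.cast_natAbs]; push_cast; rfl
    rw [e1, e2] at h1
    linarith
  have hq2 : N * logHeight₁ ((1 - y) / (1 - x)) = |d - 1| * N * H1 := by
    have e : ((1 - y) / (1 - x)) ^ N = (1 - x) ^ (D - N) := by
      rw [div_pow, h.hy1, zpow_sub₀ hz, zpow_natCast]
    rw [← logHeight₁_pow, e, logHeight₁_zpow, ← hH1]
    have e1 : (((D - N).natAbs : ℕ) : ℝ) = |d - 1| * N := by
      rw [Nat.cast_natAbs]
      push_cast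
      rw [hdN, show d * N - (N : ℝ) = (d - 1) * N by ring, abs_mul, Nat.abs_cast]
    rw [e1]
  have hnear := near x y h.x0 h.x1 h.y0 h.y1 hne
  rw [← hc, ← hH] at hnear
  have ht' : |t - 1| ≤ 1 / 16 := by rw [abs_le]; constructor <;> linarith
  have hd' : |d - 1| ≤ 1 / 8 := by rw [abs_le]; constructor <;> linarith
  have hq1' : logHeight₁ (y / x) ≤ 1 / 16 * H + 3 * c := by
    have h1 : |t - 1| * N * H ≤ 1 / 16 * N * H :=
      mul_le_mul_of_nonneg_right (mul_le_mul_of_nonneg_right ht' hN0.le) hH0.le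
    have h2 : N * logHeight₁ (y / x) ≤ N * (1 / 16 * H + 3 * c) := by linarith
    exact le_of_mul_le_mul_left h2 hN0
  have hH10 : 0 ≤ H1 := by linarith
  have hq2' : logHeight₁ ((1 - y) / (1 - x)) ≤ 1 / 8 * (H + c) := by
    have h1 : |d - 1| * N * H1 ≤ 1 / 8 * N * H1 :=
      mul_le_mul_of_nonneg_right (mul_le_mul_of_nonneg_right hd' hN0.le) hH10
    have h3 : 1 / 8 * (N : ℝ) * H1 ≤ 1 / 8 * N * (H + c) :=
      mul_le_mul_of_nonneg_left c1 (by positivity)
    have h2 : N * logHeight₁ ((1 - y) / (1 - x)) ≤ N * (1 / 8 * (H + c)) := by linarith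
    exact le_of_mul_le_mul_left h2 hN0
  linarith

end Pool.Agent.CITNF
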