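import Pool.Agent.CITNF.Defs

set_option autoImplicit false

/-! P3. Basic facts on finite places. Mathlib: NumberTheory/NumberField/Completion/FinitePlace
(`FinitePlace.hasFiniteMulSupport`, `norm_def`, `adicAbv`, `one_lt_absNorm`, ...), ProductFormula
(`prod_abs_eq_one`), `Ideal.finite_setOfPred_absNorm_le`, Height/NumberField. -/

namespace Pool.Agent.CITNF

open NumberField Height Real Module

variable {K : Type} [Field K] [NumberField K]

theorem hf_nonneg (x : K) : 0 ≤ hf x :=
  finsum_nonneg fun _ => posLog_nonneg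

theorem hi_nonneg (x : K) : 0 ≤ hi x :=
  Finset.sum_nonneg fun _ _ => mul_nonneg (Nat.cast_nonneg _) posLog_nonneg

theorem hf_support (x : K) : (Function.support fun v : FinitePlace K => log⁺ (v x)).Finite := by
  rcases eq_or_ne x 0 with rfl | hx
  · have h : (Function.support fun v : FinitePlace K => log⁺ (v (0 : K))) = ∅ := by
      ext v
      simp
    rw [h]
    exact Set.finite_empty
  · refine (FinitePlace.hasFiniteMulSupport hx).subset fun v hv => ?_
    rw [Function.mem_support] at hv
    rw [Function.mem_mulSupport]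
    intro h1
    apply hv
    change log⁺ (v x) = 0
    rw [show v x = 1 from h1, posLog_one]

private theorem places_two_le (v : FinitePlace K) :
    (2 : ℝ) ≤ (Ideal.absNorm v.maximalIdeal.asIdeal : ℝ) := by
  have h := NumberField.HeightOneSpectrum.one_lt_absNorm v.maximalIdeal
  exact_mod_cast h

private theorem places_lN_pos (v : FinitePlace K) : 0 < lN v :=
  Real.log_pos (by linarith [places_two_le v])

theorem log_two_le_lN (v : FinitePlace K) : log 2 ≤ lN v :=
  Real.log_le_log (by norm_num) (places_two_le v)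

private theorem places_ord_int (v : FinitePlace K) {a : 𝓞 K} (ha : a ≠ 0) :
    ∃ k : ℕ, log (v (a : K)) = -(k * lN v) := by
  have h := FinitePlace.apply_mul_absNorm_pow_eq_one v ha
  refine ⟨multiplicity v.maximalIdeal.asIdeal (Ideal.span {a}), ?_⟩
  have hN : (0 : ℝ) < (Ideal.absNorm v.maximalIdeal.asIdeal : ℝ) := by
    linarith [places_two_le v]
  have hva : 0 < v (a : K) := FinitePlace.pos_iff.2 (RingOfIntegers.coe_ne_zero_iff.2 ha)
  have h2 := congrArg Real.log h
  rw [Real.log_mul hva.ne' (pow_pos hN _).ne', Real.log_pow, Real.log_one] at h2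
  unfold lN
  linarith

/-- values of a finite place are integral powers of the norm -/
theorem exists_ord (v : FinitePlace K) (x : K) (hx : x ≠ 0) : ∃ k : ℤ, log (v x) = k * lN v := by
  obtain ⟨a, b, hb, rfl⟩ := IsFractionRing.div_surjective (𝓞 K) x
  have hb0 : b ≠ 0 := nonZeroDivisors.ne_zero hb
  have ha0 : a ≠ 0 := by
    rintro rfl
    simp at hx
  obtain ⟨k, hk⟩ := places_ord_int v ha0
  obtain ⟨l, hl⟩ := places_ord_int v hb0
  refine ⟨(l : ℤ) - k, ?_⟩
  have hva : 0 < v (algebraMap (𝓞 K) K a) :=
    FinitePlace.pos_iff.2 (RingOfIntegers.coe_ne_zero_iff.2 ha0)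
  have hvb : 0 < v (algebraMap (𝓞 K) K b) :=
    FinitePlace.pos_iff.2 (RingOfIntegers.coe_ne_zero_iff.2 hb0)
  rw [map_div₀, Real.log_div hva.ne' hvb.ne']
  have hk' : log (v (algebraMap (𝓞 K) K a)) = -(k * lN v) := hk
  have hl' : log (v (algebraMap (𝓞 K) K b)) = -(l * lN v) := hl
  rw [hk', hl']
  push_cast
  ring

theorem finite_lN_le (B : ℝ) : {v : FinitePlace K | lN v ≤ B}.Finite := by
  have h := Ideal.finite_setOfPred_absNorm_le (S := 𝓞 K) ⌊Real.exp B⌋₊
  have hinj : Function.Injective fun v : FinitePlace K => v.maximalIdeal.asIdeal :=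
    IsDedekindDomain.HeightOneSpectrum.asIdeal_injective.comp FinitePlace.maximalIdeal_injective
  refine (h.preimage hinj.injOn).subset fun v hv => ?_
  have hv' : lN v ≤ B := hv
  change Ideal.absNorm v.maximalIdeal.asIdeal ≤ ⌊Real.exp B⌋₊
  have hN : (0 : ℝ) < (Ideal.absNorm v.maximalIdeal.asIdeal : ℝ) := by
    linarith [places_two_le v]
  refine Nat.le_floor ?_
  rw [← Real.log_le_iff_le_exp hN]
  exact hv'

theorem natCast_le_one (v : FinitePlace K) (p : ℕ) : v (p : K) ≤ 1 := by
  have h := NumberField.FinitePlace.norm_le_one K v.maximalIdeal (p : 𝓞 K)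
  rw [FinitePlace.norm_embedding_eq] at h
  simpa using h

theorem natCast_support (p : ℕ) (hp : p ≠ 0) :
    (Function.support fun v : FinitePlace K => -log (v (p : K))).Finite := by
  have hp' : (p : K) ≠ 0 := Nat.cast_ne_zero.2 hp
  refine (FinitePlace.hasFiniteMulSupport hp').subset fun v hv => ?_
  rw [Function.mem_support] at hv
  rw [Function.mem_mulSupport]
  intro h1
  apply hv
  change -log (v (p : K)) = 0
  rw [show v (p : K) = 1 from h1, Real.log_one, neg_zero]

/-- product formula for a positive integer -/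
theorem sum_natCast (p : ℕ) (hp : p ≠ 0) :
    ∑ᶠ v : FinitePlace K, -log (v (p : K)) = finrank ℚ K * log p := by
  have hp' : (p : K) ≠ 0 := Nat.cast_ne_zero.2 hp
  have h1 := FinitePlace.prod_eq_inv_abs_norm (K := K) hp'
  have h2 : Algebra.norm ℚ (p : K) = (p : ℚ) ^ finrank ℚ K := by
    have h3 := Algebra.norm_algebraMap (R := ℚ) (S := K) (p : ℚ)
    rwa [map_natCast] at h3
  rw [h2] at h1
  have h4 : log (∏ᶠ v : FinitePlace K, v (p : K)) = ∑ᶠ v : FinitePlace K, log (v (p : K)) :=
    Real.log_finprod fun v => FinitePlace.pos_iff.2 hp'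
  rw [h1] at h4
  rw [finsum_neg_distrib, ← h4]
  push_cast
  rw [Real.log_inv, neg_neg, abs_of_nonneg (by positivity), Real.log_pow]

theorem neg_log_natCast_le (v : FinitePlace K) (p : ℕ) (hp : p ≠ 0) :
    -log (v (p : K)) ≤ finrank ℚ K * log p := by
  rw [← sum_natCast p hp]
  exact single_le_finsum v (natCast_support p hp) fun w =>
    neg_nonneg.2 (Real.log_nonpos (apply_nonneg w _) (natCast_le_one w p))

private theorem places_valuation_le (z : K) (v : IsDedekindDomain.HeightOneSpectrum (𝓞 K))
    (h : FinitePlace.mk v z ≤ 1) : v.valuation K z ≤ 1 := by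
  rw [FinitePlace.mk_apply, NumberField.FinitePlace.norm_embedding,
    NumberField.HeightOneSpectrum.adicAbv_def] at h
  exact (WithZeroMulInt.toNNReal_le_one_iff
    (NumberField.HeightOneSpectrum.one_lt_absNorm_nnreal v)).1 (by exact_mod_cast h)

theorem exists_unit (z : K) (hz : ∀ v : FinitePlace K, v z = 1) :
    ∃ η : (𝓞 K)ˣ, ((η : 𝓞 K) : K) = z := by
  have hzi : ∀ v : FinitePlace K, v z⁻¹ = 1 := fun v => by rw [map_inv₀, hz v, inv_one]
  obtain ⟨a, ha⟩ := IsDedekindDomain.HeightOneSpectrum.mem_integers_of_valuation_le_one K z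
    fun v => places_valuation_le z v (hz _).le
  obtain ⟨b, hb⟩ := IsDedekindDomain.HeightOneSpectrum.mem_integers_of_valuation_le_one K z⁻¹
    fun v => places_valuation_le z⁻¹ v (hzi _).le
  have hz0 : z ≠ 0 := by
    rintro rfl
    obtain ⟨v⟩ : Nonempty (FinitePlace K) := by
      by_contra hcon
      rw [not_nonempty_iff] at hcon
      have h1 := sum_natCast (K := K) 2 (by norm_num)
      rw [finsum_of_isEmpty] at h1
      have h2 : (0 : ℝ) < finrank ℚ K := by exact_mod_cast finrank_pos
      have h3 : (0 : ℝ) < log (2 : ℕ) := Real.log_pos (by norm_num)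
      have h4 := mul_pos h2 h3
      linarith
    have h1 := hz v
    rw [map_zero] at h1
    exact zero_ne_one h1
  have hab : a * b = 1 := by
    apply FaithfulSMul.algebraMap_injective (𝓞 K) K
    rw [map_mul, ha, hb, mul_inv_cancel₀ hz0, map_one]
  refine ⟨⟨a, b, hab, by rw [mul_comm, hab]⟩, ha⟩

theorem max_one (v : FinitePlace K) (x : K) : v (1 - x) ≤ max 1 (v x) := by
  have h := FinitePlace.add_le v 1 (-x)
  rw [map_neg_eq_map, map_one, ← sub_eq_add_neg] at h
  exact h

theorem one_sub_eq_one (v : FinitePlace K) (x : K) (h : v x < 1) : v (1 - x) = 1 := by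
  have h1 := max_one v x
  rw [max_eq_left h.le] at h1
  have h2 := FinitePlace.add_le v (1 - x) x
  rw [sub_add_cancel, map_one] at h2
  rcases le_max_iff.1 h2 with h3 | h3
  · exact le_antisymm h1 h3
  · linarith

theorem one_sub_eq (v : FinitePlace K) (x : K) (h : 1 < v x) : v (1 - x) = v x := by
  have h1 := max_one v x
  rw [max_eq_right h.le] at h1
  have h2 := max_one v (1 - x)
  rw [sub_sub_cancel] at h2
  rcases le_max_iff.1 h2 with h3 | h3
  · linarith
  · exact le_antisymm h1 h3

theorem hf_one_sub_le (x : K) : hf (1 - x) ≤ hf x := by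
  refine finsum_le_finsum' (hf_support (1 - x)) (hf_support x) fun v => ?_
  have h := max_one v x
  rcases le_max_iff.1 h with h1 | h1
  · have h2 : log⁺ (v (1 - x)) = 0 := by
      rw [posLog_eq_zero_iff, abs_of_nonneg (apply_nonneg v _)]
      exact h1
    rw [h2]
    exact posLog_nonneg
  · exact posLog_le_posLog (apply_nonneg v _) h1

/-- integral elements: the height comes from the infinite places; one of them carries at least the
average (if the height is `0` use the product formula) -/
theorem exists_inf_large (x : K) (hx : x ≠ 0) (h : ∀ v : FinitePlace K, v x ≤ 1) :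
    ∃ v : InfinitePlace K, logHeight₁ x / finrank ℚ K ≤ log (v x) := by
  have hn : (0 : ℝ) < finrank ℚ K := by exact_mod_cast finrank_pos
  have hf0 : hf x = 0 := by
    have h1 : (fun v : FinitePlace K => log⁺ (v x)) = fun _ => 0 := by
      funext v
      rw [posLog_eq_zero_iff, abs_of_nonneg (apply_nonneg v _)]
      exact h v
    unfold hf
    rw [h1, finsum_zero]
  have hlh : logHeight₁ x = hi x := by rw [lh_eq, hf0, add_zero]
  have hmult : ∑ v : InfinitePlace K, (v.mult : ℝ) = finrank ℚ K := by
    exact_mod_cast InfinitePlace.sum_mult_eq (K := K)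
  by_contra hcon
  push Not at hcon
  set c : ℝ := logHeight₁ x / finrank ℚ K with hc
  have hH : logHeight₁ x = c * finrank ℚ K := by
    rw [hc]
    field_simp
  have hc0 : 0 ≤ c := by
    rw [hc, hlh]
    exact div_nonneg (hi_nonneg x) hn.le
  have hmp : ∀ v : InfinitePlace K, (0 : ℝ) < v.mult := fun v => by
    exact_mod_cast InfinitePlace.mult_pos
  obtain ⟨v₀⟩ : Nonempty (InfinitePlace K) := inferInstance
  rcases hc0.eq_or_lt with hc1 | hc1
  · -- height zero
    have h1 := prod_abs_eq_one hx
    have h2 := congrArg Real.log h1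
    have hpos1 : ∀ v : InfinitePlace K, 0 < v x := fun v => InfinitePlace.pos_iff.2 hx
    have hpos2 : ∀ v : FinitePlace K, 0 < v x := fun v => FinitePlace.pos_iff.2 hx
    have hpp : 0 < ∏ w : InfinitePlace K, w x ^ w.mult :=
      Finset.prod_pos fun w _ => pow_pos (hpos1 w) _
    have hfp : ∏ᶠ w : FinitePlace K, w x ≠ 0 := by
      intro h0
      rw [h0, mul_zero] at h1
      exact zero_ne_one h1
    rw [Real.log_mul hpp.ne' hfp, Real.log_finprod hpos2, Real.log_one,
      Real.log_prod fun w _ => (pow_pos (hpos1 w) _).ne'] at h2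
    have h3 : ∑ᶠ w : FinitePlace K, log (w x) ≤ 0 := by
      have h4 : 0 ≤ ∑ᶠ w : FinitePlace K, -log (w x) :=
        finsum_nonneg fun w => neg_nonneg.2 (Real.log_nonpos (hpos2 w).le (h w))
      rw [finsum_neg_distrib] at h4
      linarith
    have h5 : ∑ w : InfinitePlace K, log (w x ^ w.mult) < 0 := by
      refine Finset.sum_neg (fun w _ => ?_) ⟨v₀, Finset.mem_univ _⟩
      rw [Real.log_pow]
      have := hcon w
      rw [← hc1] at this
      exact mul_neg_of_pos_of_neg (hmp w) this
    linarith
  · have h1 : hi x < ∑ v : InfinitePlace K, (v.mult : ℝ) * c := by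
      refine Finset.sum_lt_sum_of_nonempty ⟨v₀, Finset.mem_univ _⟩ fun v _ => ?_
      refine mul_lt_mul_of_pos_left ?_ (hmp v)
      rw [posLog_apply]
      exact max_lt hc1 (hcon v)
    rw [← Finset.sum_mul, hmult, ← hlh, hH, mul_comm] at h1
    exact lt_irrefl _ h1

end Pool.Agent.CITNF
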