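import Pool.Agent.CITNF.Defs

set_option autoImplicit false

/-! Relations between two points of the line `x + y = 1`. -/

namespace Pool.Agent.CITNF

section Field

variable {K : Type} [Field K]

/-- The monomial with exponents `a` in `x, 1 - x, y, 1 - y`. -/
def R (x y : K) (a : Fin 4 → ℤ) : K :=
  x ^ (a 0) * (1 - x) ^ (a 1) * (y ^ (a 2) * (1 - y) ^ (a 3))

/-- Two independent multiplicative relations. -/
def Rel2 (x y : K) : Prop :=
  ∃ a b : Fin 4 → ℤ, (∀ s t : ℤ, s • a + t • b = 0 → s = 0 ∧ t = 0) ∧ R x y a = 1 ∧ R x y b = 1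

/-- `y` is in the orbit of `x` under the six symmetries. -/
def Eqv (x y : K) : Prop :=
  y = x ∨ y = 1 - x ∨ y = x⁻¹ ∨ y = (1 - x)⁻¹ ∨ y = x / (x - 1) ∨ y = (x - 1) / x

theorem R_comb {x y : K} (hx : x ≠ 0) (hx1 : x ≠ 1) (hy : y ≠ 0) (hy1 : y ≠ 1)
    (a b : Fin 4 → ℤ) (s t : ℤ) : R x y (s • a + t • b) = R x y a ^ s * R x y b ^ t := by
  have h1 : (1 - x) ≠ 0 := sub_ne_zero.mpr hx1.symm
  have h2 : (1 - y) ≠ 0 := sub_ne_zero.mpr hy1.symm
  simp only [R, Pi.add_apply, Pi.smul_apply, smul_eq_mul]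
  rw [zpow_add₀ hx, zpow_add₀ h1, zpow_add₀ hy, zpow_add₀ h2]
  simp only [mul_zpow, ← zpow_mul]
  simp only [mul_comm s, mul_comm t]
  ring

theorem R_smul {x y : K} (a : Fin 4 → ℤ) (s : ℤ) : R x y (s • a) = R x y a ^ s := by
  simp only [R, Pi.smul_apply, smul_eq_mul]
  simp only [mul_zpow, ← zpow_mul]
  simp only [mul_comm s]

theorem R_symm (x y : K) (a : Fin 4 → ℤ) : R y x ![a 2, a 3, a 0, a 1] = R x y a := by
  simp [R]
  ring

theorem R_one_sub (x y : K) (a : Fin 4 → ℤ) : R (1 - x) y ![a 1, a 0, a 2, a 3] = R x y a := by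
  simp only [R, Matrix.cons_val_zero, Matrix.cons_val_one, Matrix.cons_val, sub_sub_cancel]
  rw [mul_comm ((1 - x) ^ a 1)]

theorem R_inv {x : K} (hx : x ≠ 0) (hx1 : x ≠ 1) (y : K) (a : Fin 4 → ℤ) :
    R x⁻¹ y ![2 * (-a 0 - a 1), 2 * a 1, 2 * a 2, 2 * a 3] = R x y a ^ 2 := by
  have h1 : (1 - x) ≠ 0 := sub_ne_zero.mpr hx1.symm
  have h3 : (1 - x⁻¹) ^ 2 = (1 - x) ^ 2 * (x⁻¹) ^ 2 := by
    field_simp
    ring
  have key : (1 - x⁻¹) ^ (2 * a 1) = (1 - x) ^ (2 * a 1) * (x ^ (2 * a 1))⁻¹ := by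
    rw [zpow_mul, zpow_mul, zpow_mul]
    have h3' : (1 - x⁻¹) ^ (2 : ℤ) = (1 - x) ^ (2 : ℤ) * (x ^ (2 : ℤ))⁻¹ := by
      have := h3
      rw [inv_pow] at this
      exact_mod_cast this
    rw [h3', mul_zpow, inv_zpow]
  simp only [R, Matrix.cons_val_zero, Matrix.cons_val_one, Matrix.cons_val]
  rw [key, inv_zpow']
  have e1 : x ^ (-(2 * (-a 0 - a 1))) = x ^ (2 * a 0) * x ^ (2 * a 1) := by
    rw [← zpow_add₀ hx]
    congr 1
    ring
  rw [e1]
  have hne : x ^ (2 * a 1) ≠ 0 := zpow_ne_zero _ hx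
  have p : ∀ z : K, ∀ c : ℤ, z ^ (2 * c) = (z ^ c) ^ 2 := by
    intro z c
    rw [mul_comm, zpow_mul]
    norm_cast
  rw [p x (a 0), p (1 - x), p y, p (1 - y)]
  field_simp

theorem Eqv.symm {x y : K} (hx : x ≠ 0) (hx1 : x ≠ 1) (h : Eqv x y) : Eqv y x := by
  have h1 : (1 - x) ≠ 0 := sub_ne_zero.mpr hx1.symm
  have h2 : (x - 1) ≠ 0 := sub_ne_zero.mpr hx1
  unfold Eqv at *
  rcases h with h | h | h | h | h | h
  · left; exact h.symm
  · right; left; rw [h]; ring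
  · right; right; left; rw [h]; simp
  · right; right; right; right; right; rw [h]; field_simp; ring
  · right; right; right; right; left
    rw [h]
    have : x / (x - 1) - 1 = 1 / (x - 1) := by field_simp; ring
    rw [this]
    field_simp
  · right; right; right; left; rw [h]
    have : 1 - (x - 1) / x = x⁻¹ := by field_simp; ring
    rw [this, inv_inv]

theorem Eqv.of_one_sub {x y : K} (hx : x ≠ 0) (hx1 : x ≠ 1) (h : Eqv (1 - x) y) : Eqv x y := by
  have h1 : (1 - x) ≠ 0 := sub_ne_zero.mpr hx1.symm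
  have h2 : (x - 1) ≠ 0 := sub_ne_zero.mpr hx1
  unfold Eqv at *
  rcases h with h | h | h | h | h | h
  · right; left; exact h
  · left; rw [h]; ring
  · right; right; right; left; exact h
  · right; right; left; rw [h]; ring
  · right; right; right; right; right; rw [h]
    have : (1 - x) - 1 = -x := by ring
    rw [this]
    field_simp
    ring
  · right; right; right; right; left; rw [h]
    have : (1 - x) - 1 = -x := by ring
    rw [this]
    have h3 : (x - 1) = -(1 - x) := by ring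
    rw [h3, neg_div, div_neg]

theorem Eqv.of_inv {x y : K} (hx : x ≠ 0) (hx1 : x ≠ 1) (h : Eqv x⁻¹ y) : Eqv x y := by
  have h1 : (1 - x) ≠ 0 := sub_ne_zero.mpr hx1.symm
  have h2 : (x - 1) ≠ 0 := sub_ne_zero.mpr hx1
  unfold Eqv at *
  rcases h with h | h | h | h | h | h
  · right; right; left; exact h
  · right; right; right; right; right; rw [h]; field_simp
  · left; rw [h]; simp
  · right; right; right; right; left; rw [h]
    have : 1 - x⁻¹ = (x - 1) / x := by field_simp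
    rw [this, inv_div]
  · right; right; right; left; rw [h]
    have : x⁻¹ - 1 = (1 - x) / x := by field_simp
    rw [this]
    field_simp
  · right; left; rw [h]
    field_simp

theorem MI.one_sub {x : K} (h : MI x) : MI (1 - x) := by
  intro a b hab
  rw [sub_sub_cancel, mul_comm] at hab
  have := h b a hab
  exact ⟨this.2, this.1⟩

theorem one_sub_inv_zpow {x : K} (hx : x ≠ 0) (b : ℤ) :
    (1 - x⁻¹) ^ (2 * b) = (1 - x) ^ (2 * b) * x ^ (-(2 * b)) := by
  have h3 : (1 - x⁻¹) ^ 2 = (1 - x) ^ 2 * (x⁻¹) ^ 2 := by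
    field_simp
    ring
  rw [zpow_neg, zpow_mul, zpow_mul, zpow_mul]
  have h3' : (1 - x⁻¹) ^ (2 : ℤ) = (1 - x) ^ (2 : ℤ) * (x ^ (2 : ℤ))⁻¹ := by
    rw [inv_pow] at h3
    exact_mod_cast h3
  rw [h3', mul_zpow, inv_zpow]

theorem MI.inv {x : K} (hx : x ≠ 0) (h : MI x) : MI x⁻¹ := by
  intro a b hab
  have h1 : ((x⁻¹) ^ a * (1 - x⁻¹) ^ b) ^ (2 : ℤ) = 1 := by rw [hab, one_zpow]
  rw [mul_zpow, ← zpow_mul, ← zpow_mul, mul_comm b 2, one_sub_inv_zpow hx, inv_zpow', mul_left_comm,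
    mul_comm, ← zpow_add₀ hx] at h1
  obtain ⟨h5, h6⟩ := h _ _ h1
  constructor <;> omega

end Field

end Pool.Agent.CITNF
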