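import Pool.Agent.CITNF.Norm
import Pool.Agent.CITNF.Comm

set_option autoImplicit false

/-! Reduction of general pairs to normalised pairs by the six symmetries. -/

namespace Pool.Agent.CITNF

open NumberField Height Real Module

section Alg

variable {K : Type} [Field K]

/-- Inequivalent pairs of points of the line generating commensurable groups of rank two. -/
structure Good (x y : K) : Prop where
  x0 : x ≠ 0
  x1 : x ≠ 1
  y0 : y ≠ 0
  y1 : y ≠ 1
  mx : MI x
  my : MI y
  rel : Rel2 x y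
  ne : ¬ Eqv x y

theorem Good.symm {x y : K} (h : Good x y) : Good y x where
  x0 := h.y0
  x1 := h.y1
  y0 := h.x0
  y1 := h.x1
  mx := h.my
  my := h.mx
  rel := by
    obtain ⟨a, b, hind, ha, hb⟩ := h.rel
    refine ⟨![a 2, a 3, a 0, a 1], ![b 2, b 3, b 0, b 1], ?_, ?_, ?_⟩
    · intro s t hst
      apply hind s t
      have e0 := congrFun hst 0
      have e1 := congrFun hst 1
      have e2 := congrFun hst 2
      have e3 := congrFun hst 3
      simp at e0 e1 e2 e3
      funext i
      fin_cases i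
      · simpa using e2
      · simpa using e3
      · simpa using e0
      · simpa using e1
    · rw [R_symm, ha]
    · rw [R_symm, hb]
  ne := fun h' => h.ne (h'.symm h.y0 h.y1)

theorem Good.one_sub {x y : K} (h : Good x y) : Good (1 - x) y where
  x0 := sub_ne_zero.mpr h.x1.symm
  x1 := by
    intro h'
    apply h.x0
    linear_combination -h'
  y0 := h.y0
  y1 := h.y1
  mx := h.mx.one_sub
  my := h.my
  rel := by
    obtain ⟨a, b, hind, ha, hb⟩ := h.rel
    refine ⟨![a 1, a 0, a 2, a 3], ![b 1, b 0, b 2, b 3], ?_, ?_, ?_⟩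
    · intro s t hst
      apply hind s t
      have e0 := congrFun hst 0
      have e1 := congrFun hst 1
      have e2 := congrFun hst 2
      have e3 := congrFun hst 3
      simp at e0 e1 e2 e3
      funext i
      fin_cases i
      · simpa using e1
      · simpa using e0
      · simpa using e2
      · simpa using e3
    · rw [R_one_sub, ha]
    · rw [R_one_sub, hb]
  ne := fun h' => h.ne (h'.of_one_sub h.x0 h.x1)

theorem Good.inv {x y : K} (h : Good x y) : Good x⁻¹ y where
  x0 := inv_ne_zero h.x0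
  x1 := by
    intro h'
    exact h.x1 (inv_eq_one.mp h')
  y0 := h.y0
  y1 := h.y1
  mx := h.mx.inv h.x0
  my := h.my
  rel := by
    obtain ⟨a, b, hind, ha, hb⟩ := h.rel
    refine ⟨![2 * (-a 0 - a 1), 2 * a 1, 2 * a 2, 2 * a 3],
      ![2 * (-b 0 - b 1), 2 * b 1, 2 * b 2, 2 * b 3], ?_, ?_, ?_⟩
    · intro s t hst
      apply hind s t
      have e0 := congrFun hst 0
      have e1 := congrFun hst 1
      have e2 := congrFun hst 2
      have e3 := congrFun hst 3
      simp at e0 e1 e2 e3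
      funext i
      fin_cases i
      · simp
        linarith
      · simp
        linarith
      · simp
        linarith
      · simp
        linarith
    · rw [R_inv h.x0 h.x1, ha, one_pow]
    · rw [R_inv h.x0 h.x1, hb, one_pow]
  ne := fun h' => h.ne (h'.of_inv h.x0 h.x1)

theorem Good.one_sub' {x y : K} (h : Good x y) : Good x (1 - y) := h.symm.one_sub.symm

theorem Good.inv' {x y : K} (h : Good x y) : Good x y⁻¹ := h.symm.inv.symm

theorem sw_eq {x : K} (hx : x ≠ 0) (hx1 : x ≠ 1) : x / (x - 1) = (1 - x⁻¹)⁻¹ := by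
  have h2 : (x - 1) ≠ 0 := sub_ne_zero.mpr hx1
  have : 1 - x⁻¹ = (x - 1) / x := by field_simp
  rw [this, inv_div]

theorem one_sub_sw {x : K} (hx1 : x ≠ 1) : 1 - x / (x - 1) = (1 - x)⁻¹ := by
  have h1 : (1 - x) ≠ 0 := sub_ne_zero.mpr hx1.symm
  have h3 : (x - 1) = -(1 - x) := by ring
  rw [h3]
  field_simp
  ring

theorem Good.sw {x y : K} (h : Good x y) : Good (x / (x - 1)) y := by
  rw [sw_eq h.x0 h.x1]
  exact h.inv.one_sub.inv

theorem Good.sw' {x y : K} (h : Good x y) : Good x (y / (y - 1)) := h.symm.sw.symm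

end Alg

section NF

variable {K : Type} [Field K] [NumberField K]

theorem log_comm {x y : K} {N : ℕ} {A B C D : ℤ} (hx : x ≠ 0) (hx1 : x ≠ 1)
    (h : Comm x y N A B C D) (v : FinitePlace K) :
    N * log (v y) = A * log (v x) + B * log (v (1 - x)) ∧
    N * log (v (1 - y)) = C * log (v x) + D * log (v (1 - x)) := by
  have h1 : (1 - x) ≠ 0 := sub_ne_zero.mpr hx1.symm
  have vx : v x ≠ 0 := (FinitePlace.pos_iff.mpr hx).ne'
  have v1 : v (1 - x) ≠ 0 := (FinitePlace.pos_iff.mpr h1).ne'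
  have e1 := congrArg (fun z => log (v z)) h.hy
  have e2 := congrArg (fun z => log (v z)) h.hy1
  simp only [map_pow, map_mul, map_zpow₀] at e1 e2
  rw [log_pow, log_mul (zpow_ne_zero _ vx) (zpow_ne_zero _ v1), log_zpow, log_zpow] at e1 e2
  exact ⟨e1, e2⟩

/-- trichotomy at a finite place -/
theorem types (v : FinitePlace K) (x : K) :
    (v x = 1 ∧ v (1 - x) = 1) ∨ (v x < 1 ∧ v (1 - x) = 1) ∨ (v x = 1 ∧ v (1 - x) < 1) ∨
      (1 < v x ∧ v (1 - x) = v x) := by
  rcases lt_trichotomy (v x) 1 with h | h | h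
  · exact Or.inr (Or.inl ⟨h, one_sub_eq_one v x h⟩)
  · have h2 := max_one v x
    rw [h, max_self] at h2
    rcases h2.lt_or_eq with h3 | h3
    · exact Or.inr (Or.inr (Or.inl ⟨h, h3⟩))
    · exact Or.inl ⟨h, h3⟩
  · exact Or.inr (Or.inr (Or.inr ⟨h, one_sub_eq v x h⟩))

/-- A pair with a common place of the first type for both. -/
structure Good1 (v : FinitePlace K) (x y : K) : Prop extends Good x y where
  vx : v x < 1
  vy : v y < 1

theorem comm_aux {x y : K} (hx : x ≠ 0) (hx1 : x ≠ 1) (hy : y ≠ 0) {N : ℕ} {A B C D : ℤ}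
    (hcomm : Comm x y N A B C D) (v : FinitePlace K) (vx : v x < 1) (vy : v y < 1) :
    C = 0 ∧ 0 < A := by
  have hN : (0 : ℝ) < N := by exact_mod_cast hcomm.N0
  obtain ⟨l1, l2⟩ := log_comm hx hx1 hcomm v
  have vx0 : 0 < v x := FinitePlace.pos_iff.mpr hx
  have vy0 : 0 < v y := FinitePlace.pos_iff.mpr hy
  rw [one_sub_eq_one v x vx, log_one, mul_zero, add_zero] at l1 l2
  rw [one_sub_eq_one v y vy, log_one, mul_zero] at l2
  have lx : log (v x) < 0 := log_neg vx0 vx
  have ly : log (v y) < 0 := log_neg vy0 vy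
  constructor
  · have hC0 : (C : ℝ) = 0 := by
      rcases mul_eq_zero.mp l2.symm with h' | h'
      · exact h'
      · exact absurd h' lx.ne
    exact_mod_cast hC0
  · have hA0 : (0 : ℝ) < A := by
      by_contra hcon
      push Not at hcon
      have : 0 ≤ (A : ℝ) * log (v x) := mul_nonneg_of_nonpos_of_nonpos hcon lx.le
      rw [← l1] at this
      nlinarith
    exact_mod_cast hA0

/-- Bounds for pairs with a common place of the first type. -/
theorem good1 (K : Type) [Field K] [NumberField K] :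
    ∃ C : ℝ, ∀ (v : FinitePlace K) (x y : K), Good1 v x y →
      logHeight₁ x ≤ C ∧ logHeight₁ y ≤ C := by
  obtain ⟨C1, hC1⟩ := norm1 K
  obtain ⟨C2, hC2⟩ := norm2 K
  set c := (finrank ℚ K : ℝ) * log 2 with hc
  have hc0 : 0 ≤ c := by positivity
  -- the swap of types two and three
  have hsw : ∀ z : K, z ≠ 0 → z ≠ 1 → logHeight₁ z ≤ logHeight₁ (z / (z - 1)) + 2 * c := by
    intro z hz hz1
    have h1 : (1 - z) ≠ 0 := sub_ne_zero.mpr hz1.symm
    have h2 : (z - 1) ≠ 0 := sub_ne_zero.mpr hz1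
    -- `1 - z/(z-1) = 1/(1-z)`
    have e : 1 - z / (z - 1) = (1 - z)⁻¹ := one_sub_sw hz1
    have a1 := height_one_sub_le (z / (z - 1))
    rw [e, logHeight₁_inv] at a1
    have a2 := height_le_one_sub z
    linarith
  refine ⟨max C1 C2 + 2 * c, ?_⟩
  intro v x y h
  -- main claim when the second place is of type two for both or absent
  have main2 : ∀ x y : K, Good1 v x y → ∀ v1 : FinitePlace K, v1 (1 - x) < 1 → v1 (1 - y) < 1 →
      logHeight₁ x ≤ C2 ∧ logHeight₁ y ≤ C2 := by
    intro x y h v1 hx2 hy2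
    obtain ⟨N, A, B, C, D, hcomm⟩ := exists_comm h.x0 h.x1 h.y0 h.y1 h.rel h.mx
    have hN : (0 : ℝ) < N := by exact_mod_cast hcomm.N0
    obtain ⟨l3, l4⟩ := log_comm h.x0 h.x1 hcomm v1
    obtain ⟨hCi, hAi⟩ := comm_aux h.x0 h.x1 h.y0 hcomm v h.vx h.vy
    have v1x : v1 x = 1 := by
      rcases types v1 x with h' | h' | h' | h'
      · exact h'.1
      · exact absurd h'.2 hx2.ne
      · exact h'.1
      · exact absurd hx2 (by rw [h'.2]; exact not_lt.mpr h'.1.le)
    have v1y : v1 y = 1 := by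
      rcases types v1 y with h' | h' | h' | h'
      · exact h'.1
      · exact absurd h'.2 hy2.ne
      · exact h'.1
      · exact absurd hy2 (by rw [h'.2]; exact not_lt.mpr h'.1.le)
    have h1x : (1 - x) ≠ 0 := sub_ne_zero.mpr h.x1.symm
    have h1y : (1 - y) ≠ 0 := sub_ne_zero.mpr h.y1.symm
    have lx1 : log (v1 (1 - x)) < 0 := log_neg (FinitePlace.pos_iff.mpr h1x) hx2
    have ly1 : log (v1 (1 - y)) < 0 := log_neg (FinitePlace.pos_iff.mpr h1y) hy2
    rw [v1x, log_one, mul_zero, zero_add] at l3 l4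
    rw [v1y, log_one, mul_zero] at l3
    have hB0 : (B : ℝ) = 0 := by
      rcases mul_eq_zero.mp l3.symm with h' | h'
      · exact h'
      · exact absurd h' lx1.ne
    have hD0 : (0 : ℝ) < D := by
      by_contra hcon
      push Not at hcon
      have : 0 ≤ (D : ℝ) * log (v1 (1 - x)) := mul_nonneg_of_nonpos_of_nonpos hcon lx1.le
      rw [← l4] at this
      nlinarith
    have hBi : B = 0 := by exact_mod_cast hB0
    have hDi : 0 < D := by exact_mod_cast hD0
    have hnp : NP2 x y N A.toNat D.toNat := by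
      refine ⟨h.x0, h.x1, h.y0, h.y1, hcomm.N0, by omega, by omega, ?_, ?_, ⟨v, h.vx⟩, ⟨v1, hx2⟩⟩
      · rw [hcomm.hy, hBi, zpow_zero, mul_one, ← zpow_natCast, Int.toNat_of_nonneg hAi.le]
      · rw [hcomm.hy1, hCi, zpow_zero, one_mul, ← zpow_natCast, Int.toNat_of_nonneg hDi.le]
    exact hC2 x y N A.toNat D.toNat hnp h.mx h.my (fun h' => h.ne (Or.inl h'))
  have hlog2 : 0 < log 2 := log_pos one_lt_two
  by_cases hT : ∀ w : FinitePlace K, w x ≤ 1 ∧ w (1 - x) = 1
  · -- second kind
    obtain ⟨N, A, B, C, D, hcomm⟩ := exists_comm h.x0 h.x1 h.y0 h.y1 h.rel h.mx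
    obtain ⟨hCi, hAi⟩ := comm_aux h.x0 h.x1 h.y0 hcomm v h.vx h.vy
    have hdet := hcomm.det_ne h.x0 h.x1 h.my
    have hD : D ≠ 0 := by
      rintro rfl
      apply hdet
      rw [hCi]
      ring
    have hnp : NP1 x y N A.toNat B D := by
      refine ⟨h.x0, h.x1, h.y0, h.y1, hcomm.N0, by omega, hD, ?_, ?_, fun w => (hT w).2,
        fun w => (hT w).1, ⟨v, h.vx⟩, ?_⟩
      · rw [hcomm.hy, ← zpow_natCast x A.toNat, Int.toNat_of_nonneg hAi.le]
      · rw [hcomm.hy1, hCi, zpow_zero, one_mul]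
      · intro m hm hm1
        have := (h.mx 0 m (by simpa using hm1)).2
        omega
    obtain ⟨b1, b2⟩ := hC1 x y N A.toNat B D hnp h.mx h.my (fun h' => h.ne (Or.inl h'))
      (fun h' => h.ne (by unfold Eqv; tauto))
    have := le_max_left C1 C2
    constructor <;> linarith
  · push Not at hT
    obtain ⟨v1, hv1⟩ := hT
    obtain ⟨N, A, B, C, D, hcomm⟩ := exists_comm h.x0 h.x1 h.y0 h.y1 h.rel h.mx
    obtain ⟨hCi, hAi⟩ := comm_aux h.x0 h.x1 h.y0 hcomm v h.vx h.vy
    have hdet := hcomm.det_ne h.x0 h.x1 h.my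
    have hD : D ≠ 0 := by
      rintro rfl
      apply hdet
      rw [hCi]
      ring
    have hN : (N : ℝ) ≠ 0 := by
      have := hcomm.N0
      positivity
    have tx : v1 (1 - x) < 1 ∨ (1 < v1 x ∧ v1 (1 - x) = v1 x) := by
      rcases types v1 x with h' | h' | h' | h'
      · exact absurd h'.2 (hv1 h'.1.le)
      · exact absurd h'.2 (hv1 h'.1.le)
      · exact Or.inl h'.2
      · exact Or.inr h'
    have h1x : (1 - x) ≠ 0 := sub_ne_zero.mpr h.x1.symm
    have h1y : (1 - y) ≠ 0 := sub_ne_zero.mpr h.y1.symm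
    have lne : log (v1 (1 - x)) ≠ 0 := by
      rcases tx with h' | h'
      · exact (log_neg (FinitePlace.pos_iff.mpr h1x) h').ne
      · rw [h'.2]
        exact (log_pos h'.1).ne'
    obtain ⟨_, l4⟩ := log_comm h.x0 h.x1 hcomm v1
    rw [hCi, Int.cast_zero, zero_mul, zero_add] at l4
    have lny : log (v1 (1 - y)) ≠ 0 := by
      intro h0
      rw [h0, mul_zero] at l4
      rcases mul_eq_zero.mp l4.symm with h' | h'
      · exact hD (by exact_mod_cast h')
      · exact lne h'
    have ty : v1 (1 - y) < 1 ∨ (1 < v1 y ∧ v1 (1 - y) = v1 y) := by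
      rcases types v1 y with h' | h' | h' | h'
      · exact absurd (by rw [h'.2, log_one]) lny
      · exact absurd (by rw [h'.2, log_one]) lny
      · exact Or.inl h'.2
      · exact Or.inr h'
    -- replace `x`, `y` by their images
    have step : ∀ z w : K, Good1 v z w →
        (v1 (1 - z) < 1 ∨ (1 < v1 z ∧ v1 (1 - z) = v1 z)) → ∃ z' : K, Good1 v z' w ∧
        v1 (1 - z') < 1 ∧ logHeight₁ z ≤ logHeight₁ z' + 2 * c := by
      intro z w hzw ht
      rcases ht with ht | ht
      · exact ⟨z, hzw, ht, by linarith⟩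
      · refine ⟨z / (z - 1), ⟨hzw.toGood.sw, ?_, hzw.vy⟩, ?_, hsw z hzw.x0 hzw.x1⟩
        · rw [map_div₀, map_sub_rev, one_sub_eq_one v z hzw.vx, div_one]
          exact hzw.vx
        · rw [one_sub_sw hzw.x1, map_inv₀, ht.2]
          exact inv_lt_one_of_one_lt₀ ht.1
    obtain ⟨x', g1, g2, g3⟩ := step x y h tx
    have g1' : Good1 v y x' := ⟨g1.toGood.symm, g1.vy, g1.vx⟩
    obtain ⟨y', g4, g5, g6⟩ := step y x' g1' ty
    have g4' : Good1 v x' y' := ⟨g4.toGood.symm, g4.vy, g4.vx⟩
    obtain ⟨b1, b2⟩ := main2 x' y' g4' v1 g2 g5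
    have := le_max_right C1 C2
    constructor <;> linarith

/-- Bounds for all good pairs. -/
theorem good (K : Type) [Field K] [NumberField K] :
    ∃ C : ℝ, ∀ x y : K, Good x y → logHeight₁ x ≤ C ∧ logHeight₁ y ≤ C := by
  obtain ⟨C1, hC1⟩ := good1 K
  obtain ⟨C2, hC2⟩ := sunit_finite K 0
  set c := (finrank ℚ K : ℝ) * log 2 with hc
  have hc0 : 0 ≤ c := by positivity
  refine ⟨max C1 C2 + c, ?_⟩
  intro x y h
  by_cases hT : ∀ w : FinitePlace K, w x = 1 ∧ w (1 - x) = 1
  · -- both are units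
    have hu : ∀ z : K, z ≠ 0 → z ≠ 1 → (∀ w : FinitePlace K, w z = 1 ∧ w (1 - z) = 1) →
        logHeight₁ z ≤ C2 := by
      intro z hz hz1 hw
      apply hC2 z hz hz1
      · unfold hf
        rw [finsum_eq_zero_of_forall_eq_zero]
        intro w
        rw [(hw w).1]
        simp
      · unfold hf
        rw [finsum_eq_zero_of_forall_eq_zero]
        intro w
        rw [map_inv₀, (hw w).1]
        simp
      · unfold hf
        rw [finsum_eq_zero_of_forall_eq_zero]
        intro w
        rw [map_inv₀, (hw w).2]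
        simp
    obtain ⟨N, A, B, C, D, hcomm⟩ := exists_comm h.x0 h.x1 h.y0 h.y1 h.rel h.mx
    have hN : (N : ℝ) ≠ 0 := by
      have := hcomm.N0
      positivity
    have h1y : (1 - y) ≠ 0 := sub_ne_zero.mpr h.y1.symm
    have ty : ∀ w : FinitePlace K, w y = 1 ∧ w (1 - y) = 1 := by
      intro w
      obtain ⟨l1, l2⟩ := log_comm h.x0 h.x1 hcomm w
      rw [(hT w).1, (hT w).2, log_one, mul_zero, mul_zero, add_zero] at l1 l2
      have p1 : 0 < w y := FinitePlace.pos_iff.mpr h.y0
      have p2 : 0 < w (1 - y) := FinitePlace.pos_iff.mpr h1y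
      exact ⟨eq_one_of_pos_of_log_eq_zero p1 ((mul_eq_zero.mp l1).resolve_left hN),
        eq_one_of_pos_of_log_eq_zero p2 ((mul_eq_zero.mp l2).resolve_left hN)⟩
    have b1 := hu x h.x0 h.x1 hT
    have b2 := hu y h.y0 h.y1 ty
    have := le_max_right C1 C2
    constructor <;> linarith
  · push Not at hT
    obtain ⟨v, hv⟩ := hT
    obtain ⟨N, A, B, C, D, hcomm⟩ := exists_comm h.x0 h.x1 h.y0 h.y1 h.rel h.mx
    have hdet := hcomm.det_ne h.x0 h.x1 h.my
    have h1x : (1 - x) ≠ 0 := sub_ne_zero.mpr h.x1.symm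
    have h1y : (1 - y) ≠ 0 := sub_ne_zero.mpr h.y1.symm
    have nx : ¬ (v x = 1 ∧ v (1 - x) = 1) := fun h' => hv h'.1 h'.2
    have ny : ¬ (v y = 1 ∧ v (1 - y) = 1) := by
      rintro ⟨p1, p2⟩
      obtain ⟨l1, l2⟩ := log_comm h.x0 h.x1 hcomm v
      rw [p1, log_one, mul_zero] at l1
      rw [p2, log_one, mul_zero] at l2
      have hdet' : (A : ℝ) * D - B * C ≠ 0 := by exact_mod_cast hdet
      have q1 : ((A : ℝ) * D - B * C) * log (v x) = 0 := by linear_combination D * (-l1) + B * l2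
      have q2 : ((A : ℝ) * D - B * C) * log (v (1 - x)) = 0 := by
        linear_combination C * l1 - A * l2
      apply nx
      exact ⟨eq_one_of_pos_of_log_eq_zero (FinitePlace.pos_iff.mpr h.x0)
        ((mul_eq_zero.mp q1).resolve_left hdet'),
        eq_one_of_pos_of_log_eq_zero (FinitePlace.pos_iff.mpr h1x)
        ((mul_eq_zero.mp q2).resolve_left hdet')⟩
    -- move the type of `x` to the first type
    have step : ∀ z w : K, Good z w → ¬ (v z = 1 ∧ v (1 - z) = 1) → ∃ z' : K, Good z' w ∧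
        v z' < 1 ∧ logHeight₁ z ≤ logHeight₁ z' + c := by
      intro z w hzw ht
      rcases types v z with h' | h' | h' | h'
      · exact absurd h' ht
      · exact ⟨z, hzw, h'.1, by linarith⟩
      · exact ⟨1 - z, hzw.one_sub, h'.2, height_le_one_sub z⟩
      · refine ⟨z⁻¹, hzw.inv, ?_, ?_⟩
        · rw [map_inv₀]
          exact inv_lt_one_of_one_lt₀ h'.1
        · rw [logHeight₁_inv]
          linarith
    obtain ⟨x', g1, g2, g3⟩ := step x y h nx
    obtain ⟨y', g4, g5, g6⟩ := step y x' g1.symm ny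
    obtain ⟨b1, b2⟩ := hC1 v x' y' ⟨g4.symm, g2, g5⟩
    have := le_max_left C1 C2
    constructor <;> linarith

end NF

end Pool.Agent.CITNF
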