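import Pool.Agent.CITNF.Places
import Pool.Agent.CITNF.Basic

set_option autoImplicit false

/-! P7. Normalised pairs of the first kind. n = [K:Q], t = A/N, t' = D/N.
inv: at a finite v with v x > 1: v(1-x) = v x, v(y)^N = v(x)^A > 1, so v(1-y) = v y and A = D; then
(1 - 1/y)^(2N) = ((1-y)/y)^(2N) = ((1-x)/x)^(2A) = (1 - 1/x)^(2D).
ratio2: if some finite v has v x > 1 then A = D (inv). Otherwise `exists_inf_large`: infinite v with
L = log v(x) >= h(x)/n >= 2 log 2; |log v(1-x) - L| <= log 2; N log v(y) = A L, N <= 2A, so v y >= 2 and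
|log v(1-y) - log v(y)| <= log 2; hence |A-D| L <= (N+D) log 2. Take C = 200 n log 2 + 2 n log 2.
near2: N h(y/x) = |A-N| h(x), N h((1-y)/(1-x)) = |D-N| h(1-x) (logHeight₁_zpow), and `near`. -/

namespace Pool.Agent.CITNF

open NumberField Height Real Module

variable {K : Type} [Field K] [NumberField K]

private lemma two_fin_pow_lt {v : FinitePlace K} {x y : K} {N A : ℕ} (hA : 0 < A)
    (h : y ^ N = x ^ A) (hv : v x < 1) : v y < 1 := by
  have h1 : v y ^ N = v x ^ A := by rw [← map_pow, h, map_pow]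
  have h2 : v x ^ A < 1 := pow_lt_one₀ (apply_nonneg _ _) hv hA.ne'
  rw [← h1] at h2
  by_contra hcon
  push Not at hcon
  exact absurd (one_le_pow₀ hcon) (not_le.2 h2)

theorem NP2.swap {x y : K} {N A D : ℕ} (h : NP2 x y N A D) : NP2 y x (A * D) (N * D) (N * A) where
  x0 := h.y0
  x1 := h.y1
  y0 := h.x0
  y1 := h.x1
  N0 := Nat.mul_pos h.A0 h.D0
  A0 := Nat.mul_pos h.N0 h.D0
  D0 := Nat.mul_pos h.N0 h.A0
  hy := by rw [pow_mul, pow_mul, h.hy]
  hy1 := by rw [mul_comm A D, pow_mul, pow_mul, h.hy1]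
  t1 := by
    obtain ⟨v, hv⟩ := h.t1
    exact ⟨v, two_fin_pow_lt h.A0 h.hy hv⟩
  t2 := by
    obtain ⟨v, hv⟩ := h.t2
    exact ⟨v, two_fin_pow_lt h.D0 h.hy1 hv⟩

theorem NP2.flip {x y : K} {N A D : ℕ} (h : NP2 x y N A D) : NP2 (1 - x) (1 - y) N D A where
  x0 := sub_ne_zero.2 (Ne.symm h.x1)
  x1 := by
    intro h1
    apply h.x0
    linear_combination -h1
  y0 := sub_ne_zero.2 (Ne.symm h.y1)
  y1 := by
    intro h1
    apply h.y0
    linear_combination -h1
  N0 := h.N0
  A0 := h.D0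
  D0 := h.A0
  hy := h.hy1
  hy1 := by rw [sub_sub_cancel, sub_sub_cancel, h.hy]
  t1 := h.t2
  t2 := by
    obtain ⟨v, hv⟩ := h.t1
    exact ⟨v, by rw [sub_sub_cancel]; exact hv⟩

theorem NP2.inv {x y : K} {N A D : ℕ} (h : NP2 x y N A D) (h3 : ∃ v : FinitePlace K, 1 < v x) :
    A = D ∧ NP2 x⁻¹ y⁻¹ (2 * N) (2 * A) (2 * D) := by
  obtain ⟨v, hv⟩ := h3
  have hx1 : v (1 - x) = v x := one_sub_eq v x hv
  have hyN : v y ^ N = v x ^ A := by rw [← map_pow, h.hy, map_pow]
  have hvy : 1 < v y := by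
    have h2 : 1 < v x ^ A := one_lt_pow₀ hv h.A0.ne'
    rw [← hyN] at h2
    by_contra hcon
    push Not at hcon
    exact absurd (pow_le_one₀ (apply_nonneg _ _) hcon) (not_le.2 h2)
  have hy1 : v (1 - y) = v y := one_sub_eq v y hvy
  have hy1N : v (1 - y) ^ N = v (1 - x) ^ D := by rw [← map_pow, h.hy1, map_pow]
  have hAD : A = D := by
    rw [hx1, hy1, hyN] at hy1N
    exact pow_right_injective₀ (lt_trans one_pos hv) hv.ne' hy1N
  subst hAD
  refine ⟨rfl, ?_⟩
  have hx0 := h.x0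
  have hy0 := h.y0
  exact
  { x0 := inv_ne_zero h.x0
    x1 := by
      intro h1
      exact h.x1 (by simpa using h1)
    y0 := inv_ne_zero h.y0
    y1 := by
      intro h1
      exact h.y1 (by simpa using h1)
    N0 := by have := h.N0; omega
    A0 := by have := h.A0; omega
    D0 := by have := h.A0; omega
    hy := by rw [inv_pow, inv_pow, mul_comm 2 N, mul_comm 2 A, pow_mul, pow_mul, h.hy]
    hy1 := by
      have e1 : (1 - y⁻¹) = -((1 - y) / y) := by field_simp; ring
      have e2 : (1 - x⁻¹) = -((1 - x) / x) := by field_simp; ring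
      rw [e1, e2, pow_mul, pow_mul, neg_sq, neg_sq, ← pow_mul, ← pow_mul, mul_comm 2 N,
        mul_comm 2 A, pow_mul, pow_mul, div_pow, div_pow, h.hy, h.hy1, div_pow (1 - x) x A,
        div_pow ((1 - x) ^ A)]
    t1 := ⟨v, by rw [map_inv₀]; exact inv_lt_one_of_one_lt₀ hv⟩
    t2 := by
      obtain ⟨w, hw⟩ := h.t2
      have hwx : w x = 1 := by
        have := one_sub_eq_one w (1 - x) hw
        rwa [sub_sub_cancel] at this
      refine ⟨w, ?_⟩
      have e2 : (1 - x⁻¹) = -((1 - x) / x) := by field_simp; ring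
      rw [e2, map_neg_eq_map, map_div₀, hwx, div_one]
      exact hw }

theorem NP2.height {x y : K} {N A D : ℕ} (h : NP2 x y N A D) :
    N * logHeight₁ y = A * logHeight₁ x ∧ N * logHeight₁ (1 - y) = D * logHeight₁ (1 - x) := by
  constructor
  · rw [← logHeight₁_pow, ← logHeight₁_pow, h.hy]
  · rw [← logHeight₁_pow, ← logHeight₁_pow, h.hy1]

omit [NumberField K] in
private lemma two_log_near (v : InfinitePlace K) (z : K) (hz : 2 ≤ v z) :
    |log (v (1 - z)) - log (v z)| ≤ log 2 := by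
  have h0 : 0 < v z := by linarith
  have h1 : v (1 - z) ≤ 1 + v z := by
    calc v (1 - z) ≤ v 1 + v z := v.1.sub_le_add 1 z
      _ = 1 + v z := by rw [map_one]
  have h2 : v z - 1 ≤ v (1 - z) := by
    have h3 : v z ≤ v (1 - z) + 1 := by
      have : z = 1 - (1 - z) := by ring
      calc v z = v (1 - (1 - z)) := by rw [← this]
        _ ≤ v 1 + v (1 - z) := v.1.sub_le_add 1 (1 - z)
        _ = v (1 - z) + 1 := by rw [map_one]; ring
    linarith
  have h4 : 0 < v (1 - z) := by linarith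
  rw [abs_le]
  constructor
  · have : log (v z) ≤ log (2 * v (1 - z)) := log_le_log h0 (by linarith)
    rw [log_mul two_ne_zero h4.ne'] at this
    linarith
  · have : log (v (1 - z)) ≤ log (2 * v z) := log_le_log h4 (by linarith)
    rw [log_mul two_ne_zero h0.ne'] at this
    linarith

theorem ratio2 (K : Type) [Field K] [NumberField K] :
    ∃ C : ℝ, ∀ (x y : K) (N A D : ℕ), NP2 x y N A D → N ≤ 2 * A →
    C ≤ logHeight₁ x → 200 * |(A : ℝ) - D| ≤ N + D := by
  refine ⟨finrank ℚ K * (200 * log 2), fun x y N A D h hNA hC => ?_⟩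
  by_cases h3 : ∃ v : FinitePlace K, 1 < v x
  · obtain ⟨hAD, -⟩ := h.inv h3
    subst hAD
    simp only [sub_self, abs_zero, mul_zero]
    positivity
  push Not at h3
  obtain ⟨v, hv⟩ := exists_inf_large x h.x0 h3
  have hn : (0 : ℝ) < finrank ℚ K := by exact_mod_cast finrank_pos
  have hl2 : 0 < log 2 := log_pos one_lt_two
  set L := log (v x) with hLdef
  have hL : 200 * log 2 ≤ L := by
    refine le_trans ?_ hv
    rw [le_div_iff₀ hn]
    linarith
  have hvx0 : 0 < v x := by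
    rw [InfinitePlace.pos_iff]
    exact h.x0
  have hvy0 : 0 < v y := by
    rw [InfinitePlace.pos_iff]
    exact h.y0
  have hvx2 : 2 ≤ v x := by
    have : log 2 ≤ log (v x) := by linarith
    exact (log_le_log_iff two_pos hvx0).1 this
  have hN : (0 : ℝ) < N := by exact_mod_cast h.N0
  have hA : (0 : ℝ) < A := by exact_mod_cast h.A0
  have hD : (0 : ℝ) < D := by exact_mod_cast h.D0
  have e1 : N * log (v y) = A * L := by
    rw [hLdef, ← log_pow, ← log_pow, ← map_pow, ← map_pow, h.hy]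
  have e2 : N * log (v (1 - y)) = D * log (v (1 - x)) := by
    rw [← log_pow, ← log_pow, ← map_pow, ← map_pow, h.hy1]
  have hNA' : (N : ℝ) ≤ 2 * A := by exact_mod_cast hNA
  have hvy2 : 2 ≤ v y := by
    have h5 : N * log 2 ≤ N * log (v y) := by
      rw [e1]
      calc N * log 2 ≤ 2 * A * log 2 := by gcongr
        _ = A * (2 * log 2) := by ring
        _ ≤ A * L := by
          apply mul_le_mul_of_nonneg_left _ hA.le
          linarith
    have h6 : log 2 ≤ log (v y) := le_of_mul_le_mul_left h5 hN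
    exact (log_le_log_iff two_pos hvy0).1 h6
  have n1 := two_log_near v x hvx2
  have n2 := two_log_near v y hvy2
  rw [← hLdef] at n1
  have e3 : ((A : ℝ) - D) * L = N * (-(log (v (1 - y)) - log (v y))) +
      D * (log (v (1 - x)) - L) := by
    linear_combination -e1 + e2
  have h7 : |(A : ℝ) - D| * L ≤ (N + D) * log 2 := by
    have hL0 : 0 ≤ L := by linarith
    calc |(A : ℝ) - D| * L = |((A : ℝ) - D) * L| := by rw [abs_mul, abs_of_nonneg hL0]
      _ = |N * (-(log (v (1 - y)) - log (v y))) + D * (log (v (1 - x)) - L)| := by rw [e3]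
      _ ≤ |N * (-(log (v (1 - y)) - log (v y)))| + |D * (log (v (1 - x)) - L)| := abs_add_le _ _
      _ = N * |log (v (1 - y)) - log (v y)| + D * |log (v (1 - x)) - L| := by
        rw [abs_mul, abs_mul, abs_neg, abs_of_pos hN, abs_of_pos hD]
      _ ≤ N * log 2 + D * log 2 := by gcongr
      _ = (N + D) * log 2 := by ring
  have h8 : (200 * |(A : ℝ) - D|) * log 2 ≤ (N + D) * log 2 := by
    calc (200 * |(A : ℝ) - D|) * log 2 = |(A : ℝ) - D| * (200 * log 2) := by ring
      _ ≤ |(A : ℝ) - D| * L := by gcongr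
      _ ≤ _ := h7
  exact le_of_mul_le_mul_right h8 hl2

theorem near2 (K : Type) [Field K] [NumberField K] :
    ∃ C : ℝ, ∀ (x y : K) (N A D : ℕ), NP2 x y N A D → y ≠ x → 15 * N ≤ 16 * A →
    16 * A ≤ 17 * N → logHeight₁ x ≤ C := by
  obtain ⟨C₀, hC₀⟩ := ratio2 K
  have hn : (0 : ℝ) < finrank ℚ K := by exact_mod_cast finrank_pos
  have hl2 : 0 < log 2 := log_pos one_lt_two
  set c := finrank ℚ K * log 2 with hc
  have hc0 : 0 < c := mul_pos hn hl2
  refine ⟨max C₀ (4 * c), fun x y N A D h hne h1 h2 => ?_⟩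
  rcases lt_or_ge (logHeight₁ x) C₀ with hlt | hge
  · exact hlt.le.trans (le_max_left _ _)
  refine le_trans ?_ (le_max_right _ _)
  have hN : (0 : ℝ) < N := by exact_mod_cast h.N0
  have hA : (0 : ℝ) < A := by exact_mod_cast h.A0
  have hD : (0 : ℝ) < D := by exact_mod_cast h.D0
  have h3 := hC₀ x y N A D h (by omega) hge
  have hnear := near x y h.x0 h.x1 h.y0 h.y1 hne
  rw [← hc] at hnear
  have hone := height_one_sub_le x
  rw [← hc] at hone
  have hx0 := h.x0
  have hx1 : (1 - x) ≠ 0 := sub_ne_zero.2 (Ne.symm h.x1)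
  have h4 : 0 ≤ logHeight₁ x := zero_le_logHeight₁ x
  have h5 : 0 ≤ logHeight₁ (1 - x) := zero_le_logHeight₁ _
  have e1 : N * logHeight₁ (y / x) = |(A : ℝ) - N| * logHeight₁ x := by
    rw [← logHeight₁_pow, div_pow, h.hy, ← zpow_natCast, ← zpow_natCast, ← zpow_sub₀ hx0,
      logHeight₁_zpow, Nat.cast_natAbs]
    push_cast
    rfl
  have e2 : N * logHeight₁ ((1 - y) / (1 - x)) = |(D : ℝ) - N| * logHeight₁ (1 - x) := by
    rw [← logHeight₁_pow, div_pow, h.hy1, ← zpow_natCast, ← zpow_natCast, ← zpow_sub₀ hx1,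
      logHeight₁_zpow, Nat.cast_natAbs]
    push_cast
    rfl
  have h1' : 15 * (N : ℝ) ≤ 16 * A := by exact_mod_cast h1
  have h2' : 16 * (A : ℝ) ≤ 17 * N := by exact_mod_cast h2
  have a1 : |(A : ℝ) - N| ≤ N / 16 := by
    rw [abs_le]
    constructor <;> linarith
  have a2 : |(D : ℝ) - N| ≤ 3 / 40 * N := by
    have h6 := abs_le.1 (show |(A : ℝ) - D| ≤ (N + D) / 200 by linarith)
    rw [abs_le]
    constructor <;> linarith [h6.1, h6.2]
  have b1 : logHeight₁ (y / x) ≤ logHeight₁ x / 16 := by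
    have : N * logHeight₁ (y / x) ≤ N * (logHeight₁ x / 16) := by
      rw [e1]
      calc |(A : ℝ) - N| * logHeight₁ x ≤ N / 16 * logHeight₁ x := by gcongr
        _ = _ := by ring
    exact le_of_mul_le_mul_left this hN
  have b2 : logHeight₁ ((1 - y) / (1 - x)) ≤ 3 / 40 * logHeight₁ (1 - x) := by
    have : N * logHeight₁ ((1 - y) / (1 - x)) ≤ N * (3 / 40 * logHeight₁ (1 - x)) := by
      rw [e2]
      calc |(D : ℝ) - N| * logHeight₁ (1 - x) ≤ 3 / 40 * N * logHeight₁ (1 - x) := by gcongr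
        _ = _ := by ring
    exact le_of_mul_le_mul_left this hN
  linarith

end Pool.Agent.CITNF
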